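import Pool.Agent.W_4d259d_h46.PlSplit
import Pool.Agent.W_4d259d_h44.Base

/-!
# `ℂ` is a good surface (module PL)
-/

noncomputable section

namespace Pool.Agent.W_4d259d_h46.Pl

open MeasureTheory Set Filter Topology Metric Manifold TopologicalSpace
open scoped Real ENNReal ContDiff
open Pool.Agent.W_4d259d_h44 Pool.Agent.W_4d259d_h46.Defs Pool.Agent.W_4d259d_h46

/-- (SPLIT) for `ℂ`: a smooth cut-off `χ : ℂ → [0,1]`, `χ = 1` on `N1`, compact support in `N`
(`exists_contMDiff_one_nhds_of_subset_interior` or `exists_contDiff_tsupport_subset` like lemmas;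
`closure N ⊆ unitOf e ⊆ e.symm '' closedBall 0 1` is compact), then `split_plane`. -/
theorem split_complex (e : OpenPartialHomeomorph ℂ ℂ) (he : e ∈ DChart ℂ) (N1 N WA : Opens ℂ)
    (h1 : closure (N1 : Set ℂ) ⊆ N) (h2 : closure (N : Set ℂ) ⊆ unitOf e) :
    ∃ (SA : HB (WA ⊓ N) ℂ →L[ℂ] HB WA ℂ) (SB : HB (WA ⊓ N) ℂ →L[ℂ] HB (N1 ⊔ (WA ⊓ N)) ℂ),
      ∀ y : HB (WA ⊓ N) ℂ, ∀ z ∈ WA ⊓ N, y.fn z = (SA y).fn z - (SB y).fn z := by
  -- the closure of `N` lies in a compact set
  have hcb : closedBall (0 : ℂ) 1 ⊆ e.target :=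
    (closedBall_subset_closedBall (by norm_num)).trans he.2
  have hK : IsCompact (e.symm '' closedBall (0 : ℂ) 1) :=
    (isCompact_closedBall (0 : ℂ) 1).image_of_continuousOn (e.continuousOn_symm.mono hcb)
  have hsub : closure (N1 : Set ℂ) ⊆ e.symm '' closedBall (0 : ℂ) 1 :=
    (h1.trans subset_closure).trans (h2.trans (image_mono ball_subset_closedBall))
  have hN1c : IsCompact (closure (N1 : Set ℂ)) := hK.of_isClosed_subset isClosed_closure hsub
  obtain ⟨L, hL, hL1, hLN⟩ := exists_compact_between hN1c N.isOpen h1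
  obtain ⟨f, hf1, hf0, hf⟩ := exists_contMDiffMap_one_nhds_of_subset_interior
    (n := (⊤ : ℕ∞)) (modelWithCornersSelf ℝ ℂ) (isClosed_closure (s := (N1 : Set ℂ))) hL1
  have hts : tsupport (fun z => f z) ⊆ L := by
    refine closure_minimal ?_ hL.isClosed
    intro z hz
    by_contra hzL
    exact hz (hf0 z hzL)
  have hcs : HasCompactSupport (fun z => f z) :=
    hL.of_isClosed_subset (isClosed_tsupport _) hts
  refine split_plane (subset_closure.trans h1) (fun z => f z) ?_ hcs (hts.trans hLN) hf ?_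
  · exact f.contMDiff.contDiff
  · intro z hz
    exact (hf1.self_of_nhdsSet z (subset_closure hz))

/-- `z ↦ z - p` has a simple zero at `p`, in every chart. -/
theorem simpleZero_sub (p : ℂ) : SimpleZero (fun z : ℂ => z - p) p := by
  refine ⟨sub_self p, fun e he hp => ?_⟩
  have he1 : e ∈ IsManifold.maximalAtlas (modelWithCornersSelf ℂ ℂ) 1 ℂ :=
    IsManifold.maximalAtlas_subset_of_le le_top he
  have h1 : DifferentiableAt ℂ e p :=
    (mdifferentiableAt_of_mem_maximalAtlas he1 hp).differentiableAt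
  have h2 : DifferentiableAt ℂ e.symm (e p) :=
    (mdifferentiableAt_symm_of_mem_maximalAtlas he1 (e.map_source hp)).differentiableAt
  have h3 : HasDerivAt (fun z => e.symm (e z)) (deriv e.symm (e p) * deriv e p) p :=
    HasDerivAt.comp p h2.hasDerivAt h1.hasDerivAt
  have h4 : (fun z => e.symm (e z)) =ᶠ[𝓝 p] fun z => z := by
    filter_upwards [e.open_source.mem_nhds hp] with z hz
    exact e.left_inv hz
  have h5 : deriv e.symm (e p) * deriv e p = 1 :=
    h3.unique ((hasDerivAt_id p).congr_of_eventuallyEq h4)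
  have h6 : deriv (fun ζ => e.symm ζ - p) (e p) = deriv e.symm (e p) := deriv_sub_const p
  rw [h6]
  exact left_ne_zero_of_mul_eq_one h5

instance : GoodSurface ℂ where
  split := fun e he N1 N WA h1 h2 _ => split_complex e he N1 N WA h1 h2
  zero := fun _ _ p _ => ⟨⊤, by simp, fun z => z - p, by
    rw [holOn_iff]; fun_prop, fun z _ hz => sub_eq_zero.1 hz, simpleZero_sub p⟩

end Pool.Agent.W_4d259d_h46.Pl
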