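import Pool.Agent.W_4d259d_h46.PlB5

/-!
# PLANAR BUMP THEOREM (module PL): all of section 4 which happens in the plane
-/

noncomputable section

namespace Pool.Agent.W_4d259d_h46.Pl

open MeasureTheory Set Filter Topology Metric Manifold
open scoped Real ENNReal ContDiff
open Pool.Agent.W_4d259d_h44 Pool.Agent.W_4d259d_h46.Defs

variable {E : Type*} [NormedAddCommGroup E] [NormedSpace ℂ E]
variable {X : Type*} [TopologicalSpace X] [ChartedSpace E X]

theorem off_open (h : ℝ) (J : Finset ℂ) (c : ℝ) : IsOpen {z : ℂ | ∀ j ∈ J, c * h / 16 < ‖z - j‖} := by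
  have : {z : ℂ | ∀ j ∈ J, c * h / 16 < ‖z - j‖} = ⋂ j ∈ J, {z : ℂ | c * h / 16 < ‖z - j‖} := by
    ext z; simp
  rw [this]
  refine isOpen_biInter_finset fun j _ => ?_
  exact isOpen_lt continuous_const (continuous_id.sub continuous_const).norm

/-- Filling the holes.  `G z = Lam_j ((z-j)/ε) (p_j z) (c_j/ε)` on `ball j (h/2)`,
`G z = φ.symm (y z)`, `y = g0 + b + Sop b`, elsewhere on `W`; both agree for
`3h/16 < |z-j| < h/2`. -/
theorem fill [IsManifold (modelWithCornersSelf ℂ E) ω X] {φ : OpenPartialHomeomorph X E}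
    (hφ : φ ∈ XChart E X) {h δ ρ ε : ℝ} (hh : 0 < h) (hε : 0 < ε) {J : Finset ℂ}
    (hJd : ∀ i ∈ J, ∀ j ∈ J, i ≠ j → Disjoint (ball i (h / 2)) (ball j (h / 2)))
    {W : Set ℂ} (hW : IsOpen W) {y : ℂ → E} {x a : ℂ → E} {p : ℂ → ℂ → E}
    {Ψ : ℂ → ℂ → E → E} {Lam : ℂ → ℂ → E → E → X}
    (hy : DifferentiableOn ℂ y {z | z ∈ W ∧ ∀ j ∈ J, 3 * h / 16 < ‖z - j‖})
    (hyt : ∀ z ∈ W, (∀ j ∈ J, h / 4 ≤ ‖z - j‖) → y z ∈ φ.target)
    (ha : ∀ j ∈ J, a j ∈ ball (0 : E) δ)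
    (hp : ∀ j ∈ J, DifferentiableOn ℂ (p j) (ball j (h / 2)))
    (hpx : ∀ j ∈ J, ∀ z ∈ ball j (h / 2), p j z ∈ ball (x j) δ)
    (hLam : ∀ j ∈ J, MDifferentiableOn (modelWithCornersSelf ℂ (ℂ × E × E))
      (modelWithCornersSelf ℂ E)
      (fun q : ℂ × E × E => Lam j q.1 q.2.1 q.2.2) (univ ×ˢ (ball (x j) δ ×ˢ ball 0 δ)))
    (heq : ∀ j ∈ J, ∀ ζ ∈ ball (0 : ℂ) ρ, ζ ≠ 0 → ∀ q ∈ ball (x j) δ,
      Lam j ζ⁻¹ q (a j) ∈ φ.source ∧
      φ (Lam j ζ⁻¹ q (a j)) = q + ζ • a j + ζ ^ 2 • Ψ j ζ q)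
    (hann : ∀ j ∈ J, ∀ z ∈ ball j (h / 2), 3 * h / 16 < ‖z - j‖ →
      ((ε : ℂ) / (z - j)) ∈ ball (0 : ℂ) ρ ∧
      y z = p j z + ((ε : ℂ) / (z - j)) • a j +
        ((ε : ℂ) / (z - j)) ^ 2 • Ψ j ((ε : ℂ) / (z - j)) (p j z)) :
    ∃ G : ℂ → X, HolOn E G W ∧ ∀ z ∈ W, (∀ j ∈ J, h / 4 ≤ ‖z - j‖) →
      G z ∈ φ.source ∧ φ (G z) = y z := by
  classical
  let G : ℂ → X := fun z => if hz : ∃ j ∈ J, z ∈ ball j (h / 2) then
      Lam hz.choose ((z - hz.choose) / ε) (p hz.choose z) (a hz.choose) else φ.symm (y z)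
  have hG1 : ∀ j ∈ J, ∀ z ∈ ball j (h / 2), G z = Lam j ((z - j) / ε) (p j z) (a j) := by
    intro j hj z hz
    have hex : ∃ j ∈ J, z ∈ ball j (h / 2) := ⟨j, hj, hz⟩
    have hc := hex.choose_spec
    have : hex.choose = j := by
      by_contra hne
      exact Set.disjoint_left.1 (hJd _ hc.1 _ hj hne) hc.2 hz
    simp only [G]
    rw [dif_pos hex, this]
  have hann2 : ∀ j ∈ J, ∀ z ∈ ball j (h / 2), 3 * h / 16 < ‖z - j‖ →
      G z ∈ φ.source ∧ φ (G z) = y z := by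
    intro j hj z hz hz2
    have hzj : z - j ≠ 0 := by
      intro h0
      rw [h0, norm_zero] at hz2
      linarith
    have hεc : (ε : ℂ) ≠ 0 := by exact_mod_cast hε.ne'
    have h1 := (hann j hj z hz hz2).1
    have h2 := (hann j hj z hz hz2).2
    have h3 : ((ε : ℂ) / (z - j)) ≠ 0 := div_ne_zero hεc hzj
    have h4 := heq j hj _ h1 h3 _ (hpx j hj z hz)
    rw [inv_div] at h4
    rw [hG1 j hj z hz, h2]
    exact h4
  have hG2 : ∀ z ∈ W, (∀ j ∈ J, 3 * h / 16 < ‖z - j‖) → y z ∈ φ.target ∧ G z = φ.symm (y z) := by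
    intro z hz hz2
    by_cases hex : ∃ j ∈ J, z ∈ ball j (h / 2)
    · obtain ⟨j, hj, hzj⟩ := hex
      obtain ⟨h1, h2⟩ := hann2 j hj z hzj (hz2 j hj)
      rw [← h2]
      exact ⟨φ.map_source h1, (φ.left_inv h1).symm⟩
    · refine ⟨hyt z hz fun j hj => ?_, ?_⟩
      · by_contra hlt
        push Not at hlt
        apply hex
        refine ⟨j, hj, ?_⟩
        rw [mem_ball_iff_norm]
        linarith
      · simp only [G]
        rw [dif_neg hex]
  refine ⟨G, ?_, ?_⟩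
  · -- holomorphic
    intro z hz
    apply MDifferentiableAt.mdifferentiableWithinAt
    by_cases hex : ∃ j ∈ J, z ∈ ball j (h / 2)
    · obtain ⟨j, hj, hzj⟩ := hex
      have h1 : MDifferentiableOn (modelWithCornersSelf ℂ ℂ) (modelWithCornersSelf ℂ E)
          (fun z => Lam j ((z - j) / ε) (p j z) (a j)) (ball j (h / 2)) := by
        have h2 : MDifferentiableOn (modelWithCornersSelf ℂ ℂ)
            (modelWithCornersSelf ℂ (ℂ × E × E))
            (fun z : ℂ => (((z - j) / ε, p j z, a j) : ℂ × E × E)) (ball j (h / 2)) := by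
          rw [mdifferentiableOn_iff_differentiableOn]
          refine DifferentiableOn.prodMk (by fun_prop) ?_
          exact DifferentiableOn.prodMk (hp j hj) (differentiableOn_const _)
        exact MDifferentiableOn.comp (hLam j hj) h2
          (fun w hw => ⟨mem_univ _, hpx j hj w hw, ha j hj⟩)
      have h2 : MDifferentiableAt (modelWithCornersSelf ℂ ℂ) (modelWithCornersSelf ℂ E)
          (fun z => Lam j ((z - j) / ε) (p j z) (a j)) z :=
        (h1 z hzj).mdifferentiableAt (isOpen_ball.mem_nhds hzj)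
      refine h2.congr_of_eventuallyEq ?_
      filter_upwards [isOpen_ball.mem_nhds hzj] with w hw
      exact hG1 j hj w hw
    · set O : Set ℂ := {z | z ∈ W ∧ ∀ j ∈ J, 3 * h / 16 < ‖z - j‖} with hO
      have hOo : IsOpen O := hW.inter (off_open h J 3)
      have hzO : z ∈ O := by
        refine ⟨hz, fun j hj => ?_⟩
        by_contra hlt
        push Not at hlt
        apply hex
        refine ⟨j, hj, ?_⟩
        rw [mem_ball_iff_norm]
        linarith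
      have h1 : MDifferentiableOn (modelWithCornersSelf ℂ ℂ) (modelWithCornersSelf ℂ E)
          (fun z => φ.symm (y z)) O := by
        refine MDifferentiableOn.comp
          ((contMDiffOn_symm_of_mem_maximalAtlas hφ).mdifferentiableOn (by simp))
          (mdifferentiableOn_iff_differentiableOn.2 hy) ?_
        intro w hw
        exact (hG2 w hw.1 hw.2).1
      refine ((h1 z hzO).mdifferentiableAt (hOo.mem_nhds hzO)).congr_of_eventuallyEq ?_
      filter_upwards [hOo.mem_nhds hzO] with w hw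
      exact (hG2 w hw.1 hw.2).2
  · intro z hz hoff
    obtain ⟨h1, h2⟩ := hG2 z hz fun j hj => by
      have := hoff j hj
      linarith
    rw [h2]
    exact ⟨φ.map_target h1, φ.right_inv h1⟩

/-- PLANAR BUMP THEOREM. -/
theorem planar_bump [CompleteSpace E] [Nonempty X] [IsManifold (modelWithCornersSelf ℂ E) ω X]
    {φ : OpenPartialHomeomorph X E} (hφ : φ ∈ XChart E X)
    {Cx : Set E} {δ ρ M : ℝ} (hδ : 0 < δ) (hρ : 0 < ρ) (hM : 0 ≤ M)
    (hflex : ∀ c ∈ Cx, ∃ (Lam : ℂ → E → E → X) (Psi : ℂ → E → E → E),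
      FlexData φ c δ ρ M Lam Psi)
    {g0 : ℂ → E} {N' D V : Set ℂ} (hN' : IsOpen N') (hg0 : ContDiffOn ℝ 1 g0 N')
    (hD : IsCompact D) (hDN : D ⊆ N') (hDb : D ⊆ closedBall 0 1) (hV : IsOpen V) (hVD : V ⊆ D)
    (hnull : volume ((D \ V) ∩ {z | dbar g0 z ≠ 0}) = 0) (hgC : ∀ z ∈ V, g0 z ∈ Cx)
    {d : ℝ} (hd : 0 < d) (hgd : ∀ z ∈ N', closedBall (g0 z) d ⊆ φ.target)
    {κ h1 : ℝ} (hκ : 0 < κ) (hκd : κ ≤ d / 2) (hh1 : 0 < h1) {N1 : Set ℂ} (hN1 : IsOpen N1)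
    (hDN1 : D ⊆ N1) :
    ∃ (W : Set ℂ) (h : ℝ) (J : Finset ℂ) (Sop : (ℂ → E) → ℂ → E),
      IsOpen W ∧ D ⊆ W ∧ W ⊆ N1 ∧ W ⊆ N' ∧ 0 < h ∧ h ≤ h1 ∧
      (∀ j ∈ J, closedBall j (h / 2) ⊆ V) ∧
      (∀ i ∈ J, ∀ j ∈ J, i ≠ j → Disjoint (ball i (h / 2)) (ball j (h / 2))) ∧
      (∀ b, SmallOn h δ J b → ∀ z, Off h J z → ‖Sop b z‖ ≤ κ) ∧
      (∀ b b', SmallOn h δ J b → SmallOn h δ J b' → ∀ t : ℝ, 0 ≤ t →
        (∀ j ∈ J, ∀ z ∈ ball j (h / 2), ‖b z - b' z‖ ≤ t) →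
        ∀ z, Off h J z → ‖Sop b z - Sop b' z‖ ≤ κ * t) ∧
      (∀ b, SmallOn h δ J b → ∀ U, IsOpen U → (∀ z ∈ U, Off h J z) →
        (∀ z ∈ U ∩ W, dbar g0 z = 0) → DifferentiableOn ℂ (Sop b) U) ∧
      (∀ b, SmallOn h δ J b → DifferentiableOn ℂ b W → (∀ z ∈ W, ‖b z‖ ≤ d / 2) →
        ∃ G : ℂ → X, HolOn E G W ∧ ∀ z ∈ W, Off h J z →
          G z ∈ φ.source ∧ φ (G z) = g0 z + b z + Sop b z) := by
  obtain ⟨m, hm0, hcore⟩ := exists_core hδ hρ hM hflex hN' hg0 hD hDN hDb hV hVD hnull hgC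
  obtain ⟨h0, hh0, C, hC, h01, hSop⟩ := exists_Sop (E := E) hm0 hδ hρ hM
  obtain ⟨W, h, H, Lam, hW, hDW, hWN1, hWN', hh, hhh1, hJV, hcoreH, hj⟩ :=
    hcore (κ / 2) (min h1 (min h0 (κ / (2 * C)))) (by positivity)
      (lt_min hh1 (lt_min hh0 (by positivity))) N1 hN1 hDN1
  have hle1 : h ≤ h1 := hhh1.trans (min_le_left _ _)
  have hle0 : h ≤ h0 := hhh1.trans ((min_le_right _ _).trans (min_le_left _ _))
  have hleC : C * h ≤ κ / 2 := by
    have h3 : h ≤ κ / (2 * C) := hhh1.trans ((min_le_right _ _).trans (min_le_right _ _))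
    calc C * h ≤ C * (κ / (2 * C)) := by gcongr
      _ = κ / 2 := by field_simp
  obtain ⟨Sop, p, hS1, hS2, hS3, hS4, hS5⟩ := hSop h hh hle0 H g0 W (κ / 2) hcoreH
  have hdisj : ∀ i ∈ H.J, ∀ j ∈ H.J, i ≠ j → Disjoint (ball i (h / 2)) (ball j (h / 2)) := by
    intro i hi j hj hne
    rw [Set.disjoint_left]
    intro w hwi hwj
    have h3 := lat_dist hh H.lat hi hj hne hwj
    rw [mem_ball_iff_norm] at hwi
    linarith
  refine ⟨W, h, H.J, Sop, hW, hDW, hWN1, hWN', hh, hle1, hJV, hdisj, ?_, ?_, ?_, ?_⟩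
  · intro b hb z hz
    have := hS1 b hb z hz
    linarith
  · intro b b' hb hb' t ht hbb z hz
    refine (hS2 b b' hb hb' t ht hbb z hz).trans ?_
    have : C * h ≤ κ := by linarith
    exact mul_le_mul_of_nonneg_right this ht
  · intro b hb U hU hUoff hUW
    refine hS3 b hb U hU (fun z hz j hj => ?_) hUW
    have := hUoff z hz j hj
    linarith
  · intro b hb hbW hbd
    have hεpos : 0 < H.eps := by
      unfold HoleData.eps
      positivity
    have hεc : (H.eps : ℂ) ≠ 0 := by exact_mod_cast hεpos.ne'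
    refine fill hφ (x := g0) (a := fun j => (H.eps : ℂ)⁻¹ • H.c j) (p := p b) (Ψ := H.Ψ)
      (Lam := Lam) (δ := δ) (ρ := ρ) hh hεpos hdisj hW (hS4 b hb hbW) ?_ ?_ ?_ ?_ ?_ ?_ ?_
    · intro z hz hoff
      apply hgd z (hWN' hz)
      rw [mem_closedBall_iff_norm]
      have h3 := hS1 b hb z hoff
      have h4 := hbd z hz
      have h5 : g0 z + b z + Sop b z - g0 z = b z + Sop b z := by abel
      rw [h5]
      refine (norm_add_le _ _).trans ?_
      linarith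
    · intro j hj'
      exact (hj j hj').2.1
    · intro j hj'
      exact (hS5 b hb j hj').1
    · intro j hj' z hz
      have h3 := (hS5 b hb j hj').2.1 z hz
      rw [mem_ball_iff_norm, ← (hj j hj').1]
      linarith
    · intro j hj'
      exact (hj j hj').2.2.1
    · intro j hj'
      exact (hj j hj').2.2.2
    · intro j hj' z hz hz2
      obtain ⟨h3, h4⟩ := (hS5 b hb j hj').2.2 z hz hz2
      refine ⟨h3, ?_⟩
      rw [h4, smul_smul]
      congr 2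
      rw [div_mul_eq_mul_div, mul_inv_cancel₀ hεc, one_div]

end Pool.Agent.W_4d259d_h46.Pl
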