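import Pool.Agent.W_4d259d_h46.PlP

/-!
# Rational approximation (module PL)
-/

noncomputable section

namespace Pool.Agent.W_4d259d_h46.Pl

open MeasureTheory Set Filter Topology Metric
open scoped Real ENNReal ContDiff Manifold

variable {F : Type*} [NormedAddCommGroup F] [NormedSpace ℂ F]

/-- a smooth cut-off function -/
theorem exists_cutoff {C U : Set ℂ} (hC : IsCompact C) (hU : IsOpen U) (hCU : C ⊆ U) :
    ∃ (l : ℂ → ℝ) (V : Set ℂ) (L : Set ℂ), ContDiff ℝ 1 l ∧ IsOpen V ∧ C ⊆ V ∧ IsCompact L ∧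
      V ⊆ L ∧ L ⊆ U ∧ (∀ z ∈ V, l z = 1) ∧ (∀ z, z ∉ L → l z = 0) := by
  obtain ⟨V2, hV2o, hCV2, hV2U, hV2c⟩ := exists_open_between_and_isCompact_closure hC hU hCU
  obtain ⟨V1, hV1o, hCV1, hV1V2, hV1c⟩ := exists_open_between_and_isCompact_closure hC hV2o hCV2
  obtain ⟨l, hl, -, hsupp, hone⟩ := exists_contMDiff_support_eq_eq_one_iff (n := 1) 𝓘(ℝ, ℂ) hV2o
    isClosed_closure hV1V2
  refine ⟨l, V1, closure V2, ?_, hV1o, hCV1, hV2c, ?_, hV2U, ?_, ?_⟩
  · simpa using contMDiff_iff_contDiff.1 hl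
  · exact (subset_closure.trans hV1V2).trans subset_closure
  · intro z hz
    exact (hone z).1 (subset_closure hz)
  · intro z hz
    by_contra h
    have : z ∈ Function.support l := h
    rw [hsupp] at this
    exact hz (subset_closure this)

/-- Riemann sums for integrals depending on a parameter in a compact set. -/
theorem riemann_sum {Φ : ℂ → ℂ → F} {C K : Set ℂ} (hC : IsCompact C) (hK : IsCompact K)
    (hΦ : ContinuousOn (fun x : ℂ × ℂ => Φ x.1 x.2) (C ×ˢ K)) [CompleteSpace F]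
    {ε : ℝ} (hε : 0 < ε) :
    ∃ (s : Finset ℂ) (a : ℂ → ℝ), (∀ w ∈ s, w ∈ K) ∧
      ∀ z ∈ C, ‖(∫ w in K, Φ z w) - ∑ w ∈ s, a w • Φ z w‖ ≤ ε := by
  rcases K.eq_empty_or_nonempty with h0 | ⟨k0, hk0⟩
  · refine ⟨∅, fun _ => 0, by simp, fun z _ => ?_⟩
    simp [h0, hε.le]
  set ε' : ℝ := ε / (volume.real K + 1) with hε'
  have hv : 0 ≤ volume.real K := measureReal_nonneg
  have hε'0 : 0 < ε' := by positivity
  have huc := (hC.prod hK).uniformContinuousOn_of_continuous hΦ
  rw [Metric.uniformContinuousOn_iff] at huc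
  obtain ⟨δ, hδ, huc⟩ := huc ε' hε'0
  obtain ⟨t, htK, htf, hcov⟩ := hK.finite_cover_balls hδ
  -- enumerate the centres
  let _ : Encodable t := htf.countable.toEncodable
  let e : ℕ → ℂ := fun n => match @Encodable.decode t _ n with
    | some x => x
    | none => k0
  have heK : ∀ n, e n ∈ K := by
    intro n
    show (match @Encodable.decode t _ n with
      | some x => (x : ℂ)
      | none => k0) ∈ K
    cases @Encodable.decode t _ n with
    | none => exact hk0
    | some x => exact htK x.2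
  have hesurj : ∀ x ∈ t, ∃ n, e n = x := by
    intro x hx
    refine ⟨Encodable.encode (⟨x, hx⟩ : t), ?_⟩
    show (match @Encodable.decode t _ (Encodable.encode (⟨x, hx⟩ : t)) with
      | some x => (x : ℂ)
      | none => k0) = x
    rw [Encodable.encodek]
  choose! ν hν using hesurj
  obtain ⟨N, hN⟩ : ∃ N, ∀ x ∈ t, ν x ≤ N := by
    obtain ⟨N, hN⟩ := (htf.image ν).bddAbove
    exact ⟨N, fun x hx => hN (mem_image_of_mem ν hx)⟩
  let p := SimpleFunc.nearestPt e N
  have hpK : ∀ w, p w ∈ K := by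
    intro w
    show e (SimpleFunc.nearestPtInd e N w) ∈ K
    exact heK _
  have hpd : ∀ w ∈ K, dist w (p w) < δ := by
    intro w hw
    obtain ⟨x, hx, hwx⟩ := mem_iUnion₂.1 (hcov hw)
    have h1 := SimpleFunc.edist_nearestPt_le e w (hN x hx)
    rw [hν x hx] at h1
    have h2 : dist (p w) w ≤ dist x w := by
      rw [edist_dist, edist_dist] at h1
      exact (ENNReal.ofReal_le_ofReal_iff dist_nonneg).1 h1
    rw [dist_comm]
    refine h2.trans_lt ?_
    rw [dist_comm]
    exact hwx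
  have hmeas : ∀ x, MeasurableSet (K ∩ p ⁻¹' {x}) := fun x =>
    hK.measurableSet.inter (p.measurableSet_fiber x)
  have hunion : (⋃ x ∈ p.range, K ∩ p ⁻¹' {x}) = K := by
    ext w
    simp only [mem_iUnion, mem_inter_iff, mem_preimage, mem_singleton_iff, exists_prop]
    constructor
    · rintro ⟨x, _, h, _⟩
      exact h
    · intro h
      exact ⟨p w, p.mem_range_self w, h, rfl⟩
  refine ⟨p.range, fun x => volume.real (K ∩ p ⁻¹' {x}), ?_, ?_⟩
  · intro x hx
    obtain ⟨w, rfl⟩ := p.mem_range.1 hx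
    exact hpK w
  intro z hz
  have hcont : ContinuousOn (fun w => Φ z w) K := by
    have : ContinuousOn (fun w : ℂ => ((z, w) : ℂ × ℂ)) K := by fun_prop
    exact hΦ.comp this (fun w hw => ⟨hz, hw⟩)
  have hint : IntegrableOn (fun w => Φ z w) K := hcont.integrableOn_compact hK
  have hsum : ∫ w in K, Φ z w = ∑ x ∈ p.range, ∫ w in K ∩ p ⁻¹' {x}, Φ z w := by
    conv_lhs => rw [← hunion]
    refine integral_biUnion_finset _ (fun x _ => hmeas x) ?_ ?_
    · intro x _ y _ hxy
      refine Set.disjoint_left.2 fun w h1 h2 => hxy ?_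
      exact h1.2.symm.trans h2.2
    · intro x _
      exact hint.mono_set inter_subset_left
  have hvol : volume.real K = ∑ x ∈ p.range, volume.real (K ∩ p ⁻¹' {x}) := by
    conv_lhs => rw [← hunion]
    refine measureReal_biUnion_finset ?_ (fun x _ => hmeas x)
      (h := fun x _ => (measure_mono inter_subset_left).trans_lt hK.measure_lt_top |>.ne)
    intro x _ y _ hxy
    refine Set.disjoint_left.2 fun w h1 h2 => hxy ?_
    exact h1.2.symm.trans h2.2
  rw [hsum, ← Finset.sum_sub_distrib]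
  refine (norm_sum_le _ _).trans ?_
  have hterm : ∀ x ∈ p.range,
      ‖(∫ w in K ∩ p ⁻¹' {x}, Φ z w) - volume.real (K ∩ p ⁻¹' {x}) • Φ z x‖ ≤
        ε' * volume.real (K ∩ p ⁻¹' {x}) := by
    intro x hx
    obtain ⟨w0, hw0⟩ := p.mem_range.1 hx
    have hxK : x ∈ K := hw0 ▸ hpK w0
    have hfin : volume (K ∩ p ⁻¹' {x}) < ⊤ :=
      (measure_mono inter_subset_left).trans_lt hK.measure_lt_top
    have hc : volume.real (K ∩ p ⁻¹' {x}) • Φ z x = ∫ w in K ∩ p ⁻¹' {x}, Φ z x := by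
      rw [setIntegral_const]
    rw [hc, ← integral_sub (hint.mono_set inter_subset_left)
      (integrableOn_const hfin.ne (by simp))]
    refine norm_setIntegral_le_of_norm_le_const hfin (fun w hw => ?_)
    have hwx : p w = x := hw.2
    have h1 := huc (z, w) ⟨hz, hw.1⟩ (z, x) ⟨hz, hxK⟩ (by
      rw [Prod.dist_eq]
      simp only [dist_self]
      rw [max_eq_right dist_nonneg, ← hwx]
      exact hpd w hw.1)
    rw [dist_eq_norm] at h1
    exact h1.le
  refine (Finset.sum_le_sum hterm).trans ?_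
  rw [← Finset.mul_sum, ← hvol, hε', div_mul_eq_mul_div, div_le_iff₀ (by positivity)]
  nlinarith

/-- (RAT) rational approximation: a map holomorphic near the compact set `C` is uniformly
approximated on `C` by `Σ c_i/(z - w_i)`, `w_i ∉ C`.
Proof: `l` smooth cut-off, `1` near `C`, compact support in `U`; `G = T (G dbar l)` on `C` by
`T_dbar (l G)`; the density is continuous with compact support off a neighbourhood of `C`; Riemann
sums (uniform continuity of `(z,w) ↦ (z-w)⁻¹ η(w)` on `C × supp`). -/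
theorem rat_approx [CompleteSpace F] {C U : Set ℂ} (hC : IsCompact C) (hU : IsOpen U)
    (hCU : C ⊆ U) {G : ℂ → F} (hG : DifferentiableOn ℂ G U) {τ : ℝ} (hτ : 0 < τ) :
    ∃ (s : Finset ℂ) (c : ℂ → F), (∀ w ∈ s, w ∉ C) ∧
      ∀ z ∈ C, ‖G z - ∑ w ∈ s, (z - w)⁻¹ • c w‖ ≤ τ := by
  obtain ⟨l, V, L, hl, hVo, hCV, hLc, hVL, hLU, hlV, hlL⟩ := exists_cutoff hC hU hCU
  set u : ℂ → F := fun w => (l w : ℂ) • G w with hu
  have hGc : ContDiffOn ℝ 1 G U := by
    have h1 : ContDiffOn ℂ 1 G U := hG.contDiffOn hU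
    exact h1.restrict_scalars ℝ
  have hl' : ContDiff ℝ 1 (fun w => (l w : ℂ)) := Complex.ofRealCLM.contDiff.comp hl
  have hu0 : ∀ z, z ∉ L → u =ᶠ[𝓝 z] fun _ => 0 := by
    intro z hz
    filter_upwards [hLc.isClosed.isOpen_compl.mem_nhds hz] with w hw
    simp [hu, hlL w hw]
  have huC : ContDiff ℝ 1 u := by
    rw [contDiff_iff_contDiffAt]
    intro z
    by_cases hz : z ∈ U
    · exact hl'.contDiffAt.smul (hGc.contDiffAt (hU.mem_nhds hz))
    · exact contDiffAt_const.congr_of_eventuallyEq (hu0 z fun h => hz (hLU h))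
  have hcs : HasCompactSupport u := by
    refine HasCompactSupport.intro hLc fun z hz => ?_
    exact (hu0 z hz).self_of_nhds
  set η : ℂ → F := dbar u with hη
  have hηc : Continuous η := by
    rw [← continuousOn_univ]
    exact continuousOn_dbar isOpen_univ huC.contDiffOn
  have hηV : ∀ z ∈ V, η z = 0 := by
    intro z hz
    have h1 : u =ᶠ[𝓝 z] G := by
      filter_upwards [hVo.mem_nhds hz] with w hw
      simp [hu, hlV w hw]
    have h2 : DifferentiableAt ℂ u z :=
      (hG.differentiableAt (hU.mem_nhds (hLU (hVL hz)))).congr_of_eventuallyEq h1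
    exact dbar_eq_zero h2
  have hηL : ∀ z, z ∉ L → η z = 0 := by
    intro z hz
    rw [hη, dbar_congr (hu0 z hz)]
    exact dbar_eq_zero (differentiableAt_const _)
  set K : Set ℂ := L \ V with hKd
  have hK : IsCompact K := hLc.diff hVo
  have hηK : ∀ w, w ∉ K → η w = 0 := by
    intro w hw
    by_cases h : w ∈ L
    · by_cases h' : w ∈ V
      · exact hηV w h'
      · exact absurd ⟨h, h'⟩ hw
    · exact hηL w h
  have hGT : ∀ z ∈ C, G z = (π : ℂ)⁻¹ • ∫ w in K, (z - w)⁻¹ • η w := by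
    intro z hz
    have h1 := T_dbar huC hcs z
    have h2 : u z = G z := by simp [hu, hlV z (hCV hz)]
    rw [← h2, ← h1]
    show (π : ℂ)⁻¹ • ∫ w, (z - w)⁻¹ • η w = _
    congr 1
    rw [setIntegral_eq_integral_of_forall_compl_eq_zero]
    intro w hw
    rw [hηK w hw, smul_zero]
  have hΦ : ContinuousOn (fun x : ℂ × ℂ => (x.1 - x.2)⁻¹ • η x.2) (C ×ˢ K) := by
    refine ContinuousOn.smul ?_ (hηc.comp continuous_snd).continuousOn
    refine ContinuousOn.inv₀ (by fun_prop) ?_
    rintro ⟨a, b⟩ ⟨ha, hb⟩ h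
    have : a = b := sub_eq_zero.1 h
    exact hb.2 (hCV (this ▸ ha))
  obtain ⟨s, a, hs, hsum⟩ := riemann_sum (Φ := fun z w => (z - w)⁻¹ • η w) hC hK hΦ
    (ε := π * τ) (by positivity)
  refine ⟨s, fun w => (π : ℂ)⁻¹ • (a w • η w), ?_, ?_⟩
  · intro w hw hwC
    exact (hs w hw).2 (hCV hwC)
  · intro z hz
    have h1 : ∑ w ∈ s, (z - w)⁻¹ • ((π : ℂ)⁻¹ • (a w • η w)) =
        (π : ℂ)⁻¹ • ∑ w ∈ s, a w • ((z - w)⁻¹ • η w) := by
      rw [Finset.smul_sum]
      refine Finset.sum_congr rfl fun w _ => ?_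
      rw [smul_comm ((z - w)⁻¹) ((π : ℂ)⁻¹), smul_comm ((z - w)⁻¹) (a w)]
    rw [h1, hGT z hz, ← smul_sub, norm_smul]
    have h2 : ‖((π : ℂ)⁻¹)‖ = π⁻¹ := by
      rw [norm_inv, Complex.norm_real, Real.norm_of_nonneg Real.pi_pos.le]
    rw [h2]
    have h3 := hsum z hz
    rw [inv_mul_le_iff₀ Real.pi_pos]
    exact h3

end Pool.Agent.W_4d259d_h46.Pl
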