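import Pool.Agent.W_4d259d_h46.PlAnn

/-!
# The annulus lemma, part B (module PL)
-/

noncomputable section

namespace Pool.Agent.W_4d259d_h46.Pl

open MeasureTheory Set Filter Topology Metric
open scoped Real

variable {F : Type*} [NormedAddCommGroup F] [NormedSpace ℂ F]
variable {z0 : ℂ} {r m : ℝ} {y y' : ℂ → F}

theorem ann_isOpen (z0 : ℂ) (r : ℝ) : IsOpen (ann z0 r) := by
  have h1 : Continuous fun z : ℂ => ‖z - z0‖ := (continuous_id.sub continuous_const).norm
  exact (isOpen_lt continuous_const h1).inter (isOpen_lt h1 continuous_const)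

theorem circleIntegrable_kernel (h : AnnHyp z0 r m y) {s : ℝ} (h1 : r / 4 < s) (h2 : s < r)
    {z : ℂ} (hz : ‖z - z0‖ ≠ s) : CircleIntegrable (fun w => (w - z)⁻¹ • y w) z0 s := by
  have hr := h.pos
  refine ContinuousOn.circleIntegrable (by linarith) ?_
  refine ContinuousOn.smul ?_ (h.hol.continuousOn.mono (sphere_sub_ann hr h1 h2))
  refine ContinuousOn.inv₀ (by fun_prop) ?_
  intro w hw h0
  rw [mem_sphere, dist_eq_norm] at hw
  apply hz
  rw [← hw, (sub_eq_zero.1 h0)]

theorem ap_eventuallyEq [CompleteSpace F] (h : AnnHyp z0 r m y) {z : ℂ}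
    (hz : 3 * r / 8 < ‖z - z0‖) (hz' : ‖z - z0‖ < r) :
    ap z0 r y =ᶠ[𝓝 z] fun w => y w - am z0 r y w := by
  have h1 : Continuous fun z : ℂ => ‖z - z0‖ := (continuous_id.sub continuous_const).norm
  have h2 : IsOpen {w : ℂ | 3 * r / 8 < ‖w - z0‖ ∧ ‖w - z0‖ < r} :=
    (isOpen_lt continuous_const h1).inter (isOpen_lt h1 continuous_const)
  filter_upwards [h2.mem_nhds ⟨hz, hz'⟩] with w hw
  rw [ann_split h hw.1 hw.2, add_sub_cancel_right]

/-- `y⁺` is holomorphic on the whole disc. -/
theorem ann_ap_hol [CompleteSpace F] (h : AnnHyp z0 r m y) :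
    DifferentiableOn ℂ (ap z0 r y) (ball z0 r) := by
  have hr := h.pos
  intro z hz
  rw [mem_ball, dist_eq_norm] at hz
  apply DifferentiableAt.differentiableWithinAt
  rcases lt_or_ge ‖z - z0‖ (3 * r / 4) with h1 | h1
  · -- inside: a Cauchy integral
    let R : NNReal := ⟨3 * r / 4, by linarith⟩
    have hR : ((R : NNReal) : ℝ) = 3 * r / 4 := rfl
    have hci : CircleIntegrable y z0 R := by
      rw [hR]
      exact ContinuousOn.circleIntegrable (by linarith)
        (h.hol.continuousOn.mono (sphere_sub_ann hr (by linarith) (by linarith)))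
    have hps := hasFPowerSeriesOn_cauchy_integral hci (by
      rw [← NNReal.coe_pos, hR]; linarith)
    have hmem : z ∈ Metric.eball z0 (R : ENNReal) := by
      rw [Metric.eball_coe, mem_ball, dist_eq_norm, hR]
      exact h1
    have hd := (hps.analyticAt_of_mem hmem).differentiableAt
    refine hd.congr_of_eventuallyEq ?_
    have h2 : Continuous fun z : ℂ => ‖z - z0‖ := (continuous_id.sub continuous_const).norm
    filter_upwards [(isOpen_lt h2 continuous_const).mem_nhds h1] with w hw
    have hw' : ‖w - z0‖ < 3 * r / 4 := hw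
    rw [ap, if_pos hw', hR]
  · have h2 : 3 * r / 8 < ‖z - z0‖ := by linarith
    refine DifferentiableAt.congr_of_eventuallyEq ?_ (ap_eventuallyEq h h2 hz)
    have h3 : Continuous fun z : ℂ => ‖z - z0‖ := (continuous_id.sub continuous_const).norm
    refine DifferentiableAt.sub ?_ ?_
    · exact h.hol.differentiableAt ((ann_isOpen z0 r).mem_nhds ⟨by linarith, hz⟩)
    · exact (ann_am_hol h).differentiableAt ((isOpen_lt continuous_const h3).mem_nhds h2)

/-- `|y⁺| ≤ 5 m` on the disc: near the boundary `y⁺ = y - y⁻`, inside by the maximum principle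
(`Complex.norm_le_of_forall_mem_frontier_norm_le` on the discs `ball z0 s`, `s < r`). -/
theorem ann_ap_le [CompleteSpace F] (h : AnnHyp z0 r m y) {z : ℂ} (hz : z ∈ ball z0 r) :
    ‖ap z0 r y z‖ ≤ 5 * m := by
  have hr := h.pos
  have hm := h.m_nonneg
  have key : ∀ z : ℂ, r / 2 ≤ ‖z - z0‖ → ‖z - z0‖ < r → ‖ap z0 r y z‖ ≤ 5 * m := by
    intro z h1 h2
    have e : ap z0 r y z = y z - am z0 r y z := by
      rw [ann_split h (by linarith) h2, add_sub_cancel_right]
    have h3 : ‖am z0 r y z‖ ≤ 4 * m := by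
      refine (ann_am_le h h1).trans ?_
      rw [div_le_iff₀ (by linarith)]
      have := mul_le_mul_of_nonneg_left h1 (show (0 : ℝ) ≤ 4 * m by linarith)
      linarith
    have h4 : ‖y z‖ ≤ m := h.le z ⟨by linarith, h2⟩
    rw [e]
    exact (norm_sub_le _ _).trans (by linarith)
  rw [mem_ball, dist_eq_norm] at hz
  rcases le_or_gt (r / 2) ‖z - z0‖ with h1 | h1
  · exact key z h1 hz
  · have hs : (r / 2 : ℝ) ≠ 0 := by linarith
    have hd : DiffContOnCl ℂ (ap z0 r y) (ball z0 (r / 2)) := by
      refine DifferentiableOn.diffContOnCl ?_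
      rw [closure_ball z0 hs]
      refine (ann_ap_hol h).mono ?_
      intro w hw
      rw [mem_closedBall] at hw
      rw [mem_ball]
      linarith
    refine Complex.norm_le_of_forall_mem_frontier_norm_le isBounded_ball hd ?_
      (subset_closure (show z ∈ ball z0 (r / 2) by rw [mem_ball, dist_eq_norm]; exact h1))
    intro w hw
    rw [frontier_ball z0 hs, mem_sphere, dist_eq_norm] at hw
    exact key w hw.ge (by rw [hw]; linarith)

/-- linearity of `y ↦ y⁻` (integrability on the circle: `y` is continuous there). -/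
theorem ann_am_sub {m' : ℝ} (h : AnnHyp z0 r m y) (h' : AnnHyp z0 r m' y') {z : ℂ}
    (hz : 3 * r / 8 < ‖z - z0‖) :
    am z0 r (fun w => y w - y' w) z = am z0 r y z - am z0 r y' z := by
  have hr := h.pos
  unfold am
  simp only [smul_sub]
  rw [circleIntegral.integral_sub
    (circleIntegrable_kernel h (by linarith) (by linarith) hz.ne')
    (circleIntegrable_kernel h' (by linarith) (by linarith) hz.ne'), smul_sub]
  abel

/-- linearity of `y ↦ y⁺`. -/
theorem ann_ap_sub {m' : ℝ} (h : AnnHyp z0 r m y) (h' : AnnHyp z0 r m' y') {z : ℂ}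
    (hz : z ∈ ball z0 r) :
    ap z0 r (fun w => y w - y' w) z = ap z0 r y z - ap z0 r y' z := by
  have hr := h.pos
  unfold ap
  rcases lt_or_ge ‖z - z0‖ (3 * r / 4) with h1 | h1
  · rw [if_pos h1, if_pos h1, if_pos h1]
    simp only [smul_sub]
    rw [circleIntegral.integral_sub
      (circleIntegrable_kernel h (by linarith) (by linarith) h1.ne)
      (circleIntegrable_kernel h' (by linarith) (by linarith) h1.ne), smul_sub]
  · rw [if_neg h1.not_gt, if_neg h1.not_gt, if_neg h1.not_gt, ann_am_sub h h' (by linarith)]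
    exact sub_sub_sub_comm _ _ _ _

/-- The principal part only depends on the values of `y` on the annulus. -/
theorem ann_am_congr (hr : 0 < r) (h : ∀ z ∈ ann z0 r, y z = y' z) (z : ℂ) :
    am z0 r y z = am z0 r y' z := by
  unfold am
  rw [circleIntegral.integral_congr (by linarith)
    (fun w hw => by
      show (w - z)⁻¹ • y w = (w - z)⁻¹ • y' w
      rw [h w (sphere_sub_ann hr (by linarith) (by linarith) hw)])]

theorem ann_ap_congr (hr : 0 < r) (h : ∀ z ∈ ann z0 r, y z = y' z) {z : ℂ}
    (hz : z ∈ ball z0 r) : ap z0 r y z = ap z0 r y' z := by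
  unfold ap
  rcases lt_or_ge ‖z - z0‖ (3 * r / 4) with h1 | h1
  · rw [if_pos h1, if_pos h1]
    rw [circleIntegral.integral_congr (by linarith)
      (fun w hw => by
        show (w - z)⁻¹ • y w = (w - z)⁻¹ • y' w
        rw [h w (sphere_sub_ann hr (by linarith) (by linarith) hw)])]
  · rw [if_neg h1.not_gt, if_neg h1.not_gt, ann_am_congr hr h z]
    rw [mem_ball, dist_eq_norm] at hz
    rw [h z ⟨by linarith, hz⟩]

end Pool.Agent.W_4d259d_h46.Pl
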