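import Mathlib

/-!
# MP_4d259d_ag: definitions (Oka-1 manifolds, rationally connected manifolds)

Word for word the notions of the problem file.

* Target manifold: `E` a finite-dimensional complex normed space, `X` a metric space (the metric
  is the complete distance function `d_X` of the problem) with an analytic atlas modelled on `E`.
* Source: an open Riemann surface `R` (connected, Hausdorff, second countable, noncompact
  one-dimensional complex manifold).
-/

noncomputable section

namespace Pool.Agent.W_4d259d_h46.Defs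

open Set Filter Topology Manifold
open scoped ContDiff OnePoint

/-- Holomorphic on the set `U` (used for open `U`), for maps from a one-dimensional complex
manifold `R` to a complex manifold `X` modelled on `E`. -/
def HolOn {R : Type*} [TopologicalSpace R] [ChartedSpace ℂ R]
    (E : Type*) [NormedAddCommGroup E] [NormedSpace ℂ E]
    {X : Type*} [TopologicalSpace X] [ChartedSpace E X] (f : R → X) (U : Set R) : Prop :=
  MDifferentiableOn (modelWithCornersSelf ℂ ℂ) (modelWithCornersSelf ℂ E) f U

/-- The chart of the Riemann sphere `ℂ ∪ {∞}` at infinity: `w ↦ 1/w`, `0 ↦ ∞`. -/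
def chartInf (w : ℂ) : OnePoint ℂ := if w = 0 then ∞ else ((w⁻¹ : ℂ) : OnePoint ℂ)

/-- `u : ℙ¹ → X` is holomorphic, `ℙ¹ = ℂ ∪ {∞}` being the Riemann sphere: it is holomorphic in the
chart `z ↦ z` and in the chart `w ↦ 1/w` (with `0 ↦ ∞`). -/
structure IsRatCurve (E : Type*) [NormedAddCommGroup E] [NormedSpace ℂ E]
    {X : Type*} [TopologicalSpace X] [ChartedSpace E X] (u : OnePoint ℂ → X) : Prop where
  hol0 : HolOn E (fun z : ℂ => u (z : OnePoint ℂ)) univ
  holInf : HolOn E (fun w : ℂ => u (chartInf w)) univ

/-- Rationally connected in the sense of the problem: any two points of `X` lie on the image of a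
single holomorphic map `ℙ¹ → X`. -/
def RatConn (E : Type*) [NormedAddCommGroup E] [NormedSpace ℂ E]
    (X : Type*) [TopologicalSpace X] [ChartedSpace E X] : Prop :=
  ∀ x y : X, ∃ u : OnePoint ℂ → X, IsRatCurve E u ∧ x ∈ range u ∧ y ∈ range u

/-- `K` is Runge in `R`: no connected component of `R ∖ K` is relatively compact. -/
def IsRunge {R : Type*} [TopologicalSpace R] (K : Set R) : Prop :=
  ∀ x ∈ Kᶜ, ¬ IsCompact (closure (connectedComponentIn Kᶜ x))

/-- `F` and `f` agree to order `k` at `a`: `F a = f a` and, in the charts at `a` and `f a`,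
`F - f = O(|z - a|^(k+1))`. -/
def JetEq {R : Type*} [TopologicalSpace R] [ChartedSpace ℂ R]
    (E : Type*) [NormedAddCommGroup E] [NormedSpace ℂ E]
    {X : Type*} [TopologicalSpace X] [ChartedSpace E X]
    (k : ℕ) (F f : R → X) (a : R) : Prop :=
  F a = f a ∧
    (fun z : R => extChartAt (modelWithCornersSelf ℂ E) (f a) (F z)
        - extChartAt (modelWithCornersSelf ℂ E) (f a) (f z)) =O[𝓝 a]
      fun z : R => ‖extChartAt (modelWithCornersSelf ℂ ℂ) a z
        - extChartAt (modelWithCornersSelf ℂ ℂ) a a‖ ^ (k + 1)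

/-- The conditions of the definition of Oka-1 for one given source `R`.  The sequence `a` is closed
and discrete: every compact set contains `a i` for finitely many `i` only. -/
def OkaOneOn (R : Type*) [TopologicalSpace R] [ChartedSpace ℂ R]
    (E : Type*) [NormedAddCommGroup E] [NormedSpace ℂ E]
    (X : Type*) [MetricSpace X] [ChartedSpace E X] : Prop :=
  ∀ K : Set R, IsCompact K → IsRunge K →
  ∀ a : ℕ → R, Tendsto a cofinite (cocompact R) →
  ∀ k : ℕ → ℕ,
  ∀ f : C(R, X), ∀ U : Set R, IsOpen U → K ⊆ U → (∀ i, a i ∈ U) → HolOn E f U →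
  ∀ ε : ℝ, 0 < ε →
    ∃ F : C(R, X), HolOn E F univ ∧ F.Homotopic f ∧ (∀ p ∈ K, dist (F p) (f p) < ε) ∧
      ∀ i, JetEq E (k i) F f (a i)

/-- `X` is Oka-1. -/
def IsOkaOne (E : Type*) [NormedAddCommGroup E] [NormedSpace ℂ E]
    (X : Type*) [MetricSpace X] [ChartedSpace E X] : Prop :=
  ∀ (R : Type) [TopologicalSpace R] [T2Space R] [ConnectedSpace R] [NoncompactSpace R]
    [SecondCountableTopology R] [ChartedSpace ℂ R] [IsManifold (modelWithCornersSelf ℂ ℂ) ω R],
    OkaOneOn R E X

/-- The final target. -/
def Target : Prop :=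
  ∀ (E : Type) [NormedAddCommGroup E] [NormedSpace ℂ E] [FiniteDimensional ℂ E]
    (X : Type) [MetricSpace X] [CompleteSpace X] [SecondCountableTopology X] [ConnectedSpace X]
    [ChartedSpace E X] [IsManifold (modelWithCornersSelf ℂ E) ω X],
    RatConn E X → IsOkaOne E X

/-! ### Sanity lemmas -/

section sanity

variable {E : Type*} [NormedAddCommGroup E] [NormedSpace ℂ E]
variable {X : Type*} [TopologicalSpace X] [ChartedSpace E X]

/-- For injective sequences in a locally compact Hausdorff space, the condition on `a` means: the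
set of the `a i` is closed and discrete. -/
theorem tendsto_iff_closed_discrete {R : Type*} [TopologicalSpace R] [T2Space R]
    [LocallyCompactSpace R] (a : ℕ → R) (ha : Function.Injective a) :
    Tendsto a cofinite (cocompact R) ↔ IsClosed (range a) ∧ IsDiscrete (range a) := by
  constructor
  · intro h
    rw [isClosed_and_discrete_iff]
    intro x
    obtain ⟨K, hK, hxK⟩ := exists_compact_mem_nhds x
    have hfin : (a ⁻¹' K).Finite := (tendsto_cofinite_cocompact_iff.mp h) K hK
    have hT : ((a '' (a ⁻¹' K)) \ {x}).Finite := (hfin.image a).subset sdiff_subset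
    rw [disjoint_principal_right, mem_nhdsWithin_iff_exists_mem_nhds_inter]
    refine ⟨K ∩ ((a '' (a ⁻¹' K)) \ {x})ᶜ, inter_mem hxK
      (hT.isClosed.isOpen_compl.mem_nhds (by simp)), ?_⟩
    rintro y ⟨⟨hyK, hyT⟩, hyx⟩ ⟨i, rfl⟩
    exact hyT ⟨⟨i, hyK, rfl⟩, hyx⟩
  · rintro ⟨h1, h2⟩
    have h3 : Tendsto ((↑) : range a → R) cofinite (cocompact R) :=
      h1.tendsto_coe_cofinite_of_isDiscrete h2
    have h4 : Tendsto (rangeFactorization a) cofinite cofinite :=
      Function.Injective.tendsto_cofinite (fun i j h => ha (by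
        have := congrArg Subtype.val h
        simpa using this))
    exact h3.comp h4

/-- A rational curve is the same as a pair `u0, uinf : ℂ → X` of holomorphic maps with
`uinf (1/t) = u0 t` for `t ≠ 0`. -/
theorem ratConn_iff_pair :
    RatConn E X ↔ ∀ x y : X, ∃ u0 uinf : ℂ → X, HolOn E u0 univ ∧ HolOn E uinf univ ∧
      (∀ t : ℂ, t ≠ 0 → uinf t⁻¹ = u0 t) ∧
      (x ∈ insert (uinf 0) (range u0)) ∧ (y ∈ insert (uinf 0) (range u0)) := by
  constructor
  · intro h x y
    obtain ⟨u, hu, hx, hy⟩ := h x y
    have hr : range u ⊆ insert (u (chartInf 0)) (range fun z : ℂ => u (z : OnePoint ℂ)) := by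
      rintro _ ⟨p, rfl⟩
      induction p using OnePoint.rec with
      | infty => left; simp [chartInf]
      | coe z => right; exact ⟨z, rfl⟩
    refine ⟨fun z : ℂ => u z, fun w => u (chartInf w), hu.hol0, hu.holInf, ?_, hr hx, hr hy⟩
    intro t ht
    simp [chartInf, ht]
  · intro h x y
    obtain ⟨u0, u1, h0, h1, h01, hx, hy⟩ := h x y
    have hr : insert (u1 0) (range u0) ⊆
        range (fun p : OnePoint ℂ => OnePoint.elim p (u1 0) u0) := by
      rintro q (rfl | ⟨z, rfl⟩)
      · exact ⟨∞, rfl⟩
      · exact ⟨(z : OnePoint ℂ), rfl⟩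
    refine ⟨fun p => OnePoint.elim p (u1 0) u0, ⟨h0, ?_⟩, hr hx, hr hy⟩
    have he : (fun w : ℂ => OnePoint.elim (chartInf w) (u1 0) u0) = u1 := by
      funext w
      by_cases hw : w = 0
      · subst hw
        simp only [chartInf, if_true]
        rfl
      · simp only [chartInf, if_neg hw]
        have := h01 w⁻¹ (inv_ne_zero hw)
        rw [inv_inv] at this
        exact this.symm
    rw [he]
    exact h1

end sanity

end Pool.Agent.W_4d259d_h46.Defs
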