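import Pool.Agent.W_4d259d_h46.Defs

/-!
# Bounded holomorphic functions `HB U F` on an open set `U` of a one-dimensional complex manifold

`HB U F` is a closed subspace of the bounded continuous functions on the subtype `U`, so a Banach
space.  Elements are used through `y.fn : R → F` (zero off `U`).
-/

noncomputable section

namespace Pool.Agent.W_4d259d_h46

open Set Filter Topology Manifold TopologicalSpace
open scoped ContDiff BoundedContinuousFunction
open Pool.Agent.W_4d259d_h46.Defs

variable {R : Type*} [TopologicalSpace R] [ChartedSpace ℂ R]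
variable {F : Type*} [NormedAddCommGroup F] [NormedSpace ℂ F]

/-- Extension by zero. -/
def ext0 {U : Set R} (f : U → F) (z : R) : F :=
  open Classical in if h : z ∈ U then f ⟨z, h⟩ else 0

theorem ext0_of_mem {U : Set R} (f : U → F) {z : R} (h : z ∈ U) : ext0 f z = f ⟨z, h⟩ := by
  simp [ext0, h]

theorem ext0_of_not_mem {U : Set R} (f : U → F) {z : R} (h : z ∉ U) : ext0 f z = 0 := by
  simp [ext0, h]

theorem HolOn.congr' {f g : R → F} {U : Set R} (hf : HolOn F f U) (h : ∀ z ∈ U, g z = f z) :
    HolOn F g U := MDifferentiableOn.congr hf h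

theorem holOn_add {f g : R → F} {U : Set R} (hf : HolOn F f U) (hg : HolOn F g U) :
    HolOn F (fun z => f z + g z) U := MDifferentiableOn.add hf hg

theorem holOn_const_smul {f : R → F} {U : Set R} (c : ℂ) (hf : HolOn F f U) :
    HolOn F (fun z => c • f z) U := MDifferentiableOn.const_smul c hf

theorem holOn_const (c : F) (U : Set R) : HolOn F (fun _ : R => c) U :=
  mdifferentiableOn_const

/-- In `ℂ` holomorphic means complex differentiable. -/
theorem holOn_iff {f : ℂ → F} {U : Set ℂ} : HolOn F f U ↔ DifferentiableOn ℂ f U :=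
  mdifferentiableOn_iff_differentiableOn

/-- Holomorphy in charts. -/
theorem holOn_iff_chart [IsManifold (modelWithCornersSelf ℂ ℂ) ω R] {f : R → F} {U : Set R} :
    HolOn F f U ↔ ContinuousOn f U ∧ ∀ x : R, DifferentiableOn ℂ (f ∘ (chartAt ℂ x).symm)
      ((chartAt ℂ x).target ∩ (chartAt ℂ x).symm ⁻¹' U) := by
  haveI : IsManifold (modelWithCornersSelf ℂ ℂ) 1 R := IsManifold.of_le (n := ω) le_top
  rw [HolOn, mdifferentiableOn_iff]
  refine and_congr_right fun _ => ?_
  constructor
  · intro h x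
    have := h x 0
    simpa using this
  · intro h x y
    have := h x
    simpa using this

/-- Locally uniform limits of holomorphic maps into `F` are holomorphic. -/
theorem holOn_of_tendstoLocallyUniformlyOn [CompleteSpace F]
    [IsManifold (modelWithCornersSelf ℂ ℂ) ω R] {f : R → F} {g : ℕ → R → F} {U : Set R}
    (hU : IsOpen U) (hg : ∀ i, HolOn F (g i) U) (h : TendstoLocallyUniformlyOn g f atTop U) :
    HolOn F f U := by
  rw [holOn_iff_chart]
  refine ⟨h.continuousOn (Frequently.of_forall fun i => (hg i).continuousOn), fun x => ?_⟩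
  have h1 : TendstoLocallyUniformlyOn (fun i => g i ∘ (chartAt ℂ x).symm)
      (f ∘ (chartAt ℂ x).symm) atTop ((chartAt ℂ x).target ∩ (chartAt ℂ x).symm ⁻¹' U) :=
    h.comp _ (fun z hz => hz.2) ((chartAt ℂ x).continuousOn_symm.mono inter_subset_left)
  refine h1.differentiableOn (Eventually.of_forall fun i => ((holOn_iff_chart.1 (hg i)).2 x))
    ((chartAt ℂ x).isOpen_inter_preimage_symm hU)

/-- Bounded holomorphic functions on `U`, as a submodule of the bounded continuous functions. -/
def HBs (U : Opens R) (F : Type*) [NormedAddCommGroup F] [NormedSpace ℂ F] :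
    Submodule ℂ (BoundedContinuousFunction U F) where
  carrier := {f | HolOn F (ext0 (U := (U : Set R)) f) U}
  add_mem' := by
    intro f g hf hg
    refine HolOn.congr' (holOn_add hf hg) fun z hz => ?_
    rw [ext0_of_mem _ hz, ext0_of_mem _ hz, ext0_of_mem _ hz]
    rfl
  zero_mem' := by
    refine HolOn.congr' (holOn_const 0 _) fun z hz => ?_
    rw [ext0_of_mem _ hz]
    rfl
  smul_mem' := by
    intro c f hf
    refine HolOn.congr' (holOn_const_smul c hf) fun z hz => ?_
    rw [ext0_of_mem _ hz, ext0_of_mem _ hz]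
    rfl

/-- The Banach space of bounded holomorphic functions on `U`. -/
abbrev HB (U : Opens R) (F : Type*) [NormedAddCommGroup F] [NormedSpace ℂ F] : Type _ :=
  ↥(HBs U F)

namespace HB

variable {U : Opens R}

/-- The function, extended by zero. -/
def fn (y : HB U F) : R → F := ext0 (U := (U : Set R)) y.1

theorem fn_hol (y : HB U F) : HolOn F y.fn U := y.2

theorem fn_of_mem (y : HB U F) {z : R} (h : z ∈ U) : y.fn z = y.1 ⟨z, h⟩ := ext0_of_mem _ h

theorem fn_off (y : HB U F) {z : R} (h : z ∉ U) : y.fn z = 0 := ext0_of_not_mem _ h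

theorem fn_le (y : HB U F) (z : R) : ‖y.fn z‖ ≤ ‖y‖ := by
  by_cases h : z ∈ U
  · rw [fn_of_mem y h]
    exact y.1.norm_coe_le_norm _
  · rw [fn_off y h, norm_zero]
    exact norm_nonneg _

theorem fn_add (y y' : HB U F) (z : R) : (y + y').fn z = y.fn z + y'.fn z := by
  by_cases h : z ∈ U
  · rw [fn_of_mem _ h, fn_of_mem _ h, fn_of_mem _ h]; rfl
  · rw [fn_off _ h, fn_off _ h, fn_off _ h, add_zero]

theorem fn_sub (y y' : HB U F) (z : R) : (y - y').fn z = y.fn z - y'.fn z := by
  by_cases h : z ∈ U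
  · rw [fn_of_mem _ h, fn_of_mem _ h, fn_of_mem _ h]; rfl
  · rw [fn_off _ h, fn_off _ h, fn_off _ h, sub_zero]

theorem fn_neg (y : HB U F) (z : R) : (-y).fn z = - y.fn z := by
  by_cases h : z ∈ U
  · rw [fn_of_mem _ h, fn_of_mem _ h]; rfl
  · rw [fn_off _ h, fn_off _ h, neg_zero]

theorem fn_smul (c : ℂ) (y : HB U F) (z : R) : (c • y).fn z = c • y.fn z := by
  by_cases h : z ∈ U
  · rw [fn_of_mem _ h, fn_of_mem _ h]; rfl
  · rw [fn_off _ h, fn_off _ h, smul_zero]

theorem fn_zero (z : R) : (0 : HB U F).fn z = 0 := by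
  by_cases h : z ∈ U
  · rw [fn_of_mem _ h]; rfl
  · rw [fn_off _ h]

theorem ext' {y y' : HB U F} (h : ∀ z ∈ U, y.fn z = y'.fn z) : y = y' := by
  apply Subtype.ext
  ext ⟨z, hz⟩
  have := h z hz
  rwa [fn_of_mem _ hz, fn_of_mem _ hz] at this

theorem norm_le_of {y : HB U F} {C : ℝ} (hC : 0 ≤ C) (h : ∀ z ∈ U, ‖y.fn z‖ ≤ C) : ‖y‖ ≤ C := by
  refine (BoundedContinuousFunction.norm_le (f := y.1) hC).2 ?_
  rintro ⟨z, hz⟩
  have := h z hz
  rwa [fn_of_mem _ hz] at this

/-- Build an element of `HB U F` from a function which is holomorphic and bounded on `U`. -/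
def mk (f : R → F) (hf : HolOn F f U) (C : ℝ) (hC : ∀ z ∈ U, ‖f z‖ ≤ C) : HB U F :=
  ⟨BoundedContinuousFunction.ofNormedAddCommGroup (fun z : U => f z)
      (by
        have := hf.continuousOn
        exact continuousOn_iff_continuous_domRestrict.1 this) C (fun z => hC z z.2), by
    refine HolOn.congr' hf fun z hz => ?_
    rw [ext0_of_mem _ hz]
    rfl⟩

theorem mk_fn (f : R → F) (hf : HolOn F f U) (C : ℝ) (hC : ∀ z ∈ U, ‖f z‖ ≤ C) {z : R}
    (hz : z ∈ U) : (mk f hf C hC).fn z = f z := by
  rw [fn_of_mem _ hz]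
  rfl

theorem isClosed [CompleteSpace F] [IsManifold (modelWithCornersSelf ℂ ℂ) ω R] :
    IsClosed ((HBs U F : Submodule ℂ (BoundedContinuousFunction U F)) :
      Set (BoundedContinuousFunction U F)) := by
  rw [isClosed_iff_clusterPt]
  intro f hf
  rw [← mem_closure_iff_clusterPt, mem_closure_iff_seq_limit] at hf
  obtain ⟨y, hy, hlim⟩ := hf
  refine holOn_of_tendstoLocallyUniformlyOn (g := fun i => ext0 (U := (U : Set R)) (y i)) U.2
    (fun i => hy i) ?_
  apply TendstoUniformlyOn.tendstoLocallyUniformlyOn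
  rw [Metric.tendstoUniformlyOn_iff]
  intro ε hε
  have h2 := BoundedContinuousFunction.tendsto_iff_tendstoUniformly.1 hlim
  rw [Metric.tendstoUniformly_iff] at h2
  filter_upwards [h2 ε hε] with i hi z hz
  rw [ext0_of_mem _ hz, ext0_of_mem _ hz]
  exact hi ⟨z, hz⟩

instance [CompleteSpace F] [IsManifold (modelWithCornersSelf ℂ ℂ) ω R] : CompleteSpace (HB U F) :=
  (isClosed (U := U) (F := F)).completeSpace_coe

/-- Restriction to a smaller open set. -/
def res {V : Opens R} (h : V ≤ U) (y : HB U F) : HB V F :=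
  mk y.fn (y.fn_hol.mono h) ‖y‖ fun z _ => y.fn_le z

theorem res_fn {V : Opens R} (h : V ≤ U) (y : HB U F) {z : R} (hz : z ∈ V) :
    (res h y).fn z = y.fn z := mk_fn _ _ _ _ hz

end HB

end Pool.Agent.W_4d259d_h46
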