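import Mathlib

/-!
# Planar kernel estimates (module PL, file A)
-/

noncomputable section

namespace Pool.Agent.W_4d259d_h46.Pl

open MeasureTheory Set Filter Topology Metric
open scoped Real ENNReal

theorem setIntegral_ball_norm (f : ℝ → ℝ) (r : ℝ) :
    ∫ w in ball (0 : ℂ) r, f ‖w‖ = 2 * π * ∫ y in Ioo (0 : ℝ) r, y * f y := by
  have h1 : ∫ w in ball (0 : ℂ) r, f ‖w‖ = ∫ w : ℂ, (indicator (Iio r) f) ‖w‖ := by
    rw [← integral_indicator measurableSet_ball]
    refine integral_congr_ae (Eventually.of_forall fun w => ?_)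
    by_cases hw : ‖w‖ < r
    · have : w ∈ ball (0 : ℂ) r := by simpa using hw
      simp [hw]
    · have : w ∉ ball (0 : ℂ) r := by simpa using hw
      simp only [indicator_of_notMem this]
      have h2 : ‖w‖ ∉ Iio r := hw
      simp only [indicator_of_notMem h2]
  rw [h1, integral_fun_norm_addHaar]
  have h2 : ∫ y in Ioi (0 : ℝ), y ^ (Module.finrank ℝ ℂ - 1) • (indicator (Iio r) f) y
      = ∫ y in Ioo (0 : ℝ) r, y * f y := by
    have h3 : Ioo (0 : ℝ) r = Ioi 0 ∩ Iio r := by ext; simp
    rw [h3, ← setIntegral_indicator measurableSet_Iio]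
    refine setIntegral_congr_fun measurableSet_Ioi fun y hy => ?_
    by_cases hy' : y < r
    · have : y ∈ Iio r := hy'
      simp [indicator_of_mem this]
    · have : y ∉ Iio r := hy'
      simp [indicator_of_notMem this]
  rw [h2]
  have h4 : (volume : Measure ℂ).real (ball 0 1) = π := by
    simp [Measure.real, Complex.volume_ball]
  rw [h4]
  simp
  ring

/-- `1/|w|` is integrable on balls, with integral `2 π r`.
Proof: `MeasureTheory.Measure` polar coordinates, e.g. `integral_fun_norm_addHaar` and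
`integrable_fun_norm_addHaar` for the function `1_{|w| < r} / |w|` on `ℂ` (real dimension 2,
`volume (ball 0 1) = π`), or `Complex.polarCoord`. -/
theorem integral_inv_ball (r : ℝ) (hr : 0 ≤ r) :
    IntegrableOn (fun w : ℂ => ‖w‖⁻¹) (ball 0 r) ∧ ∫ w in ball (0 : ℂ) r, ‖w‖⁻¹ = 2 * π * r := by
  constructor
  · refine (integrableOn_fun_norm_addHaar volume (f := fun y : ℝ => y⁻¹)).2 ?_
    refine IntegrableOn.congr_fun (f := fun _ => (1 : ℝ)) ?_ ?_ measurableSet_Ioo
    · exact integrableOn_const (by simp) (by simp)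
    · intro y hy
      have : y ≠ 0 := hy.1.ne'
      simp [this]
  · rw [setIntegral_ball_norm (fun y => y⁻¹) r]
    have h : ∫ y in Ioo (0 : ℝ) r, y * y⁻¹ = ∫ y in Ioo (0 : ℝ) r, (1 : ℝ) := by
      refine setIntegral_congr_fun measurableSet_Ioo fun y hy => ?_
      have : y ≠ 0 := hy.1.ne'
      simp [this]
    rw [h]
    simp [hr]

/-- `|w|^(-3/2)` is integrable on the unit ball, with integral `4 π`. -/
theorem integral_inv32_ball :
    IntegrableOn (fun w : ℂ => ‖w‖ ^ (-(3 / 2) : ℝ)) (ball 0 1) ∧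
      ∫ w in ball (0 : ℂ) 1, ‖w‖ ^ (-(3 / 2) : ℝ) = 4 * π := by
  have key : ∀ y ∈ Ioo (0 : ℝ) 1, y * y ^ (-(3 / 2) : ℝ) = y ^ (-(1 / 2) : ℝ) := by
    intro y hy
    have : y * y ^ (-(3 / 2) : ℝ) = y ^ (1 : ℝ) * y ^ (-(3 / 2) : ℝ) := by rw [Real.rpow_one]
    rw [this, ← Real.rpow_add hy.1]
    norm_num
  constructor
  · refine (integrableOn_fun_norm_addHaar volume (f := fun y : ℝ => y ^ (-(3 / 2) : ℝ))).2 ?_
    refine IntegrableOn.congr_fun (f := fun y => y ^ (-(1 / 2) : ℝ)) ?_ ?_ measurableSet_Ioo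
    · have := (intervalIntegral.intervalIntegrable_rpow' (a := 0) (b := 1) (r := -(1 / 2))
        (by norm_num))
      rw [intervalIntegrable_iff_integrableOn_Ioo_of_le (by norm_num)] at this
      exact this
    · intro y hy
      simpa using (key y hy).symm
  · rw [setIntegral_ball_norm (fun y => y ^ (-(3 / 2) : ℝ)) 1,
      setIntegral_congr_fun measurableSet_Ioo key,
      ← integral_Ioc_eq_integral_Ioo, ← intervalIntegral.integral_of_le (by norm_num),
      integral_rpow (Or.inl (by norm_num))]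
    norm_num
    ring

/-- The Cauchy kernel is integrable on balls around the pole. -/
theorem integrableOn_inv_ball (z : ℂ) (r : ℝ) (hr : 0 ≤ r) :
    IntegrableOn (fun w : ℂ => ‖z - w‖⁻¹) (ball z r) ∧
      ∫ w in ball z r, ‖z - w‖⁻¹ = 2 * π * r := by
  have hmp : MeasurePreserving (fun w : ℂ => z - w) volume volume :=
    Measure.measurePreserving_sub_left volume z
  have hemb : MeasurableEmbedding (fun w : ℂ => z - w) :=
    (MeasurableEquiv.subLeft z).measurableEmbedding
  have hpre : (fun w : ℂ => z - w) ⁻¹' ball 0 r = ball z r := by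
    ext w
    simp [dist_eq_norm, norm_sub_rev]
  obtain ⟨h1, h2⟩ := integral_inv_ball r hr
  constructor
  · rw [← hpre]
    exact (hmp.integrableOn_comp_preimage hemb).2 h1
  · rw [← hpre, ← h2]
    exact hmp.setIntegral_preimage_emb hemb (fun w => ‖w‖⁻¹) _

theorem integrableOn_inv32_ball (z : ℂ) :
    IntegrableOn (fun w : ℂ => ‖z - w‖ ^ (-(3 / 2) : ℝ)) (ball z 1) ∧
      ∫ w in ball z 1, ‖z - w‖ ^ (-(3 / 2) : ℝ) = 4 * π := by
  have hmp : MeasurePreserving (fun w : ℂ => z - w) volume volume :=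
    Measure.measurePreserving_sub_left volume z
  have hemb : MeasurableEmbedding (fun w : ℂ => z - w) :=
    (MeasurableEquiv.subLeft z).measurableEmbedding
  have hpre : (fun w : ℂ => z - w) ⁻¹' ball 0 1 = ball z 1 := by
    ext w
    simp [dist_eq_norm, norm_sub_rev]
  obtain ⟨h1, h2⟩ := integral_inv32_ball
  constructor
  · rw [← hpre]
    exact (hmp.integrableOn_comp_preimage hemb).2 h1
  · rw [← hpre, ← h2]
    exact hmp.setIntegral_preimage_emb hemb (fun w => ‖w‖ ^ (-(3 / 2) : ℝ)) _

/-- integrability away from the pole -/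
theorem integrableOn_inv_diff (z : ℂ) {S : Set ℂ} (hS : MeasurableSet S) (hfin : volume S ≠ ∞)
    {ρ : ℝ} (hρ : 0 < ρ) :
    IntegrableOn (fun w : ℂ => ‖z - w‖⁻¹) (S \ ball z ρ) := by
  have hSd : MeasurableSet (S \ ball z ρ) := hS.diff measurableSet_ball
  refine Measure.integrableOn_of_bounded (M := ρ⁻¹) (ne_top_of_le_ne_top hfin
    (measure_mono sdiff_subset)) ?_ ?_
  · exact (by fun_prop : Measurable fun w : ℂ => ‖z - w‖⁻¹).aestronglyMeasurable
  · refine (ae_restrict_iff' hSd).2 (Eventually.of_forall fun w hw => ?_)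
    have : ρ ≤ ‖z - w‖ := by
      have := hw.2
      rw [mem_ball, not_lt, dist_comm, dist_eq_norm] at this
      exact this
    rw [norm_inv, norm_norm]
    exact inv_anti₀ hρ this

theorem integrableOn_inv32_diff (z : ℂ) {S : Set ℂ} (hS : MeasurableSet S)
    (hfin : volume S ≠ ∞) :
    IntegrableOn (fun w : ℂ => ‖z - w‖ ^ (-(3 / 2) : ℝ)) (S \ ball z 1) := by
  have hSd : MeasurableSet (S \ ball z 1) := hS.diff measurableSet_ball
  refine Measure.integrableOn_of_bounded (M := 1) (ne_top_of_le_ne_top hfin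
    (measure_mono sdiff_subset)) ?_ ?_
  · exact (by fun_prop : Measurable fun w : ℂ => ‖z - w‖ ^ (-(3 / 2) : ℝ)).aestronglyMeasurable
  · refine (ae_restrict_iff' hSd).2 (Eventually.of_forall fun w hw => ?_)
    have : 1 ≤ ‖z - w‖ := by
      have := hw.2
      rw [mem_ball, not_lt, dist_comm, dist_eq_norm] at this
      exact this
    rw [Real.norm_of_nonneg (by positivity)]
    exact Real.rpow_le_one_of_one_le_of_nonpos this (by norm_num)

/-- The Cauchy kernel is integrable on sets of finite measure. -/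
theorem integrableOn_inv (z : ℂ) {S : Set ℂ} (hS : MeasurableSet S) (hfin : volume S ≠ ∞) :
    IntegrableOn (fun w : ℂ => ‖z - w‖⁻¹) S := by
  have h := ((integrableOn_inv_ball z 1 zero_le_one).1.mono_set
    (inter_subset_right (s := S))).union (integrableOn_inv_diff z hS hfin one_pos)
  rwa [inter_union_sdiff] at h

/-- `∫_S 1/|z-w| ≤ 3 √(π |S|)`.
Proof: with `π ρ² = |S|`, `∫_{S ∩ B(z,ρ)} ≤ 2 π ρ` and `∫_{S ∖ B(z,ρ)} ≤ |S|/ρ = π ρ`
(if `|S| = 0` the integral is `0`). -/
theorem integral_inv_le (z : ℂ) {S : Set ℂ} (hS : MeasurableSet S) (hfin : volume S ≠ ∞) :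
    ∫ w in S, ‖z - w‖⁻¹ ≤ 3 * √(π * volume.real S) := by
  rcases eq_or_ne (volume S) 0 with h0 | h0
  · rw [Measure.restrict_eq_zero.2 h0, integral_zero_measure]
    positivity
  have hpos : 0 < volume.real S := ENNReal.toReal_pos h0 hfin
  set ρ : ℝ := √(volume.real S / π) with hρd
  have hρ : 0 < ρ := Real.sqrt_pos.2 (by positivity)
  have hρ2 : ρ ^ 2 = volume.real S / π := Real.sq_sqrt (by positivity)
  have hint := integrableOn_inv z hS hfin
  have hsplit := integral_inter_add_sdiff (μ := volume) (f := fun w : ℂ => ‖z - w‖⁻¹) (s := S)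
    (t := ball z ρ) measurableSet_ball hint
  rw [← hsplit]
  have h1 : ∫ w in S ∩ ball z ρ, ‖z - w‖⁻¹ ≤ 2 * π * ρ := by
    rw [← (integrableOn_inv_ball z ρ hρ.le).2]
    refine setIntegral_mono_set (integrableOn_inv_ball z ρ hρ.le).1
      (Eventually.of_forall fun w => ?_) (inter_subset_right.eventuallyLE)
    simp
  have h2 : ∫ w in S \ ball z ρ, ‖z - w‖⁻¹ ≤ π * ρ := by
    have hSd : MeasurableSet (S \ ball z ρ) := hS.diff measurableSet_ball
    have hfd : volume (S \ ball z ρ) ≠ ∞ :=
      ne_top_of_le_ne_top hfin (measure_mono sdiff_subset)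
    calc ∫ w in S \ ball z ρ, ‖z - w‖⁻¹ ≤ ∫ w in S \ ball z ρ, ρ⁻¹ := by
          refine setIntegral_mono_on (integrableOn_inv_diff z hS hfin hρ)
            (integrableOn_const hfd (by simp)) hSd fun w hw => ?_
          have : ρ ≤ ‖z - w‖ := by
            have := hw.2
            rw [mem_ball, not_lt, dist_comm, dist_eq_norm] at this
            exact this
          exact inv_anti₀ hρ this
      _ = volume.real (S \ ball z ρ) * ρ⁻¹ := by simp [Measure.real]
      _ ≤ volume.real S * ρ⁻¹ := by
          refine mul_le_mul_of_nonneg_right ?_ (by positivity)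
          exact measureReal_mono sdiff_subset hfin
      _ = π * ρ := by
          have : volume.real S = π * ρ ^ 2 := by rw [hρ2]; field_simp
          rw [this]; field_simp
  have h3 : √(π * volume.real S) = π * ρ := by
    have : π * volume.real S = (π * ρ) ^ 2 := by
      rw [mul_pow, hρ2]; field_simp
    rw [this, Real.sqrt_sq (by positivity)]
  rw [h3]
  linarith

theorem integrableOn_inv32 (z : ℂ) {S : Set ℂ} (hS : MeasurableSet S) (hfin : volume S ≠ ∞) :
    IntegrableOn (fun w : ℂ => ‖z - w‖ ^ (-(3 / 2) : ℝ)) S := by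
  have h := ((integrableOn_inv32_ball z).1.mono_set
    (inter_subset_right (s := S))).union (integrableOn_inv32_diff z hS hfin)
  rwa [inter_union_sdiff] at h

/-- `∫_S |z-w|^(-3/2) ≤ 4π + |S|` (split `S` at `|z-w| < 1`). -/
theorem integral_inv32_le (z : ℂ) {S : Set ℂ} (hS : MeasurableSet S) (hfin : volume S ≠ ∞) :
    ∫ w in S, ‖z - w‖ ^ (-(3 / 2) : ℝ) ≤ 4 * π + volume.real S := by
  have hint := integrableOn_inv32 z hS hfin
  have hsplit := integral_inter_add_sdiff (μ := volume)
    (f := fun w : ℂ => ‖z - w‖ ^ (-(3 / 2) : ℝ)) (s := S) (t := ball z 1) measurableSet_ball hint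
  rw [← hsplit]
  refine add_le_add ?_ ?_
  · rw [← (integrableOn_inv32_ball z).2]
    refine setIntegral_mono_set (integrableOn_inv32_ball z).1
      (Eventually.of_forall fun w => ?_) (inter_subset_right.eventuallyLE)
    positivity
  · have hSd : MeasurableSet (S \ ball z 1) := hS.diff measurableSet_ball
    have hfd : volume (S \ ball z 1) ≠ ∞ :=
      ne_top_of_le_ne_top hfin (measure_mono sdiff_subset)
    calc ∫ w in S \ ball z 1, ‖z - w‖ ^ (-(3 / 2) : ℝ) ≤ ∫ w in S \ ball z 1, (1 : ℝ) := by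
          refine setIntegral_mono_on (integrableOn_inv32_diff z hS hfin)
            (integrableOn_const hfd (by simp)) hSd fun w hw => ?_
          have : 1 ≤ ‖z - w‖ := by
            have := hw.2
            rw [mem_ball, not_lt, dist_comm, dist_eq_norm] at this
            exact this
          exact Real.rpow_le_one_of_one_le_of_nonpos this (by norm_num)
      _ = volume.real (S \ ball z 1) := by simp [Measure.real]
      _ ≤ volume.real S := measureReal_mono sdiff_subset hfin

end Pool.Agent.W_4d259d_h46.Pl
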