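import Pool.Agent.W_4d259d_h46.PlHole
import Pool.Agent.W_4d259d_h46.PlAnnB

/-!
# The function `S` of the holes lemma (module PL)
-/

noncomputable section

namespace Pool.Agent.W_4d259d_h46.Pl

open MeasureTheory Set Filter Topology Metric
open scoped Real ENNReal

variable {E : Type*} [NormedAddCommGroup E] [NormedSpace ℂ E]

/-- `S` is holomorphic off the closed discs of radius `3h/16`. -/
theorem SS_hol [CompleteSpace E] {h m δ ρ M C : ℝ} (D : HoleData E h m δ ρ M) (p : ℂ → ℂ → E)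
    (hy : ∀ j ∈ D.J, AnnHyp j (h / 2) C (D.yy p j)) :
    DifferentiableOn ℂ (D.SS p) {z | ∀ j ∈ D.J, 3 * h / 16 < ‖z - j‖} := by
  unfold HoleData.SS
  refine DifferentiableOn.fun_sum fun j hj => ?_
  have hh : 0 < h := by
    have := (hy j hj).pos
    linarith
  refine DifferentiableOn.add ?_ ?_
  · refine DifferentiableOn.smul_const ?_ _
    refine DifferentiableOn.inv (by fun_prop) ?_
    intro z hz h0
    have h1 := hz j hj
    rw [h0, norm_zero] at h1
    linarith
  · refine (ann_am_hol (hy j hj)).mono ?_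
    intro z hz
    have h1 := hz j hj
    change 3 * (h / 2) / 8 < ‖z - j‖
    linarith

/-- On the annulus `3h/16 < |z-j| < h/2`: `G + S = p_j + c_j/(z-j) + y_j`. -/
theorem Sol.annulus [CompleteSpace E] {h m δ ρ M C : ℝ} (D : HoleData E h m δ ρ M)
    {G : ℂ → E} {p : ℂ → ℂ → E} (hs : D.Sol G p)
    (hy : ∀ j ∈ D.J, AnnHyp j (h / 2) C (D.yy p j)) {j z : ℂ} (hj : j ∈ D.J)
    (hz : 3 * h / 16 < ‖z - j‖) (hz' : ‖z - j‖ < h / 2) :
    G z + D.SS p z = p j z + (z - j)⁻¹ • D.c j + D.yy p j z := by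
  have h1 := ann_split (hy j hj) (z := z) (by linarith) hz'
  have h2 := ((hs j hj).2 z (by rw [mem_ball_iff_norm]; exact hz')).2
  have h3 : D.SS p z = ((z - j)⁻¹ • D.c j + am j (h / 2) (D.yy p j) z) +
      ∑ i ∈ D.J.erase j, ((z - i)⁻¹ • D.c i + am i (h / 2) (D.yy p i) z) :=
    (Finset.add_sum_erase D.J
      (fun i => (z - i)⁻¹ • D.c i + am i (h / 2) (D.yy p i) z) hj).symm
  calc G z + D.SS p z = (G z + ∑ i ∈ D.J.erase j,
        ((z - i)⁻¹ • D.c i + am i (h / 2) (D.yy p i) z)) +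
        ((z - j)⁻¹ • D.c j + am j (h / 2) (D.yy p j) z) := by rw [h3]; abel
    _ = p j z + (z - j)⁻¹ • D.c j + (ap j (h / 2) (D.yy p j) z +
        am j (h / 2) (D.yy p j) z) := by rw [← h2]; abel
    _ = _ := by rw [← h1]

end Pool.Agent.W_4d259d_h46.Pl
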