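import Pool.Agent.W_4d259d_h46.PlLat

/-!
# Cells covering a compact set (module PL)
-/

noncomputable section

namespace Pool.Agent.W_4d259d_h46.Pl

open MeasureTheory Set Filter Topology Metric
open scoped Real ENNReal


/-- A compact subset `G` of an open set `V` is covered by finitely many cells contained in `V`, for
all small `h`; `J` = the centres of the lattice cells meeting `G`. -/
theorem exists_cells {G V : Set ℂ} (hG : IsCompact G) (hV : IsOpen V) (hGV : G ⊆ V) :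
    ∃ h0 > 0, ∀ h, 0 < h → h ≤ h0 → ∃ J : Finset ℂ, IsLat h J ∧ G ⊆ (⋃ j ∈ J, cell h j) ∧
      (∀ j ∈ J, closure (cell h j) ⊆ V) := by
  classical
  obtain ⟨δ, hδ, hδV⟩ := hG.exists_thickening_subset_open hV hGV
  refine ⟨δ / 2, by linarith, fun h hh hhδ => ?_⟩
  obtain ⟨R, hR⟩ := hG.isBounded.exists_norm_le
  -- the index of the cell of a point
  have hidx : ∀ x : ℝ, h * (⌊x / h + 1 / 2⌋ : ℤ) - h / 2 ≤ x ∧
      x < h * (⌊x / h + 1 / 2⌋ : ℤ) + h / 2 := by
    intro x
    have h1 := Int.floor_le (x / h + 1 / 2)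
    have h2 := Int.lt_floor_add_one (x / h + 1 / 2)
    have e : h * (x / h) = x := mul_div_cancel₀ x hh.ne'
    constructor
    · have := mul_le_mul_of_nonneg_left h1 hh.le
      rw [mul_add, e] at this
      linarith
    · have := mul_lt_mul_of_pos_left h2 hh
      rw [mul_add, mul_add, e] at this
      linarith
  let P : ℤ × ℤ → ℂ := fun p => ⟨h * p.1, h * p.2⟩
  let S : Set (ℤ × ℤ) := {p | (cell h (P p) ∩ G).Nonempty}
  have hSfin : S.Finite := by
    let N : ℤ := ⌈R / h⌉ + 1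
    have hbd : ∀ k : ℤ, |h * k| ≤ R + h / 2 → |k| ≤ N := by
      intro k hk
      have h1 : ((|k| : ℤ) : ℝ) ≤ R / h + 1 / 2 := by
        rw [Int.cast_abs, div_add' _ _ _ hh.ne', le_div_iff₀ hh]
        rw [abs_mul, abs_of_pos hh] at hk
        linarith
      have h2 : ((|k| : ℤ) : ℝ) ≤ ((N : ℤ) : ℝ) := by
        have h3 := Int.le_ceil (R / h)
        have h4 : ((N : ℤ) : ℝ) = (⌈R / h⌉ : ℤ) + 1 := by simp [N]
        rw [h4]
        linarith
      exact_mod_cast h2
    refine ((Finset.Icc (-N) N ×ˢ Finset.Icc (-N) N).finite_toSet).subset ?_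
    rintro ⟨k, l⟩ ⟨w, ⟨⟨h1, h2⟩, h3, h4⟩, hwG⟩
    simp only [P] at h1 h2 h3 h4
    have h5 := hR w hwG
    have h6 := abs_le.1 ((Complex.abs_re_le_norm w).trans h5)
    have h7 := abs_le.1 ((Complex.abs_im_le_norm w).trans h5)
    have hk := abs_le.1 (hbd k (by rw [abs_le]; constructor <;> linarith))
    have hl := abs_le.1 (hbd l (by rw [abs_le]; constructor <;> linarith))
    rw [Finset.mem_coe, Finset.mem_product, Finset.mem_Icc, Finset.mem_Icc]
    exact ⟨hk, hl⟩
  refine ⟨hSfin.toFinset.image P, ?_, ?_, ?_⟩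
  · intro z hz
    rw [Finset.mem_image] at hz
    obtain ⟨p, -, rfl⟩ := hz
    exact ⟨p.1, p.2, rfl⟩
  · intro g hg
    obtain ⟨h1, h2⟩ := hidx g.re
    obtain ⟨h3, h4⟩ := hidx g.im
    have hcell : g ∈ cell h (P (⌊g.re / h + 1 / 2⌋, ⌊g.im / h + 1 / 2⌋)) := ⟨⟨h1, h2⟩, h3, h4⟩
    simp only [mem_iUnion]
    refine ⟨P (⌊g.re / h + 1 / 2⌋, ⌊g.im / h + 1 / 2⌋), ?_, hcell⟩
    rw [Finset.mem_image]
    exact ⟨_, hSfin.mem_toFinset.2 ⟨g, hcell, hg⟩, rfl⟩
  · intro z hz
    rw [Finset.mem_image] at hz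
    obtain ⟨p, hp, rfl⟩ := hz
    obtain ⟨g, hg, hgG⟩ := hSfin.mem_toFinset.1 hp
    have hsub : cell h (P p) ⊆ closedBall (P p) (3 / 4 * h) := fun w hw => by
      rw [mem_closedBall, dist_eq_norm]
      exact norm_sub_of_cell hw
    intro w hw
    have hw' := closure_minimal hsub isClosed_closedBall hw
    rw [mem_closedBall] at hw'
    apply hδV
    rw [Metric.mem_thickening_iff]
    refine ⟨g, hgG, ?_⟩
    have h1 := norm_sub_of_cell hg
    rw [← dist_eq_norm, dist_comm] at h1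
    have h2 := dist_triangle w (P p) g
    linarith

end Pool.Agent.W_4d259d_h46.Pl
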