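import Pool.Agent.W_4d259d_h46.PlS
import Pool.Agent.W_4d259d_h46.HB

/-!
# Splitting over `ℂ` (module PL)
-/

noncomputable section

namespace Pool.Agent.W_4d259d_h46.Pl

open MeasureTheory Set Filter Topology Metric TopologicalSpace
open scoped Real ENNReal ContDiff

variable {F : Type*} [NormedAddCommGroup F] [NormedSpace ℂ F]

/-- The density `(∂̄χ) y`. -/
def spEta {O : Opens ℂ} (χ : ℂ → ℝ) (y : HB O F) (w : ℂ) : F :=
  dbar (fun w => ((χ w : ℝ) : ℂ)) w • y.fn w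

theorem sp_smooth {χ : ℂ → ℝ} (hχ : ContDiff ℝ ∞ χ) :
    ContDiff ℝ 1 (fun w => ((χ w : ℝ) : ℂ)) :=
  (Complex.ofRealCLM.contDiff.comp hχ).of_le (by exact_mod_cast le_top)

theorem sp_dbar_off {χ : ℂ → ℝ} {w : ℂ} (hw : w ∉ tsupport χ) :
    dbar (fun w => ((χ w : ℝ) : ℂ)) w = 0 := by
  have h1 : (fun w => ((χ w : ℝ) : ℂ)) =ᶠ[𝓝 w] fun _ => (0 : ℂ) := by
    have h2 : (tsupport χ)ᶜ ∈ 𝓝 w := (isClosed_tsupport χ).isOpen_compl.mem_nhds hw
    filter_upwards [h2] with u hu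
    rw [image_eq_zero_of_notMem_tsupport hu]
    simp
  rw [dbar_congr h1]
  exact dbar_eq_zero (differentiableAt_const _)

theorem sp_dbar_one {χ : ℂ → ℝ} {N1 : Opens ℂ} (hN1 : ∀ z ∈ N1, χ z = 1) {w : ℂ} (hw : w ∈ N1) :
    dbar (fun w => ((χ w : ℝ) : ℂ)) w = 0 := by
  have h1 : (fun w => ((χ w : ℝ) : ℂ)) =ᶠ[𝓝 w] fun _ => (1 : ℂ) := by
    filter_upwards [N1.isOpen.mem_nhds hw] with u hu
    rw [hN1 u hu]
    simp
  rw [dbar_congr h1]
  exact dbar_eq_zero (differentiableAt_const _)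

theorem sp_bound {χ : ℂ → ℝ} (hχ : ContDiff ℝ ∞ χ) (hs : HasCompactSupport χ) :
    ∃ B : ℝ, 0 ≤ B ∧ ∀ w, ‖dbar (fun w => ((χ w : ℝ) : ℂ)) w‖ ≤ B := by
  have hc : Continuous (dbar (fun w => ((χ w : ℝ) : ℂ))) := by
    rw [← continuousOn_univ]
    exact continuousOn_dbar isOpen_univ (sp_smooth hχ).contDiffOn
  have hcs : HasCompactSupport (dbar (fun w => ((χ w : ℝ) : ℂ))) :=
    HasCompactSupport.intro hs fun w hw => sp_dbar_off hw
  obtain ⟨B, hB⟩ := hc.bounded_above_of_compact_support hcs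
  exact ⟨B, (norm_nonneg _).trans (hB 0), hB⟩

theorem sp_meas {O : Opens ℂ} (y : HB O F) : AEStronglyMeasurable y.fn volume := by
  have h1 : y.fn = (O : Set ℂ).indicator y.fn := by
    funext z
    by_cases hz : z ∈ (O : Set ℂ)
    · rw [indicator_of_mem hz]
    · rw [indicator_of_notMem hz]; exact HB.fn_off y hz
  rw [h1, aestronglyMeasurable_indicator_iff O.isOpen.measurableSet]
  exact (holOn_iff.1 y.fn_hol).continuousOn.aestronglyMeasurable O.isOpen.measurableSet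

theorem sp_dens {O : Opens ℂ} {χ : ℂ → ℝ} (hχ : ContDiff ℝ ∞ χ) (hs : HasCompactSupport χ)
    {B : ℝ} (hB : ∀ w, ‖dbar (fun w => ((χ w : ℝ) : ℂ)) w‖ ≤ B) (y : HB O F) :
    Dens (spEta χ y) (B * ‖y‖) (tsupport χ) where
  meas := by
    have hc : Continuous (dbar (fun w => ((χ w : ℝ) : ℂ))) := by
      rw [← continuousOn_univ]
      exact continuousOn_dbar isOpen_univ (sp_smooth hχ).contDiffOn
    exact hc.aestronglyMeasurable.smul (sp_meas y)
  le := by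
    intro w
    unfold spEta
    rw [norm_smul]
    exact mul_le_mul (hB w) (y.fn_le w) (norm_nonneg _) ((norm_nonneg _).trans (hB w))
  off := by
    intro w hw
    unfold spEta
    rw [sp_dbar_off hw, zero_smul]
  mS := (isClosed_tsupport χ).measurableSet
  fin := hs.isCompact.measure_lt_top.ne

theorem sp_main [CompleteSpace F] {O : Opens ℂ} {χ : ℂ → ℝ} (hχ : ContDiff ℝ ∞ χ)
    (hs : HasCompactSupport χ) {B : ℝ} (hB : ∀ w, ‖dbar (fun w => ((χ w : ℝ) : ℂ)) w‖ ≤ B)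
    (y : HB O F) :
    DifferentiableOn ℂ (fun z => ((χ z : ℝ) : ℂ) • y.fn z - T (spEta χ y) z) O := by
  have hy : DifferentiableOn ℂ y.fn O := holOn_iff.1 y.fn_hol
  have hyr : ContDiffOn ℝ 1 y.fn O := (hy.contDiffOn O.isOpen).restrict_scalars ℝ
  have hg : ContDiffOn ℝ 1 (fun z => ((χ z : ℝ) : ℂ) • y.fn z) O :=
    (sp_smooth hχ).contDiffOn.smul hyr
  refine T_solve (sp_dens hχ hs hB y) O.isOpen hg ?_
  intro z hz
  have h1 : DifferentiableAt ℝ (fun w => ((χ w : ℝ) : ℂ)) z :=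
    (sp_smooth hχ).differentiable (by norm_num) z
  have h2 : DifferentiableAt ℂ y.fn z := hy.differentiableAt (O.isOpen.mem_nhds hz)
  have h3 : DifferentiableAt ℝ y.fn z := h2.restrictScalars ℝ
  rw [dbar_smul h1 h3, dbar_eq_zero h2, smul_zero, zero_add]
  rfl

theorem sp_T_add {O : Opens ℂ} {χ : ℂ → ℝ} (hχ : ContDiff ℝ ∞ χ) (hs : HasCompactSupport χ)
    {B : ℝ} (hB : ∀ w, ‖dbar (fun w => ((χ w : ℝ) : ℂ)) w‖ ≤ B) (y y' : HB O F) (z : ℂ) :
    T (spEta χ (y + y')) z = T (spEta χ y) z + T (spEta χ y') z := by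
  rw [← T_add (sp_dens hχ hs hB y) (sp_dens hχ hs hB y')]
  congr 1
  funext w
  unfold spEta
  rw [HB.fn_add, smul_add]

theorem sp_T_smul {O : Opens ℂ} {χ : ℂ → ℝ} (c : ℂ) (y : HB O F) (z : ℂ) :
    T (spEta χ (c • y)) z = c • T (spEta χ y) z := by
  rw [← T_smul]
  congr 1
  funext w
  unfold spEta
  rw [HB.fn_smul, smul_comm]

/-- (SPLIT) for `R = ℂ`: for open `N1 ≤ N`, a smooth cut-off `χ` with compact support in `N`,
`χ = 1` on `N1`, and any open `WA`, with `O = WA ⊓ N`: bounded linear `SA`, `SB` with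
`y = SA y - SB y` on `O`.
Proof: `v = T (y ∂̄χ 1_O)`, `SA y = χ y - v` (`χ y := 0` off `N`), `SB y = -(1-χ) y - v` (first
term `0` on `N1`).  Holomorphic: near a point of `O` apply `T_solve` with `g = χ y` on `O`
(`dbar (χ y) = y dbar χ` since `dbar y = 0`); near a point of `WA ∖ N` and near a point of `N1`
the density vanishes (`T_hol`), the other term being `0` there.  Bounds: `T_le`. -/
theorem split_plane [CompleteSpace F] {N N1 WA : Opens ℂ} (h1 : N1 ≤ N) (χ : ℂ → ℝ)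
    (hχ : ContDiff ℝ ∞ χ) (hs : HasCompactSupport χ) (hsN : tsupport χ ⊆ N)
    (h01 : ∀ z, χ z ∈ Icc (0 : ℝ) 1) (hN1 : ∀ z ∈ N1, χ z = 1) :
    ∃ (SA : HB (WA ⊓ N) F →L[ℂ] HB WA F) (SB : HB (WA ⊓ N) F →L[ℂ] HB (N1 ⊔ (WA ⊓ N)) F),
      ∀ y : HB (WA ⊓ N) F, ∀ z ∈ WA ⊓ N, y.fn z = (SA y).fn z - (SB y).fn z := by
  obtain ⟨B, hB0, hB⟩ := sp_bound hχ hs
  set V : ℝ := √(volume.real (tsupport χ)) with hV
  have hV0 : 0 ≤ V := Real.sqrt_nonneg _
  -- the two functions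
  let fA : HB (WA ⊓ N) F → ℂ → F := fun y z => ((χ z : ℝ) : ℂ) • y.fn z - T (spEta χ y) z
  let fB : HB (WA ⊓ N) F → ℂ → F := fun y z => fA y z - y.fn z
  have hAhol : ∀ y, DifferentiableOn ℂ (fA y) WA := by
    intro y z hz
    by_cases hzN : z ∈ N
    · have h2 := sp_main hχ hs hB y
      exact (h2.differentiableAt ((WA ⊓ N).isOpen.mem_nhds ⟨hz, hzN⟩)).differentiableWithinAt
    · have hzt : z ∉ tsupport χ := fun h => hzN (hsN h)
      have hU : IsOpen (tsupport χ)ᶜ := (isClosed_tsupport χ).isOpen_compl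
      have h2 : DifferentiableOn ℂ (T (spEta χ y)) (tsupport χ)ᶜ :=
        T_hol (sp_dens hχ hs hB y) hU fun w hw => (sp_dens hχ hs hB y).off w hw
      have h3 : DifferentiableAt ℂ (T (spEta χ y)) z := h2.differentiableAt (hU.mem_nhds hzt)
      have h4 : fA y =ᶠ[𝓝 z] fun w => - T (spEta χ y) w := by
        filter_upwards [hU.mem_nhds hzt] with w hw
        show ((χ w : ℝ) : ℂ) • y.fn w - T (spEta χ y) w = - T (spEta χ y) w
        rw [image_eq_zero_of_notMem_tsupport hw]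
        simp
      exact (h4.differentiableAt_iff.2 h3.neg).differentiableWithinAt
  have hBhol : ∀ y, DifferentiableOn ℂ (fB y) (N1 ⊔ (WA ⊓ N) : Opens ℂ) := by
    intro y z hz
    rcases hz with hz | hz
    · have h2 : DifferentiableOn ℂ (T (spEta χ y)) N1 :=
        T_hol (sp_dens hχ hs hB y) N1.isOpen fun w hw => by
          unfold spEta
          rw [sp_dbar_one hN1 hw, zero_smul]
      have h3 : DifferentiableAt ℂ (T (spEta χ y)) z := h2.differentiableAt (N1.isOpen.mem_nhds hz)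
      have h4 : fB y =ᶠ[𝓝 z] fun w => - T (spEta χ y) w := by
        filter_upwards [N1.isOpen.mem_nhds hz] with w hw
        show ((χ w : ℝ) : ℂ) • y.fn w - T (spEta χ y) w - y.fn w = - T (spEta χ y) w
        rw [hN1 w hw]
        simp
      exact (h4.differentiableAt_iff.2 h3.neg).differentiableWithinAt
    · have hz' : z ∈ ((WA ⊓ N : Opens ℂ) : Set ℂ) := hz
      have h2 : DifferentiableAt ℂ (fA y) z :=
        (hAhol y).differentiableAt (WA.isOpen.mem_nhds hz'.1)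
      have h3 : DifferentiableAt ℂ y.fn z :=
        (holOn_iff.1 y.fn_hol).differentiableAt ((WA ⊓ N).isOpen.mem_nhds hz')
      exact (h2.sub h3).differentiableWithinAt
  have hAle : ∀ y z, ‖fA y z‖ ≤ (1 + 2 * B * V) * ‖y‖ := by
    intro y z
    have h2 := T_le (sp_dens hχ hs hB y) z
    have h3 : ‖((χ z : ℝ) : ℂ) • y.fn z‖ ≤ ‖y‖ := by
      rw [norm_smul, Complex.norm_real, Real.norm_eq_abs, abs_of_nonneg (h01 z).1]
      calc χ z * ‖y.fn z‖ ≤ 1 * ‖y‖ :=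
            mul_le_mul (h01 z).2 (y.fn_le z) (norm_nonneg _) zero_le_one
        _ = ‖y‖ := one_mul _
    calc ‖fA y z‖ ≤ ‖((χ z : ℝ) : ℂ) • y.fn z‖ + ‖T (spEta χ y) z‖ := norm_sub_le _ _
      _ ≤ ‖y‖ + 2 * (B * ‖y‖) * V := add_le_add h3 h2
      _ = (1 + 2 * B * V) * ‖y‖ := by ring
  have hBle : ∀ y z, ‖fB y z‖ ≤ (2 + 2 * B * V) * ‖y‖ := by
    intro y z
    calc ‖fB y z‖ ≤ ‖fA y z‖ + ‖y.fn z‖ := norm_sub_le _ _
      _ ≤ (1 + 2 * B * V) * ‖y‖ + ‖y‖ := add_le_add (hAle y z) (y.fn_le z)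
      _ = (2 + 2 * B * V) * ‖y‖ := by ring
  have hAadd : ∀ y y' z, fA (y + y') z = fA y z + fA y' z := by
    intro y y' z
    show ((χ z : ℝ) : ℂ) • (y + y').fn z - T (spEta χ (y + y')) z = _
    rw [HB.fn_add, sp_T_add hχ hs hB, smul_add]
    show _ = (((χ z : ℝ) : ℂ) • y.fn z - T (spEta χ y) z) +
      (((χ z : ℝ) : ℂ) • y'.fn z - T (spEta χ y') z)
    abel
  have hAsmul : ∀ (c : ℂ) y z, fA (c • y) z = c • fA y z := by
    intro c y z
    show ((χ z : ℝ) : ℂ) • (c • y).fn z - T (spEta χ (c • y)) z = _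
    rw [HB.fn_smul, sp_T_smul, smul_comm, ← smul_sub]
  let LA : HB (WA ⊓ N) F →ₗ[ℂ] HB WA F :=
    { toFun := fun y => HB.mk (fA y) (holOn_iff.2 (hAhol y)) ((1 + 2 * B * V) * ‖y‖)
        fun z _ => hAle y z
      map_add' := fun y y' => HB.ext' fun z hz => by
        rw [HB.fn_add, HB.mk_fn _ _ _ _ hz, HB.mk_fn _ _ _ _ hz, HB.mk_fn _ _ _ _ hz, hAadd]
      map_smul' := fun c y => HB.ext' fun z hz => by
        rw [RingHom.id_apply, HB.fn_smul, HB.mk_fn _ _ _ _ hz, HB.mk_fn _ _ _ _ hz, hAsmul] }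
  let LB : HB (WA ⊓ N) F →ₗ[ℂ] HB (N1 ⊔ (WA ⊓ N)) F :=
    { toFun := fun y => HB.mk (fB y) (holOn_iff.2 (hBhol y)) ((2 + 2 * B * V) * ‖y‖)
        fun z _ => hBle y z
      map_add' := fun y y' => HB.ext' fun z hz => by
        rw [HB.fn_add, HB.mk_fn _ _ _ _ hz, HB.mk_fn _ _ _ _ hz, HB.mk_fn _ _ _ _ hz]
        show fA (y + y') z - (y + y').fn z = (fA y z - y.fn z) + (fA y' z - y'.fn z)
        rw [hAadd, HB.fn_add]
        abel
      map_smul' := fun c y => HB.ext' fun z hz => by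
        rw [RingHom.id_apply, HB.fn_smul, HB.mk_fn _ _ _ _ hz, HB.mk_fn _ _ _ _ hz]
        show fA (c • y) z - (c • y).fn z = c • (fA y z - y.fn z)
        rw [hAsmul, HB.fn_smul]
        exact (smul_sub c (fA y z) (y.fn z)).symm }
  have hLA : ∀ y z, z ∈ WA → (LA y).fn z = fA y z := fun y z hz =>
    HB.mk_fn (fA y) (holOn_iff.2 (hAhol y)) ((1 + 2 * B * V) * ‖y‖) (fun z _ => hAle y z) hz
  have hLB : ∀ y z, z ∈ N1 ⊔ (WA ⊓ N) → (LB y).fn z = fB y z :=
    fun y z hz => HB.mk_fn (fB y) (holOn_iff.2 (hBhol y)) ((2 + 2 * B * V) * ‖y‖)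
      (fun z _ => hBle y z) hz
  refine ⟨LA.mkContinuous (1 + 2 * B * V) fun y => ?_, LB.mkContinuous (2 + 2 * B * V) fun y => ?_,
    ?_⟩
  · refine HB.norm_le_of (by positivity) fun z hz => ?_
    rw [hLA y z hz]
    exact hAle y z
  · refine HB.norm_le_of (by positivity) fun z hz => ?_
    rw [hLB y z hz]
    exact hBle y z
  · intro y z hz
    show y.fn z = (LA y).fn z - (LB y).fn z
    rw [hLA y z hz.1, hLB y z (Or.inr hz)]
    show y.fn z = fA y z - (fA y z - y.fn z)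
    abel

end Pool.Agent.W_4d259d_h46.Pl
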