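import Pool.Agent.W_4d259d_h46.PlHoleB
import Pool.Agent.W_4d259d_h46.PlHoleC
import Pool.Agent.W_4d259d_h46.PlLatC
import Pool.Agent.W_4d259d_h46.PlSplit
import Pool.Agent.W_4d259d_h46.PlRat
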