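import Mathlib

/-!
# The annulus lemma (module PL): Laurent splitting with bounds
-/

noncomputable section

namespace Pool.Agent.W_4d259d_h46.Pl

open MeasureTheory Set Filter Topology Metric
open scoped Real

variable {F : Type*} [NormedAddCommGroup F] [NormedSpace ℂ F]

/-- The annulus `r/4 < |z - z0| < r`. -/
def ann (z0 : ℂ) (r : ℝ) : Set ℂ := {z | r / 4 < ‖z - z0‖ ∧ ‖z - z0‖ < r}

/-- `y` is holomorphic and bounded by `m` on the annulus. -/
structure AnnHyp (z0 : ℂ) (r m : ℝ) (y : ℂ → F) : Prop where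
  pos : 0 < r
  hol : DifferentiableOn ℂ y (ann z0 r)
  le : ∀ z ∈ ann z0 r, ‖y z‖ ≤ m

/-- The principal part: `y⁻(z) = - (1/2πi) ∮_{|w-z0| = 3r/8} y(w)/(w-z) dw`, used for
`|z - z0| > 3r/8`. -/
def am (z0 : ℂ) (r : ℝ) (y : ℂ → F) (z : ℂ) : F :=
  -((2 * π * Complex.I : ℂ)⁻¹ • ∮ w in C(z0, 3 * r / 8), (w - z)⁻¹ • y w)

/-- The regular part, on `|z - z0| < r`. -/
def ap (z0 : ℂ) (r : ℝ) (y : ℂ → F) (z : ℂ) : F :=
  open Classical in
  if ‖z - z0‖ < 3 * r / 4 then
    (2 * π * Complex.I : ℂ)⁻¹ • ∮ w in C(z0, 3 * r / 4), (w - z)⁻¹ • y w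
  else y z - am z0 r y z

variable {z0 : ℂ} {r m : ℝ} {y y' : ℂ → F}

theorem AnnHyp.m_nonneg (h : AnnHyp z0 r m y) : 0 ≤ m := by
  have hr := h.pos
  have h1 : z0 + ((r / 2 : ℝ) : ℂ) ∈ ann z0 r := by
    constructor
    · rw [add_sub_cancel_left, Complex.norm_real, Real.norm_of_nonneg (by linarith)]
      linarith
    · rw [add_sub_cancel_left, Complex.norm_real, Real.norm_of_nonneg (by linarith)]
      linarith
  exact (norm_nonneg _).trans (h.le _ h1)

theorem sphere_sub_ann (hr : 0 < r) {s : ℝ} (h1 : r / 4 < s) (h2 : s < r) :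
    sphere z0 s ⊆ ann z0 r := by
  intro w hw
  rw [mem_sphere_iff_norm] at hw
  exact ⟨by rw [hw]; exact h1, by rw [hw]; exact h2⟩

theorem AnnHyp.contSphere (h : AnnHyp z0 r m y) {s : ℝ} (h1 : r / 4 < s) (h2 : s < r) :
    ContinuousOn y (sphere z0 s) :=
  h.hol.continuousOn.mono (sphere_sub_ann h.pos h1 h2)

/-- The Cauchy type integrand is circle integrable. -/
theorem AnnHyp.circleInt (h : AnnHyp z0 r m y) {s : ℝ} (h1 : r / 4 < s) (h2 : s < r) {z : ℂ}
    (hz : ‖z - z0‖ ≠ s) : CircleIntegrable (fun w => (w - z)⁻¹ • y w) z0 s := by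
  have hs : 0 ≤ s := by linarith [h.pos]
  apply ContinuousOn.circleIntegrable hs
  refine ContinuousOn.smul (ContinuousOn.inv₀ (by fun_prop) ?_) (h.contSphere h1 h2)
  intro w hw h0
  rw [mem_sphere_iff_norm] at hw
  rw [sub_eq_zero] at h0
  rw [h0] at hw
  exact hz hw

/-- `y⁻` is holomorphic on `|z - z0| > 3r/8` (differentiate under the circle integral, or
`hasFDerivAt`/`hasFPowerSeries` results for Cauchy type integrals). -/
theorem ann_am_hol [CompleteSpace F] (h : AnnHyp z0 r m y) :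
    DifferentiableOn ℂ (am z0 r y) {z | 3 * r / 8 < ‖z - z0‖} := by
  have hr := h.pos
  intro z1 hz1
  have hz1' : 3 * r / 8 < ‖z1 - z0‖ := hz1
  apply DifferentiableAt.differentiableWithinAt
  set δ : ℝ := (‖z1 - z0‖ - 3 * r / 8) / 2 with hδ
  have hδ0 : 0 < δ := by rw [hδ]; linarith
  set s : ℝ := 3 * r / 8 with hs
  have hs0 : 0 ≤ s := by rw [hs]; linarith
  have hdist : ∀ z ∈ ball z1 δ, ∀ θ : ℝ, δ ≤ ‖circleMap z0 s θ - z‖ := by
    intro z hz θ
    have h1 : ‖circleMap z0 s θ - z0‖ = s := by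
      have := circleMap_mem_sphere z0 hs0 θ
      rwa [mem_sphere_iff_norm] at this
    have h2 : ‖z - z1‖ < δ := by rwa [mem_ball_iff_norm] at hz
    have h3 : ‖z1 - z0‖ ≤ ‖z1 - z‖ + ‖z - circleMap z0 s θ‖ + ‖circleMap z0 s θ - z0‖ := by
      calc ‖z1 - z0‖ = ‖(z1 - z) + (z - circleMap z0 s θ) + (circleMap z0 s θ - z0)‖ := by
            congr 1; ring
        _ ≤ ‖(z1 - z) + (z - circleMap z0 s θ)‖ + ‖circleMap z0 s θ - z0‖ := norm_add_le _ _
        _ ≤ _ := by gcongr; exact norm_add_le _ _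
    have h4 : ‖z1 - z‖ = ‖z - z1‖ := norm_sub_rev _ _
    have h5 : ‖z - circleMap z0 s θ‖ = ‖circleMap z0 s θ - z‖ := norm_sub_rev _ _
    linarith
  have hycont : Continuous fun θ : ℝ => y (circleMap z0 s θ) := by
    have h1 := h.contSphere (s := s) (by rw [hs]; linarith) (by rw [hs]; linarith)
    exact h1.comp_continuous (continuous_circleMap z0 s) (fun θ => circleMap_mem_sphere z0 hs0 θ)
  have hyle : ∀ θ : ℝ, ‖y (circleMap z0 s θ)‖ ≤ m := fun θ =>
    h.le _ (sphere_sub_ann hr (by rw [hs]; linarith) (by rw [hs]; linarith)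
      (circleMap_mem_sphere z0 hs0 θ))
  have hne : ∀ z ∈ ball z1 δ, ∀ θ : ℝ, circleMap z0 s θ - z ≠ 0 := by
    intro z hz θ h0
    have := hdist z hz θ
    rw [h0, norm_zero] at this
    linarith
  have hdcont : Continuous fun θ : ℝ => deriv (circleMap z0 s) θ := by
    have : (fun θ : ℝ => deriv (circleMap z0 s) θ) = fun θ => circleMap 0 s θ * Complex.I := by
      funext θ
      simp [deriv_circleMap]
    rw [this]
    exact (continuous_circleMap 0 s).mul continuous_const
  have key := intervalIntegral.hasDerivAt_integral_of_dominated_loc_of_deriv_le (𝕜 := ℂ)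
    (μ := volume) (a := 0) (b := 2 * π)
    (F := fun z θ => deriv (circleMap z0 s) θ • ((circleMap z0 s θ - z)⁻¹ • y (circleMap z0 s θ)))
    (F' := fun z θ => deriv (circleMap z0 s) θ •
      (((circleMap z0 s θ - z) ^ 2)⁻¹ • y (circleMap z0 s θ)))
    (x₀ := z1) (s := ball z1 δ) (bound := fun _ => s * ((δ ^ 2)⁻¹ * m))
    (ball_mem_nhds z1 hδ0) ?_ ?_ ?_ ?_ ?_ ?_
  · have h2 : DifferentiableAt ℂ (fun z => ∮ w in C(z0, s), (w - z)⁻¹ • y w) z1 :=
      key.2.differentiableAt
    exact (h2.const_smul ((2 * π * Complex.I : ℂ)⁻¹)).neg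
  · filter_upwards [ball_mem_nhds z1 hδ0] with z hz
    apply Continuous.aestronglyMeasurable
    exact hdcont.smul ((Continuous.inv₀ ((continuous_circleMap z0 s).sub continuous_const)
      (hne z hz)).smul hycont)
  · apply Continuous.intervalIntegrable
    exact hdcont.smul ((Continuous.inv₀ ((continuous_circleMap z0 s).sub continuous_const)
      (hne z1 (mem_ball_self hδ0))).smul hycont)
  · apply Continuous.aestronglyMeasurable
    exact hdcont.smul ((Continuous.inv₀ (((continuous_circleMap z0 s).sub continuous_const).pow 2)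
      (fun θ => pow_ne_zero 2 (hne z1 (mem_ball_self hδ0) θ))).smul hycont)
  · refine Eventually.of_forall fun θ _ z hz => ?_
    rw [norm_smul, norm_smul]
    have h1 : ‖deriv (circleMap z0 s) θ‖ = s := by
      simp [deriv_circleMap, abs_of_nonneg hs0]
    rw [h1, norm_inv, norm_pow]
    have h2 := hdist z hz θ
    have h3 : (‖circleMap z0 s θ - z‖ ^ 2)⁻¹ ≤ (δ ^ 2)⁻¹ := by
      apply inv_anti₀ (by positivity)
      gcongr
    have hm := h.m_nonneg
    have := hyle θ
    gcongr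
  · exact intervalIntegrable_const
  · refine Eventually.of_forall fun θ _ z hz => ?_
    have h1 : HasDerivAt (fun z => (circleMap z0 s θ - z)⁻¹) (((circleMap z0 s θ - z) ^ 2)⁻¹) z := by
      have h2 : HasDerivAt (fun z => circleMap z0 s θ - z) (-1) z := by
        simpa using (hasDerivAt_id z).const_sub (circleMap z0 s θ)
      have h3 : HasDerivAt (fun z => (circleMap z0 s θ - z)⁻¹)
          (-(-1) / (circleMap z0 s θ - z) ^ 2) z := h2.fun_inv (hne z hz θ)
      simpa using h3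
    exact (h1.smul_const _).const_smul _

/-- `|y⁻(z)| ≤ (3r/8) m / (|z-z0| - 3r/8) ≤ (3/2) m r / |z - z0|` for `|z-z0| ≥ r/2`
(`circleIntegral.norm_integral_le_of_norm_le_const`). -/
theorem ann_am_le (h : AnnHyp z0 r m y) {z : ℂ} (hz : r / 2 ≤ ‖z - z0‖) :
    ‖am z0 r y z‖ ≤ 2 * m * r / ‖z - z0‖ := by
  have hr := h.pos
  have hm := h.m_nonneg
  set d := ‖z - z0‖ with hd
  have hd0 : 0 < d := by linarith
  have hdd : d / 4 ≤ d - 3 * r / 8 := by linarith
  have h1 : ‖∮ w in C(z0, 3 * r / 8), (w - z)⁻¹ • y w‖ ≤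
      2 * π * (3 * r / 8) * ((d / 4)⁻¹ * m) := by
    refine circleIntegral.norm_integral_le_of_norm_le_const (by linarith) fun w hw => ?_
    have hw' := hw
    rw [mem_sphere_iff_norm] at hw'
    rw [norm_smul, norm_inv]
    have h2 : d / 4 ≤ ‖w - z‖ := by
      have : ‖z - z0‖ ≤ ‖z - w‖ + ‖w - z0‖ := by
        calc ‖z - z0‖ = ‖(z - w) + (w - z0)‖ := by congr 1; ring
          _ ≤ _ := norm_add_le _ _
      rw [norm_sub_rev z w, hw', ← hd] at this
      linarith
    have h3 : ‖w - z‖⁻¹ ≤ (d / 4)⁻¹ := inv_anti₀ (by positivity) h2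
    have h4 := h.le w (sphere_sub_ann hr (by linarith) (by linarith) hw)
    gcongr
  rw [am, norm_neg, norm_smul, norm_inv]
  have h5 : ‖(2 * π * Complex.I : ℂ)‖ = 2 * π := by
    simp [abs_of_pos Real.pi_pos]
  rw [h5]
  calc (2 * π)⁻¹ * ‖∮ w in C(z0, 3 * r / 8), (w - z)⁻¹ • y w‖
      ≤ (2 * π)⁻¹ * (2 * π * (3 * r / 8) * ((d / 4)⁻¹ * m)) := by gcongr
    _ = (3 / 2) * m * r / d := by
        have := Real.pi_pos
        field_simp
        ring
    _ ≤ 2 * m * r / d := by
        apply div_le_div_of_nonneg_right _ hd0.le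
        nlinarith [mul_nonneg hm hr.le]

/-- Cauchy's formula for the annulus: for `3r/8 < |z-z0| < 3r/4` the two circle integrals give
`y z`.  (Apply `Complex.circleIntegral_eq_of_differentiable_on_annulus_off_countable` to
`dslope y z`, and `∮ (w-z)⁻¹ = 2πi` resp. `0`.) -/
theorem ann_cauchy [CompleteSpace F] (h : AnnHyp z0 r m y) {z : ℂ} (hz : 3 * r / 8 < ‖z - z0‖)
    (hz' : ‖z - z0‖ < 3 * r / 4) :
    y z = (2 * π * Complex.I : ℂ)⁻¹ • (∮ w in C(z0, 3 * r / 4), (w - z)⁻¹ • y w)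
      + am z0 r y z := by
  have hr := h.pos
  have hcn : Continuous fun w : ℂ => ‖w - z0‖ := by fun_prop
  have hopen : IsOpen (ann z0 r) := (isOpen_Ioo (a := r / 4) (b := r)).preimage hcn
  have hsub : closedBall z0 (3 * r / 4) \ ball z0 (3 * r / 8) ⊆ ann z0 r := by
    rintro w ⟨h1, h2⟩
    rw [mem_closedBall_iff_norm] at h1
    rw [mem_ball_iff_norm, not_lt] at h2
    exact ⟨by linarith, by linarith⟩
  have hnhds : closedBall z0 (3 * r / 4) \ ball z0 (3 * r / 8) ∈ 𝓝 z := by
    have : IsOpen {w : ℂ | 3 * r / 8 < ‖w - z0‖ ∧ ‖w - z0‖ < 3 * r / 4} :=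
      (isOpen_Ioo (a := 3 * r / 8) (b := 3 * r / 4)).preimage hcn
    refine mem_of_superset (this.mem_nhds ⟨hz, hz'⟩) ?_
    rintro w ⟨h1, h2⟩
    refine ⟨by rw [mem_closedBall_iff_norm]; linarith, by rw [mem_ball_iff_norm]; linarith⟩
  have hda : ∀ w ∈ ann z0 r, DifferentiableAt ℂ y w := fun w hw =>
    (h.hol w hw).differentiableAt (hopen.mem_nhds hw)
  have hdsc : ContinuousOn (dslope y z) (closedBall z0 (3 * r / 4) \ ball z0 (3 * r / 8)) :=
    (continuousOn_dslope hnhds).2 ⟨h.hol.continuousOn.mono hsub, hda z ⟨by linarith, by linarith⟩⟩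
  have heq := Complex.circleIntegral_eq_of_differentiable_on_annulus_off_countable
    (c := z0) (r := 3 * r / 8) (R := 3 * r / 4) (by linarith) (by linarith)
    (f := dslope y z) (s := {z}) (countable_singleton z) hdsc (by
      rintro w ⟨⟨h1, h2⟩, h3⟩
      rw [differentiableAt_dslope_of_ne (by simpa using h3)]
      apply hda
      rw [mem_ball_iff_norm] at h1
      rw [mem_closedBall_iff_norm, not_le] at h2
      exact ⟨by linarith, by linarith⟩)
  have hform : ∀ s : ℝ, r / 4 < s → s < r → ‖z - z0‖ ≠ s →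
      (∮ w in C(z0, s), dslope y z w) =
        (∮ w in C(z0, s), (w - z)⁻¹ • y w) - (∮ w in C(z0, s), (w - z)⁻¹) • y z := by
    intro s h1 h2 h3
    have hs0 : 0 ≤ s := by linarith
    rw [← circleIntegral.integral_smul_const, ← circleIntegral.integral_sub
      (h.circleInt h1 h2 h3)]
    · refine circleIntegral.integral_congr hs0 fun w hw => ?_
      have hne : w ≠ z := by
        rintro rfl
        rw [mem_sphere_iff_norm] at hw
        exact h3 hw
      rw [dslope_of_ne _ hne, slope_def_module, smul_sub]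
    · apply ContinuousOn.circleIntegrable hs0
      refine ContinuousOn.smul (ContinuousOn.inv₀ (by fun_prop) ?_) continuousOn_const
      intro w hw h0
      rw [mem_sphere_iff_norm] at hw
      rw [sub_eq_zero] at h0
      rw [h0] at hw
      exact h3 hw
  rw [hform _ (by linarith) (by linarith) (by linarith), hform _ (by linarith) (by linarith)
    (by linarith)] at heq
  have hin : (∮ w in C(z0, 3 * r / 4), (w - z)⁻¹) = 2 * π * Complex.I :=
    circleIntegral.integral_sub_inv_of_mem_ball (by rw [mem_ball_iff_norm]; exact hz')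
  have hout : (∮ w in C(z0, 3 * r / 8), (w - z)⁻¹) = 0 := by
    apply Complex.circleIntegral_eq_zero_of_differentiable_on_off_countable (by linarith)
      countable_empty
    · refine ContinuousOn.inv₀ (by fun_prop) ?_
      intro w hw h0
      rw [mem_closedBall_iff_norm] at hw
      rw [sub_eq_zero] at h0
      rw [h0] at hw
      linarith
    · rintro w ⟨hw, _⟩
      refine DifferentiableAt.inv (by fun_prop) ?_
      intro h0
      rw [mem_ball_iff_norm] at hw
      rw [sub_eq_zero] at h0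
      rw [h0] at hw
      linarith
  rw [hin, hout, zero_smul, sub_zero] at heq
  have h2pi : (2 * π * Complex.I : ℂ) ≠ 0 := Complex.two_pi_I_ne_zero
  rw [am, ← heq, ← sub_eq_add_neg, ← smul_sub, sub_sub_cancel, smul_smul, inv_mul_cancel₀ h2pi,
    one_smul]

/-- `y = y⁺ + y⁻` on `3r/8 < |z-z0| < r`. -/
theorem ann_split [CompleteSpace F] (h : AnnHyp z0 r m y) {z : ℂ} (hz : 3 * r / 8 < ‖z - z0‖)
    (hz' : ‖z - z0‖ < r) : y z = ap z0 r y z + am z0 r y z := by
  by_cases h1 : ‖z - z0‖ < 3 * r / 4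
  · rw [ap, if_pos h1]
    exact ann_cauchy h hz h1
  · rw [ap, if_neg h1, sub_add_cancel]

theorem AnnHyp.sub {m' : ℝ} (h : AnnHyp z0 r m y) (h' : AnnHyp z0 r m' y') :
    AnnHyp z0 r (m + m') (fun w => y w - y' w) :=
  ⟨h.pos, h.hol.sub h'.hol, fun z hz => (norm_sub_le _ _).trans (add_le_add (h.le z hz) (h'.le z hz))⟩

end Pool.Agent.W_4d259d_h46.Pl
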