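import Mathlib

/-!
# Planar bump, part 1: choice of the sets (module PL)
-/

noncomputable section

namespace Pool.Agent.W_4d259d_h46.Pl

open MeasureTheory Set Filter Topology Metric
open scoped Real ENNReal

/-- `D` compact, `V ⊆ D` open, `(D ∖ V) ∩ P` a null set: there are a neighbourhood `W` of `D` and a
compact subset `G` of `V` such that `(W ∖ G) ∩ P` has small area.
Proof: `W = thickening r D` with `volume (cthickening r D) < volume D + τ/2`
(`tendsto_measure_cthickening_of_isCompact`), `cthickening r D ⊆ N1`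
(`IsCompact.exists_cthickening_subset_open`); `G ⊆ V` compact with `volume V < volume G + τ/2`
(inner regularity, `volume V ≤ volume D < ∞`);
`(W ∖ G) ∩ P ⊆ (W ∖ D) ∪ ((D ∖ V) ∩ P) ∪ (V ∖ G)`. -/
theorem area_choice {D V P N1 : Set ℂ} (hD : IsCompact D) (hV : IsOpen V) (hVD : V ⊆ D)
    (hnull : volume ((D \ V) ∩ P) = 0) (hN1 : IsOpen N1) (hDN1 : D ⊆ N1)
    {τ : ℝ} (hτ : 0 < τ) :
    ∃ W G : Set ℂ, IsOpen W ∧ D ⊆ W ∧ IsCompact (closure W) ∧ closure W ⊆ N1 ∧
      IsCompact G ∧ G ⊆ V ∧ volume.real ((W \ G) ∩ P) ≤ τ := by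
  have hDf : volume D ≠ ∞ := hD.measure_lt_top.ne
  have hVf : volume V ≠ ∞ := ne_top_of_le_ne_top hDf (measure_mono hVD)
  have hτ2 : (ENNReal.ofReal (τ / 2)) ≠ 0 := by
    rw [Ne, ENNReal.ofReal_eq_zero, not_le]
    linarith
  -- the compact set
  obtain ⟨G, hGV, hG, hGm⟩ := hV.measurableSet.exists_isCompact_sdiff_lt hVf hτ2
  -- the neighbourhood
  obtain ⟨r0, hr0, hr0N⟩ := hD.exists_cthickening_subset_open hN1 hDN1
  have hlim := tendsto_measure_cthickening_of_isCompact (μ := (volume : Measure ℂ)) hD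
  have hlt : volume D < volume D + ENNReal.ofReal (τ / 2) :=
    ENNReal.lt_add_right hDf hτ2
  have hev : ∀ᶠ r in 𝓝 (0 : ℝ), volume (cthickening r D) < volume D + ENNReal.ofReal (τ / 2) :=
    hlim.eventually (gt_mem_nhds hlt)
  obtain ⟨r1, hr1, hr1b⟩ := Metric.eventually_nhds_iff_ball.1 hev
  set r := min r0 (r1 / 2) with hr
  have hrpos : 0 < r := lt_min hr0 (by linarith)
  have hrb : volume (cthickening r D) < volume D + ENNReal.ofReal (τ / 2) := by
    apply hr1b
    rw [mem_ball_zero_iff, Real.norm_eq_abs, abs_of_pos hrpos]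
    exact lt_of_le_of_lt (min_le_right _ _) (by linarith)
  have hcl : closure (thickening r D) ⊆ cthickening r D := closure_thickening_subset_cthickening _ _
  have hcc : IsCompact (cthickening r D) := hD.cthickening
  refine ⟨thickening r D, G, isOpen_thickening, self_subset_thickening hrpos D,
    hcc.of_isClosed_subset isClosed_closure hcl,
    hcl.trans ((cthickening_mono (min_le_left _ _) D).trans hr0N), hG, hGV, ?_⟩
  have hsub : (thickening r D \ G) ∩ P ⊆ (cthickening r D \ D) ∪ (((D \ V) ∩ P) ∪ (V \ G)) := by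
    rintro z ⟨⟨hz1, hz2⟩, hz3⟩
    by_cases hzD : z ∈ D
    · right
      by_cases hzV : z ∈ V
      · exact Or.inr ⟨hzV, hz2⟩
      · exact Or.inl ⟨⟨hzD, hzV⟩, hz3⟩
    · exact Or.inl ⟨thickening_subset_cthickening _ _ hz1, hzD⟩
  have hdiff : volume (cthickening r D \ D) ≤ ENNReal.ofReal (τ / 2) := by
    rw [measure_sdiff (self_subset_cthickening D) hD.measurableSet.nullMeasurableSet hDf]
    exact tsub_le_iff_left.2 hrb.le
  have hfin : volume ((thickening r D \ G) ∩ P) ≤ ENNReal.ofReal τ := by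
    calc volume ((thickening r D \ G) ∩ P)
        ≤ volume (cthickening r D \ D) + (volume ((D \ V) ∩ P) + volume (V \ G)) :=
          (measure_mono hsub).trans ((measure_union_le _ _).trans
            (add_le_add le_rfl (measure_union_le _ _)))
      _ ≤ ENNReal.ofReal (τ / 2) + (0 + ENNReal.ofReal (τ / 2)) := by
          rw [hnull]
          exact add_le_add hdiff (add_le_add le_rfl hGm.le)
      _ = ENNReal.ofReal τ := by
          rw [zero_add, ← ENNReal.ofReal_add (by linarith) (by linarith)]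
          congr 1
          ring
  exact ENNReal.toReal_le_of_le_ofReal hτ.le hfin

end Pool.Agent.W_4d259d_h46.Pl
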