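import Mathlib

/-!
# The operator `∂̄` (module PL, file D)
-/

noncomputable section

namespace Pool.Agent.W_4d259d_h46.Pl

open MeasureTheory Set Filter Topology Metric
open scoped Real ENNReal ContDiff

variable {F : Type*} [NormedAddCommGroup F] [NormedSpace ℂ F]

/-- the operator `∂̄ = (∂_x + i ∂_y)/2` -/
def dbar (u : ℂ → F) (z : ℂ) : F :=
  (2 : ℂ)⁻¹ • (fderiv ℝ u z 1 + Complex.I • fderiv ℝ u z Complex.I)

/-- Cauchy-Riemann. -/
theorem differentiableAt_of_dbar {u : ℂ → F} {z : ℂ} (hu : DifferentiableAt ℝ u z)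
    (h : dbar u z = 0) : DifferentiableAt ℂ u z := by
  rw [differentiableAt_complex_iff_differentiableAt_real]
  refine ⟨hu, ?_⟩
  unfold dbar at h
  rw [smul_eq_zero] at h
  rcases h with h | h
  · norm_num at h
  · have h1 : Complex.I • (fderiv ℝ u z 1 + Complex.I • fderiv ℝ u z Complex.I) = 0 := by
      rw [h, smul_zero]
    rw [smul_add, smul_smul, Complex.I_mul_I, neg_one_smul, add_neg_eq_zero] at h1
    exact h1.symm

theorem dbar_eq_zero {u : ℂ → F} {z : ℂ} (hu : DifferentiableAt ℂ u z) : dbar u z = 0 := by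
  have h := (differentiableAt_complex_iff_differentiableAt_real.1 hu).2
  unfold dbar
  rw [h, smul_smul, Complex.I_mul_I, neg_one_smul, add_neg_cancel, smul_zero]

theorem dbar_congr {u v : ℂ → F} {z : ℂ} (h : u =ᶠ[𝓝 z] v) : dbar u z = dbar v z := by
  unfold dbar
  rw [h.fderiv_eq]

theorem dbar_add {u v : ℂ → F} {z : ℂ} (hu : DifferentiableAt ℝ u z)
    (hv : DifferentiableAt ℝ v z) : dbar (fun w => u w + v w) z = dbar u z + dbar v z := by
  unfold dbar
  rw [fderiv_fun_add hu hv]
  simp only [ContinuousLinearMap.add_apply, smul_add]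
  abel

/-- Product rule. -/
theorem dbar_smul {l : ℂ → ℂ} {u : ℂ → F} {z : ℂ} (hl : DifferentiableAt ℝ l z)
    (hu : DifferentiableAt ℝ u z) :
    dbar (fun w => l w • u w) z = l z • dbar u z + dbar l z • u z := by
  unfold dbar
  rw [fderiv_fun_smul hl hu]
  simp only [ContinuousLinearMap.add_apply, ContinuousLinearMap.smul_apply,
    ContinuousLinearMap.smulRight_apply, smul_add, smul_smul, smul_eq_mul]
  have h1 : l z * 2⁻¹ = 2⁻¹ * l z := mul_comm _ _
  have h2 : l z * (2⁻¹ * Complex.I) = 2⁻¹ * (Complex.I * l z) := by ring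
  rw [h1, h2, mul_add, add_smul]
  abel

/-- `∂̄ u` is continuous for `u` of class `C¹`. -/
theorem continuousOn_dbar {u : ℂ → F} {U : Set ℂ} (hU : IsOpen U) (hu : ContDiffOn ℝ 1 u U) :
    ContinuousOn (dbar u) U := by
  have h1 : ContinuousOn (fderiv ℝ u) U := hu.continuousOn_fderiv_of_isOpen hU le_rfl
  unfold dbar
  exact ((h1.clm_apply continuousOn_const).add
    ((h1.clm_apply continuousOn_const).const_smul Complex.I)).const_smul _

end Pool.Agent.W_4d259d_h46.Pl
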