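import Pool.Agent.W_4d259d_h46.PlLatB
import Pool.Agent.W_4d259d_h46.PlD

/-!
# Planar bump, part 2: `T (∂̄ g0 1_W)` is close to a sum of simple poles (module PL)
-/

noncomputable section

namespace Pool.Agent.W_4d259d_h46.Pl

open MeasureTheory Set Filter Topology Metric
open scoped Real ENNReal

variable {E : Type*} [NormedAddCommGroup E] [NormedSpace ℂ E]

/-- `∂̄ g0` cut off to `W` is a density. -/
theorem dens_W {g0 : ℂ → E} {N' : Set ℂ} (hN' : IsOpen N') (hg0 : ContDiffOn ℝ 1 g0 N')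
    {W : Set ℂ} (hW : IsOpen W) (hWN : W ⊆ N') (hWf : volume W ≠ ∞) {m : ℝ} (hm0 : 0 ≤ m)
    (hm : ∀ z ∈ W, ‖dbar g0 z‖ ≤ m) : Dens (W.indicator (dbar g0)) m W := by
  have hc : ContinuousOn (dbar g0) W := (continuousOn_dbar hN' hg0).mono hWN
  refine ⟨(aestronglyMeasurable_indicator_iff hW.measurableSet).2
    (hc.aestronglyMeasurable hW.measurableSet), fun w => ?_, fun w hw => indicator_of_notMem hw _,
    hW.measurableSet, hWf⟩
  by_cases hw : w ∈ W
  · rw [indicator_of_mem hw]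
    exact hm w hw
  · rw [indicator_of_notMem hw, norm_zero]
    exact hm0

/-- The residues `c j = (1/π) ∫_{cell j} ∂̄ g0` are bounded by `m h²`. -/
theorem res_le {g0 : ℂ → E} {h : ℝ} (hh : 0 < h) {j : ℂ} {m : ℝ} (hm0 : 0 ≤ m)
    (hm : ∀ z ∈ cell h j, ‖dbar g0 z‖ ≤ m) :
    ‖(π : ℂ)⁻¹ • ∫ w in cell h j, dbar g0 w‖ ≤ m * h ^ 2 := by
  have h1 := norm_setIntegral_le_of_norm_le_const (μ := volume) (s := cell h j) (f := dbar g0)
    (C := m) (volume_cell_ne j).lt_top hm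
  rw [volume_cell hh] at h1
  rw [norm_smul, norm_inv, Complex.norm_real, Real.norm_of_nonneg Real.pi_pos.le]
  have h2 : (π : ℝ)⁻¹ ≤ 1 := by
    rw [inv_le_one₀ Real.pi_pos]
    linarith [Real.pi_gt_three]
  calc (π : ℝ)⁻¹ * ‖∫ w in cell h j, dbar g0 w‖ ≤ 1 * (m * h ^ 2) := by
        refine mul_le_mul h2 h1 (norm_nonneg _) zero_le_one
    _ = m * h ^ 2 := one_mul _

/-- The core estimate.  Proof: `S = ⋃ cells ⊆ W`; `1_W η = 1_(W∖S) η + 1_S η`, `T_add`; the first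
density vanishes off `(W ∖ S) ∩ {z ∈ N' | dbar g0 z ≠ 0}` (measurable: `N'` is open and `dbar g0`
continuous on `N'`), of area `≤ τ`: `T_le`; the second: `cell_estimate` for the density
`W.indicator (dbar g0)`. -/
theorem core_est [CompleteSpace E] {g0 : ℂ → E} {N' : Set ℂ} (hN' : IsOpen N')
    (hg0 : ContDiffOn ℝ 1 g0 N') {W G : Set ℂ} (hW : IsOpen W) (hWN : W ⊆ N')
    (hWf : volume W ≠ ∞) {m : ℝ} (hm0 : 0 ≤ m) (hm : ∀ z ∈ W, ‖dbar g0 z‖ ≤ m)
    {h : ℝ} (hh : 0 < h) (h1 : h ≤ 1) {J : Finset ℂ} (hJ : IsLat h J) (hb : ∀ j ∈ J, ‖j‖ ≤ 3)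
    (hGJ : G ⊆ ⋃ j ∈ J, cell h j) (hcW : ∀ j ∈ J, cell h j ⊆ W) {τ : ℝ}
    (hτ : volume.real ((W \ G) ∩ {z | dbar g0 z ≠ 0}) ≤ τ) {z : ℂ}
    (hz : ∀ j ∈ J, h / 4 ≤ ‖z - j‖) :
    ‖T (W.indicator (dbar g0)) z - ∑ j ∈ J, (z - j)⁻¹ • ((π : ℂ)⁻¹ • ∫ w in cell h j, dbar g0 w)‖
      ≤ 2 * m * √τ + 200 * m * √h := by
  set S : Set ℂ := ⋃ j ∈ J, cell h j with hS
  have hSm : MeasurableSet S := cells_meas h J
  have hSW : S ⊆ W := iUnion₂_subset hcW
  set η : ℂ → E := W.indicator (dbar g0) with hη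
  have hdW : Dens η m W := dens_W hN' hg0 hW hWN hWf hm0 hm
  -- the exceptional set
  set P : Set ℂ := W ∩ (dbar g0) ⁻¹' {0}ᶜ with hP
  have hPo : IsOpen P :=
    ((continuousOn_dbar hN' hg0).mono hWN).isOpen_inter_preimage hW isOpen_compl_singleton
  set Q : Set ℂ := P \ S with hQ
  have hQm : MeasurableSet Q := hPo.measurableSet.diff hSm
  have hQsub : Q ⊆ (W \ G) ∩ {z | dbar g0 z ≠ 0} := by
    rintro w ⟨⟨hw1, hw2⟩, hw3⟩
    exact ⟨⟨hw1, fun hG => hw3 (hGJ hG)⟩, hw2⟩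
  have hfin2 : volume ((W \ G) ∩ {z | dbar g0 z ≠ 0}) ≠ ∞ :=
    ne_top_of_le_ne_top hWf (measure_mono fun w hw => hw.1.1)
  have hQf : volume Q ≠ ∞ := ne_top_of_le_ne_top hfin2 (measure_mono hQsub)
  have hQle : volume.real Q ≤ τ := (measureReal_mono hQsub hfin2).trans hτ
  -- the two densities
  have hd1 : Dens (Sᶜ.indicator η) m Q := by
    refine ⟨hdW.meas.indicator hSm.compl, fun w => ?_, fun w hw => ?_, hQm, hQf⟩
    · by_cases hw : w ∈ Sᶜ
      · rw [indicator_of_mem hw]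
        exact hdW.le w
      · rw [indicator_of_notMem hw, norm_zero]
        exact hm0
    · by_cases hwS : w ∈ Sᶜ
      · rw [indicator_of_mem hwS]
        by_cases hwW : w ∈ W
        · by_contra hne
          apply hw
          refine ⟨⟨hwW, ?_⟩, hwS⟩
          rw [hη, indicator_of_mem hwW] at hne
          exact hne
        · exact hdW.off w hwW
      · exact indicator_of_notMem hwS _
  have hd2 : Dens (S.indicator η) m W := by
    refine ⟨hdW.meas.indicator hSm, fun w => ?_, fun w hw => ?_, hdW.mS, hdW.fin⟩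
    · by_cases hw : w ∈ S
      · rw [indicator_of_mem hw]
        exact hdW.le w
      · rw [indicator_of_notMem hw, norm_zero]
        exact hm0
    · exact indicator_of_notMem (fun h => hw (hSW h)) _
  have hsplit : T η z = T (Sᶜ.indicator η) z + T (S.indicator η) z := by
    rw [← T_add hd1 hd2]
    congr 1
    funext w
    exact (congrFun (indicator_compl_add_self S η) w).symm
  have hint : ∀ j ∈ J, ∫ w in cell h j, η w = ∫ w in cell h j, dbar g0 w := by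
    intro j hj
    refine setIntegral_congr_fun (measurableSet_cell h j) fun w hw => ?_
    exact indicator_of_mem (hcW j hj hw) _
  have hc1 := cell_estimate hh h1 hJ hb hdW hz
  have hsum : ∑ j ∈ J, (z - j)⁻¹ • ((π : ℂ)⁻¹ • ∫ w in cell h j, dbar g0 w) =
      ∑ j ∈ J, (z - j)⁻¹ • ((π : ℂ)⁻¹ • ∫ w in cell h j, η w) := by
    refine Finset.sum_congr rfl fun j hj => ?_
    rw [hint j hj]
  rw [hsum, hsplit]
  have hT1 := T_le hd1 z
  have hT2 : ‖T (Sᶜ.indicator η) z‖ ≤ 2 * m * √τ := by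
    refine hT1.trans ?_
    have := Real.sqrt_le_sqrt hQle
    gcongr
  calc ‖T (Sᶜ.indicator η) z + T (S.indicator η) z
        - ∑ j ∈ J, (z - j)⁻¹ • ((π : ℂ)⁻¹ • ∫ w in cell h j, η w)‖
      = ‖T (Sᶜ.indicator η) z + (T (S.indicator η) z
        - ∑ j ∈ J, (z - j)⁻¹ • ((π : ℂ)⁻¹ • ∫ w in cell h j, η w))‖ := by rw [add_sub_assoc]
    _ ≤ _ := (norm_add_le _ _).trans (add_le_add hT2 hc1)

end Pool.Agent.W_4d259d_h46.Pl
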