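import Pool.Agent.W_4d259d_h46.PlP

/-!
# Solving `∂̄` locally (module PL, file S)
-/

noncomputable section

namespace Pool.Agent.W_4d259d_h46.Pl

open MeasureTheory Set Filter Topology Metric
open scoped Real ENNReal ContDiff

variable {F : Type*} [NormedAddCommGroup F] [NormedSpace ℂ F]

/-- `l g` is `C¹` on `ℂ` when `g` is `C¹` on an open set containing the support of `l`. -/
theorem contDiff_cutoff {l : ℂ → ℂ} {g : ℂ → F} {U : Set ℂ} (hU : IsOpen U)
    (hl : ContDiff ℝ 1 l) (hls : tsupport l ⊆ U) (hg : ContDiffOn ℝ 1 g U) :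
    ContDiff ℝ 1 (fun z => l z • g z) := by
  rw [contDiff_iff_contDiffAt]
  intro z
  by_cases hz : z ∈ tsupport l
  · exact hl.contDiffAt.smul (hg.contDiffAt (hU.mem_nhds (hls hz)))
  · have h1 : (fun z => l z • g z) =ᶠ[𝓝 z] fun _ => (0 : F) := by
      filter_upwards [(isClosed_tsupport l).isOpen_compl.mem_nhds hz] with w hw
      rw [image_eq_zero_of_notMem_tsupport hw, zero_smul]
    exact contDiffAt_const.congr_of_eventuallyEq h1

theorem continuous_dbar {v : ℂ → F} (hv : ContDiff ℝ 1 v) : Continuous (dbar v) := by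
  have := continuousOn_dbar (u := v) isOpen_univ hv.contDiffOn
  rwa [← continuousOn_univ]

theorem dbar_off_tsupport {v : ℂ → F} {z : ℂ} (hz : z ∉ tsupport v) : dbar v z = 0 := by
  have h1 : v =ᶠ[𝓝 z] fun _ => (0 : F) := by
    filter_upwards [(isClosed_tsupport v).isOpen_compl.mem_nhds hz] with w hw
    exact image_eq_zero_of_notMem_tsupport hw
  rw [dbar_congr h1]
  exact dbar_eq_zero (differentiableAt_const _)

/-- `∂̄ v` is a density for `v` of class `C¹` with compact support. -/
theorem dens_dbar {v : ℂ → F} (hv : ContDiff ℝ 1 v) (hc : HasCompactSupport v) :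
    ∃ m : ℝ, Dens (dbar v) m (tsupport v) := by
  have h1 := continuous_dbar hv
  have h2 : HasCompactSupport (dbar v) := by
    refine HasCompactSupport.intro (K := tsupport v) hc fun z hz => dbar_off_tsupport hz
  obtain ⟨m, hm⟩ := h1.bounded_above_of_compact_support h2
  refine ⟨m, h1.aestronglyMeasurable, hm, fun w hw => dbar_off_tsupport hw,
    (isClosed_tsupport v).measurableSet, ?_⟩
  exact (IsCompact.measure_lt_top (μ := volume) hc).ne

theorem Dens.sub {η η' : ℂ → F} {m m' : ℝ} {S S' : Set ℂ} (h : Dens η m S) (h' : Dens η' m' S') :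
    Dens (fun w => η w - η' w) (m + m') (S ∪ S') := by
  refine ⟨h.meas.sub h'.meas, fun w => (norm_sub_le _ _).trans (add_le_add (h.le w) (h'.le w)),
    fun w hw => ?_, h.mS.union h'.mS, ?_⟩
  · rw [mem_union, not_or] at hw
    rw [h.off w hw.1, h'.off w hw.2, sub_zero]
  · exact (lt_of_le_of_lt (measure_union_le _ _)
      (ENNReal.add_lt_top.2 ⟨h.fin.lt_top, h'.fin.lt_top⟩)).ne

/-- Solution of `∂̄ v = η` modulo a local solution: if `g` is `C¹` on the open set `U` and
`dbar g = η` on `U`, then `g - T η` is holomorphic on `U`.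
Proof: near `z0 ∈ U` take a smooth compactly supported `l : ℂ → ℝ` with support in `U` and `l = 1`
near `z0`; `l g` (zero off `U`) is `C¹` with compact support, so
`l g - T η = T (dbar (l g)) - T η = T (l η + g dbar l - η)` by `T_dbar`, and this density
vanishes near `z0`; use `T_hol`. -/
theorem T_solve [CompleteSpace F] {η : ℂ → F} {m : ℝ} {S : Set ℂ} (h : Dens η m S) {U : Set ℂ}
    (hU : IsOpen U) {g : ℂ → F} (hg : ContDiffOn ℝ 1 g U) (he : ∀ z ∈ U, dbar g z = η z) :
    DifferentiableOn ℂ (fun z => g z - T η z) U := by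
  intro z0 hz0
  obtain ⟨r, hr, hball⟩ := Metric.nhds_basis_closedBall.mem_iff.1 (hU.mem_nhds hz0)
  let l : ContDiffBump z0 := ⟨r / 2, r, half_pos hr, half_lt_self hr⟩
  have hl : ContDiff ℝ 1 (fun z => ((l z : ℝ) : ℂ)) :=
    Complex.ofRealCLM.contDiff.comp l.contDiff
  have hts : tsupport (fun z => ((l z : ℝ) : ℂ)) ⊆ closedBall z0 r := by
    have h1 : tsupport (fun z => ((l z : ℝ) : ℂ)) ⊆ tsupport l := by
      refine closure_mono fun z hz => ?_
      rw [Function.mem_support] at hz ⊢
      intro h2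
      exact hz (by rw [h2]; simp)
    refine h1.trans ?_
    rw [l.tsupport_eq]
  have hv := contDiff_cutoff hU hl (hts.trans hball) hg
  have hvs : tsupport (fun z => ((l z : ℝ) : ℂ) • g z) ⊆ closedBall z0 r := by
    refine (closure_mono fun z hz => ?_).trans hts
    rw [Function.mem_support] at hz ⊢
    intro h2
    exact hz (by rw [h2, zero_smul])
  have hvc : HasCompactSupport (fun z => ((l z : ℝ) : ℂ) • g z) :=
    (isCompact_closedBall z0 r).of_isClosed_subset (isClosed_tsupport _) hvs
  obtain ⟨m', hm'⟩ := dens_dbar hv hvc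
  have hone : ∀ z ∈ ball z0 (r / 2), ((l z : ℝ) : ℂ) • g z = g z := by
    intro z hz
    rw [l.one_of_mem_closedBall (ball_subset_closedBall hz)]
    simp
  have hsub : ball z0 (r / 2) ⊆ U :=
    (ball_subset_ball (by linarith)).trans (ball_subset_closedBall.trans hball)
  have hzero : ∀ w ∈ ball z0 (r / 2), dbar (fun z => ((l z : ℝ) : ℂ) • g z) w - η w = 0 := by
    intro w hw
    have h3 : (fun z => ((l z : ℝ) : ℂ) • g z) =ᶠ[𝓝 w] g := by
      filter_upwards [isOpen_ball.mem_nhds hw] with z hz using hone z hz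
    rw [dbar_congr h3, he w (hsub hw), sub_self]
  have h4 := T_hol (hm'.sub h) isOpen_ball hzero
  have h5 : DifferentiableAt ℂ (T (fun w => dbar (fun z => ((l z : ℝ) : ℂ) • g z) w - η w)) z0 :=
    h4.differentiableAt (isOpen_ball.mem_nhds (mem_ball_self (half_pos hr)))
  refine (h5.congr_of_eventuallyEq ?_).differentiableWithinAt
  filter_upwards [isOpen_ball.mem_nhds (mem_ball_self (half_pos hr))] with z hz
  rw [T_sub hm' h, T_dbar hv hvc, hone z hz]

end Pool.Agent.W_4d259d_h46.Pl
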