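import Pool.Agent.W_4d259d_h46.PlB2
import Pool.Agent.W_4d259d_h46.PlS

/-!
# Planar bump, part 3: `E0 = g0 - T (∂̄ g0 1_W)` (module PL)
-/

noncomputable section

namespace Pool.Agent.W_4d259d_h46.Pl

open MeasureTheory Set Filter Topology Metric
open scoped Real ENNReal

variable {E : Type*} [NormedAddCommGroup E] [NormedSpace ℂ E]

/-- `E0 = g0 - T (∂̄ g0 1_W)`. -/
def E0 (g0 : ℂ → E) (W : Set ℂ) (z : ℂ) : E := g0 z - T (W.indicator (dbar g0)) z

/-- `E0` is holomorphic on `W` (`T_solve`). -/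
theorem E0_hol [CompleteSpace E] {g0 : ℂ → E} {N' : Set ℂ} (hN' : IsOpen N')
    (hg0 : ContDiffOn ℝ 1 g0 N') {W : Set ℂ} (hW : IsOpen W) (hWN : W ⊆ N')
    (hWf : volume W ≠ ∞) {m : ℝ} (hm0 : 0 ≤ m) (hm : ∀ z ∈ W, ‖dbar g0 z‖ ≤ m) :
    DifferentiableOn ℂ (E0 g0 W) W :=
  T_solve (dens_W hN' hg0 hW hWN hWf hm0 hm) hW (hg0.mono hWN)
    (fun z hz => (indicator_of_mem hz _).symm)

/-- `T (∂̄ g0 1_W)` is holomorphic on every open set `U` with `∂̄ g0 = 0` on `U ∩ W` (`T_hol`). -/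
theorem TW_hol [CompleteSpace E] {g0 : ℂ → E} {N' : Set ℂ} (hN' : IsOpen N')
    (hg0 : ContDiffOn ℝ 1 g0 N') {W : Set ℂ} (hW : IsOpen W) (hWN : W ⊆ N')
    (hWf : volume W ≠ ∞) {m : ℝ} (hm0 : 0 ≤ m) (hm : ∀ z ∈ W, ‖dbar g0 z‖ ≤ m)
    {U : Set ℂ} (hU : IsOpen U) (h0 : ∀ z ∈ U ∩ W, dbar g0 z = 0) :
    DifferentiableOn ℂ (T (W.indicator (dbar g0))) U := by
  refine T_hol (dens_W hN' hg0 hW hWN hWf hm0 hm) hU fun w hw => ?_
  by_cases hwW : w ∈ W
  · rw [indicator_of_mem hwW]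
    exact h0 w ⟨hw, hwW⟩
  · exact indicator_of_notMem hwW _

/-- From the estimate off the discs `ball j (h/4)` to the discs `ball j (h/2)`, without the pole
of `j`.  Proof: for `h/4 ≤ |z-j| < h/2` all `|z-i| ≥ h/4` (`lat_dist`), so
`E0 z + Σ_{i≠j} c_i/(z-i) - g0 j = (E0 z + Σ_i c_i/(z-i) - g0 z) - c_j/(z-j) + (g0 z - g0 j)` has
norm `≤ κ + m h²/(h/4) + L h`; for `|z-j| < h/4` use the maximum principle on `closedBall j (h/4)`
(the function is holomorphic on `ball j (h/2)`: `|z-i| ≥ h/2` for `i ≠ j`). -/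
theorem core_adm [CompleteSpace E] {g0 : ℂ → E} {W : Set ℂ}
    (hE : DifferentiableOn ℂ (E0 g0 W) W) {h : ℝ} (hh : 0 < h) {J : Finset ℂ} (hJ : IsLat h J)
    {c : ℂ → E} {m L κ : ℝ} (hc : ∀ j ∈ J, ‖c j‖ ≤ m * h ^ 2)
    (hbW : ∀ j ∈ J, ball j (h / 2) ⊆ W)
    (hL : ∀ j ∈ J, ∀ z ∈ ball j (h / 2), ‖g0 z - g0 j‖ ≤ L * h)
    (hest : ∀ z, (∀ j ∈ J, h / 4 ≤ ‖z - j‖) →
      ‖T (W.indicator (dbar g0)) z - ∑ j ∈ J, (z - j)⁻¹ • c j‖ ≤ κ) :
    ∀ j ∈ J, ∀ z ∈ ball j (h / 2),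
      ‖E0 g0 W z + ∑ i ∈ J.erase j, (z - i)⁻¹ • c i - g0 j‖ ≤ κ + (4 * m + L) * h := by
  intro j hj
  -- points at distance at least `h/4`
  have hfar : ∀ z ∈ ball j (h / 2), h / 4 ≤ ‖z - j‖ →
      ‖E0 g0 W z + ∑ i ∈ J.erase j, (z - i)⁻¹ • c i - g0 j‖ ≤ κ + (4 * m + L) * h := by
    intro z hz hz4
    have hall : ∀ i ∈ J, h / 4 ≤ ‖z - i‖ := by
      intro i hi
      by_cases hij : i = j
      · rw [hij]; exact hz4
      · have := lat_dist hh hJ hi hj hij hz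
        linarith
    have h1 := hest z hall
    have hpos : 0 < ‖z - j‖ := by linarith
    have h2 : ‖(z - j)⁻¹ • c j‖ ≤ 4 * m * h := by
      rw [norm_smul, norm_inv, inv_mul_le_iff₀ hpos]
      calc ‖c j‖ ≤ m * h ^ 2 := hc j hj
        _ = (h / 4) * (4 * m * h) := by ring
        _ ≤ ‖z - j‖ * (4 * m * h) := by
            have hm : 0 ≤ m := by
              have := (norm_nonneg _).trans (hc j hj)
              have h2 : 0 < h ^ 2 := by positivity
              nlinarith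
            have : 0 ≤ 4 * m * h := by positivity
            exact mul_le_mul_of_nonneg_right hz4 this
    have h3 := hL j hj z hz
    have hs : ∑ i ∈ J, (z - i)⁻¹ • c i = (z - j)⁻¹ • c j + ∑ i ∈ J.erase j, (z - i)⁻¹ • c i :=
      (Finset.add_sum_erase J (fun i => (z - i)⁻¹ • c i) hj).symm
    have heq : E0 g0 W z + ∑ i ∈ J.erase j, (z - i)⁻¹ • c i - g0 j =
        -(T (W.indicator (dbar g0)) z - ∑ j ∈ J, (z - j)⁻¹ • c j) +
          (-((z - j)⁻¹ • c j) + (g0 z - g0 j)) := by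
      rw [hs]
      unfold E0
      abel
    rw [heq]
    calc _ ≤ ‖-(T (W.indicator (dbar g0)) z - ∑ j ∈ J, (z - j)⁻¹ • c j)‖ +
          (‖-((z - j)⁻¹ • c j)‖ + ‖g0 z - g0 j‖) :=
          (norm_add_le _ _).trans (add_le_add le_rfl (norm_add_le _ _))
      _ ≤ κ + (4 * m * h + L * h) := by
          rw [norm_neg, norm_neg]
          exact add_le_add h1 (add_le_add h2 h3)
      _ = κ + (4 * m + L) * h := by ring
  intro z hz
  by_cases hz4 : h / 4 ≤ ‖z - j‖
  · exact hfar z hz hz4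
  · push Not at hz4
    have hhol : DifferentiableOn ℂ
        (fun z => E0 g0 W z + ∑ i ∈ J.erase j, (z - i)⁻¹ • c i - g0 j) (ball j (h / 2)) := by
      refine DifferentiableOn.sub (DifferentiableOn.add (hE.mono (hbW j hj)) ?_)
        (differentiableOn_const _)
      refine DifferentiableOn.fun_sum fun i hi => ?_
      refine DifferentiableOn.smul_const ?_ _
      refine DifferentiableOn.inv (by fun_prop) fun w hw => ?_
      have := lat_dist hh hJ (Finset.mem_of_mem_erase hi) hj (Finset.ne_of_mem_erase hi) hw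
      intro h0
      rw [h0, norm_zero] at this
      linarith
    have hclos : closure (ball j (h / 4)) ⊆ ball j (h / 2) := by
      refine closure_ball_subset_closedBall.trans (closedBall_subset_ball (by linarith))
    refine Complex.norm_le_of_forall_mem_frontier_norm_le (U := ball j (h / 4))
      (f := fun z => E0 g0 W z + ∑ i ∈ J.erase j, (z - i)⁻¹ • c i - g0 j)
      isBounded_ball ⟨hhol.mono (subset_closure.trans hclos), hhol.continuousOn.mono hclos⟩
      (fun w hw => ?_) (subset_closure (mem_ball_iff_norm.2 hz4))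
    have hw2 := frontier_ball_subset_sphere hw
    rw [mem_sphere_iff_norm] at hw2
    exact hfar w (mem_ball_iff_norm.2 (by rw [hw2]; linarith)) hw2.ge

end Pool.Agent.W_4d259d_h46.Pl
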