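import Pool.Agent.W_4d259d_h46.PlLat
import Pool.Agent.W_4d259d_h46.PlAnn

/-!
# The holes lemma (module PL)
-/

noncomputable section

namespace Pool.Agent.W_4d259d_h46.Pl

open MeasureTheory Set Filter Topology Metric
open scoped Real ENNReal

variable {E : Type*} [NormedAddCommGroup E] [NormedSpace ℂ E]

/-- Data of the holes lemma: centres `J` in the lattice `h ℤ²`, residues `c j`, base points `x j`
and the families `Ψ j ζ p` (`ζ ∈ ball 0 ρ`, `p ∈ ball (x j) δ`), bounded by `M`. -/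
structure HoleData (E : Type*) [NormedAddCommGroup E] [NormedSpace ℂ E] (h m δ ρ M : ℝ) where
  J : Finset ℂ
  lat : IsLat h J
  bd : ∀ j ∈ J, ‖j‖ ≤ 3
  c : ℂ → E
  c_le : ∀ j ∈ J, ‖c j‖ ≤ m * h ^ 2
  x : ℂ → E
  Ψ : ℂ → ℂ → E → E
  hol : ∀ j ∈ J, DifferentiableOn ℂ (fun q : ℂ × E => Ψ j q.1 q.2)
    (ball (0 : ℂ) ρ ×ˢ ball (x j) δ)
  le : ∀ j ∈ J, ∀ ζ ∈ ball (0 : ℂ) ρ, ∀ p ∈ ball (x j) δ, ‖Ψ j ζ p‖ ≤ M

namespace HoleData

variable {h m δ ρ M : ℝ} (D : HoleData E h m δ ρ M)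

/-- `ε = (2m/δ + 1) h²`. -/
def eps (_ : HoleData E h m δ ρ M) : ℝ := (2 * m / δ + 1) * h ^ 2

/-- `y_j(z) = ζ² Ψ_j(ζ, p_j(z))`, `ζ = ε/(z-j)`. -/
def yy (p : ℂ → ℂ → E) (j z : ℂ) : E :=
  ((D.eps : ℂ) / (z - j)) ^ 2 • D.Ψ j ((D.eps : ℂ) / (z - j)) (p j z)

/-- `S(z) = Σ_j (c_j/(z-j) + y_j⁻(z))`. -/
def SS (p : ℂ → ℂ → E) (z : ℂ) : E :=
  ∑ j ∈ D.J, ((z - j)⁻¹ • D.c j + am j (h / 2) (D.yy p j) z)

/-- Admissible right hand sides `G`. -/
def Adm (G : ℂ → E) : Prop :=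
  ∀ j ∈ D.J, DifferentiableOn ℂ G (ball j (h / 2)) ∧
    ∀ z ∈ ball j (h / 2), ‖G z + ∑ i ∈ D.J.erase j, (z - i)⁻¹ • D.c i - D.x j‖ ≤ δ / 4

/-- `p` solves the system (*) for `G`:
`p_j + y_j⁺ = G + Σ_{i≠j} (c_i/(z-i) + y_i⁻)` on `ball j (h/2)`. -/
def Sol (G : ℂ → E) (p : ℂ → ℂ → E) : Prop :=
  ∀ j ∈ D.J, DifferentiableOn ℂ (p j) (ball j (h / 2)) ∧
    ∀ z ∈ ball j (h / 2), ‖p j z - D.x j‖ ≤ δ / 2 ∧
      p j z + ap j (h / 2) (D.yy p j) z =
        G z + ∑ i ∈ D.J.erase j, ((z - i)⁻¹ • D.c i + am i (h / 2) (D.yy p i) z)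

end HoleData

/-- Lipschitz bound for a bounded holomorphic map on a ball of radius `δ`, on the half ball. -/
theorem hole_lip {δ M : ℝ} (hδ : 0 < δ) (hM : 0 ≤ M) {x : E} {f : E → E}
    (hf : DifferentiableOn ℂ f (ball x δ)) (hb : ∀ p ∈ ball x δ, ‖f p‖ ≤ M) {p p' : E}
    (hp : ‖p - x‖ ≤ δ / 2) (hp' : ‖p' - x‖ ≤ δ / 2) : ‖f p - f p'‖ ≤ 4 * M / δ * ‖p - p'‖ := by
  have hsub : ball p' (δ / 2) ⊆ ball x δ := by
    intro q hq
    rw [mem_ball, dist_eq_norm] at hq ⊢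
    have h1 : q - x = (q - p') + (p' - x) := by abel
    rw [h1]
    have h2 := norm_add_le (q - p') (p' - x)
    linarith
  have hpx : p ∈ ball x δ := by rw [mem_ball, dist_eq_norm]; linarith
  have hpx' : p' ∈ ball x δ := by rw [mem_ball, dist_eq_norm]; linarith
  have h2M : ∀ q ∈ ball x δ, dist (f q) (f p') ≤ 2 * M := by
    intro q hq
    rw [dist_eq_norm]
    have h1 := norm_sub_le (f q) (f p')
    have h2 := hb q hq
    have h3 := hb p' hpx'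
    linarith
  rcases lt_or_ge ‖p - p'‖ (δ / 2) with h | h
  · have h1 := Complex.dist_le_div_mul_dist_of_mapsTo_ball (hf.mono hsub) (R₂ := 2 * M)
      (fun q hq => mem_closedBall.2 (h2M q (hsub hq)))
      (show p ∈ ball p' (δ / 2) by rw [mem_ball, dist_eq_norm]; exact h)
    rw [dist_eq_norm, dist_eq_norm] at h1
    have h2 : 2 * M / (δ / 2) = 4 * M / δ := by field_simp; ring
    rwa [h2] at h1
  · have h1 := h2M p hpx
    rw [dist_eq_norm] at h1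
    refine h1.trans ?_
    have h2 : 4 * M / δ * (δ / 2) = 2 * M := by field_simp; ring
    calc 2 * M = 4 * M / δ * (δ / 2) := h2.symm
      _ ≤ 4 * M / δ * ‖p - p'‖ := mul_le_mul_of_nonneg_left h (by positivity)

/-- Estimates for `y_j`: for small `h` (depending on `m δ ρ M`), if `p j` is holomorphic on
`ball j (h/2)` with `|p j - x j| ≤ δ/2` there, then `y_j` satisfies `AnnHyp j (h/2) (C h²)`, and it
is Lipschitz in `p j` with constant `C h²` (Cauchy estimate for `Ψ j ζ` on `ball (x j) δ`). -/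
theorem hole_yy [CompleteSpace E] {m δ ρ M : ℝ} (hm : 0 ≤ m) (hδ : 0 < δ) (hρ : 0 < ρ)
    (hM : 0 ≤ M) :
    ∃ h0 > 0, ∃ C > 0, h0 ≤ 1 ∧ ∀ h, 0 < h → h ≤ h0 → ∀ D : HoleData E h m δ ρ M,
      (∀ j ∈ D.J, ∀ z ∈ ann j (h / 2), ((D.eps : ℂ) / (z - j)) ∈ ball (0 : ℂ) ρ) ∧
      (∀ p : ℂ → ℂ → E, ∀ j ∈ D.J, DifferentiableOn ℂ (p j) (ball j (h / 2)) →
        (∀ z ∈ ball j (h / 2), ‖p j z - D.x j‖ ≤ δ / 2) →
        AnnHyp j (h / 2) (C * h ^ 2) (D.yy p j)) ∧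
      (∀ p p' : ℂ → ℂ → E, ∀ j ∈ D.J, ∀ z ∈ ann j (h / 2),
        ‖p j z - D.x j‖ ≤ δ / 2 → ‖p' j z - D.x j‖ ≤ δ / 2 →
        ‖D.yy p j z - D.yy p' j z‖ ≤ C * h ^ 2 * ‖p j z - p' j z‖) := by
  set K : ℝ := 2 * m / δ + 1 with hK
  have hK1 : 1 ≤ K := by
    have : 0 ≤ 2 * m / δ := by positivity
    linarith
  have hK0 : 0 < K := by linarith
  refine ⟨min 1 (ρ / (8 * K)), lt_min one_pos (by positivity), 64 * K ^ 2 * (M + 4 * M / δ + 1),
    by positivity, min_le_left _ _, ?_⟩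
  intro h hh0 hh D
  have hhρ : 8 * K * h ≤ ρ := by
    have h1 := hh.trans (min_le_right _ _)
    rw [le_div_iff₀ (by positivity)] at h1
    linarith
  have heps : D.eps = K * h ^ 2 := rfl
  have hannball : ∀ j : ℂ, ann j (h / 2) ⊆ ball j (h / 2) := by
    intro j z hz
    rw [mem_ball, dist_eq_norm]
    exact hz.2
  have hzeta : ∀ j : ℂ, ∀ z ∈ ann j (h / 2), ‖((D.eps : ℂ) / (z - j))‖ < 8 * K * h := by
    intro j z hz
    have h1 : h / 8 < ‖z - j‖ := by have := hz.1; linarith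
    have h2 : 0 < ‖z - j‖ := by linarith
    rw [norm_div, Complex.norm_real, Real.norm_eq_abs, heps, abs_of_pos (by positivity),
      div_lt_iff₀ h2]
    calc K * h ^ 2 = 8 * K * h * (h / 8) := by ring
      _ < 8 * K * h * ‖z - j‖ := mul_lt_mul_of_pos_left h1 (by positivity)
  have hzb : ∀ j : ℂ, ∀ z ∈ ann j (h / 2), ((D.eps : ℂ) / (z - j)) ∈ ball (0 : ℂ) ρ := by
    intro j z hz
    rw [mem_ball_zero_iff]
    exact (hzeta j z hz).trans_le hhρ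
  have hzsq : ∀ j : ℂ, ∀ z ∈ ann j (h / 2), ‖((D.eps : ℂ) / (z - j)) ^ 2‖ ≤ 64 * K ^ 2 * h ^ 2 := by
    intro j z hz
    rw [norm_pow]
    calc ‖((D.eps : ℂ) / (z - j))‖ ^ 2 ≤ (8 * K * h) ^ 2 :=
          pow_le_pow_left₀ (norm_nonneg _) (hzeta j z hz).le 2
      _ = 64 * K ^ 2 * h ^ 2 := by ring
  refine ⟨fun j _ z hz => hzb j z hz, ?_, ?_⟩
  · intro p j hj hpd hpx
    have hin : ∀ z ∈ ann j (h / 2), p j z ∈ ball (D.x j) δ := by
      intro z hz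
      rw [mem_ball, dist_eq_norm]
      have := hpx z (hannball j hz)
      linarith
    refine ⟨by positivity, ?_, ?_⟩
    · have hne : ∀ z ∈ ann j (h / 2), z - j ≠ 0 := by
        intro z hz h0
        have h1 := hz.1
        rw [h0, norm_zero] at h1
        linarith
      have hd1 : DifferentiableOn ℂ (fun z : ℂ => (D.eps : ℂ) / (z - j)) (ann j (h / 2)) :=
        (differentiableOn_const _).div ((differentiableOn_id).sub (differentiableOn_const _)) hne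
      have hd2 : DifferentiableOn ℂ (fun z : ℂ => ((D.eps : ℂ) / (z - j), p j z))
          (ann j (h / 2)) := hd1.prodMk (hpd.mono (hannball j))
      exact (hd1.pow 2).smul ((D.hol j hj).comp hd2 fun z hz => ⟨hzb j z hz, hin z hz⟩)
    · intro z hz
      unfold HoleData.yy
      rw [norm_smul]
      have h1 := D.le j hj _ (hzb j z hz) _ (hin z hz)
      calc ‖((D.eps : ℂ) / (z - j)) ^ 2‖ * ‖D.Ψ j ((D.eps : ℂ) / (z - j)) (p j z)‖
          ≤ 64 * K ^ 2 * h ^ 2 * M :=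
            mul_le_mul (hzsq j z hz) h1 (norm_nonneg _) (by positivity)
        _ ≤ 64 * K ^ 2 * (M + 4 * M / δ + 1) * h ^ 2 := by
            have h2 : 0 ≤ 64 * K ^ 2 * h ^ 2 * (4 * M / δ + 1) := by positivity
            nlinarith [h2]
  · intro p p' j hj z hz hp hp'
    unfold HoleData.yy
    rw [← smul_sub, norm_smul]
    have hf : DifferentiableOn ℂ (fun q : E => D.Ψ j ((D.eps : ℂ) / (z - j)) q)
        (ball (D.x j) δ) := by
      have h1 : DifferentiableOn ℂ (fun q : E => (((D.eps : ℂ) / (z - j)), q))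
          (ball (D.x j) δ) := (differentiableOn_const _).prodMk differentiableOn_id
      exact (D.hol j hj).comp h1 fun q hq => ⟨hzb j z hz, hq⟩
    have h1 := hole_lip hδ hM hf (fun q hq => D.le j hj _ (hzb j z hz) q hq) hp hp'
    calc ‖((D.eps : ℂ) / (z - j)) ^ 2‖ * ‖D.Ψ j ((D.eps : ℂ) / (z - j)) (p j z) -
            D.Ψ j ((D.eps : ℂ) / (z - j)) (p' j z)‖
        ≤ 64 * K ^ 2 * h ^ 2 * (4 * M / δ * ‖p j z - p' j z‖) :=
          mul_le_mul (hzsq j z hz) h1 (norm_nonneg _) (by positivity)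
      _ ≤ 64 * K ^ 2 * (M + 4 * M / δ + 1) * h ^ 2 * ‖p j z - p' j z‖ := by
          have h2 : 0 ≤ 64 * K ^ 2 * h ^ 2 * (M + 1) * ‖p j z - p' j z‖ := by positivity
          nlinarith [h2]

end Pool.Agent.W_4d259d_h46.Pl
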