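import Pool.Agent.W_4d259d_h46.PlA

/-!
# The Cauchy transform (module PL, file T)
-/

noncomputable section

namespace Pool.Agent.W_4d259d_h46.Pl

open MeasureTheory Set Filter Topology Metric
open scoped Real ENNReal

variable {F : Type*} [NormedAddCommGroup F] [NormedSpace ℂ F]

/-- The Cauchy transform `T η (z) = (1/π) ∫ η(w)/(z-w) dA(w)`. -/
def T (η : ℂ → F) (z : ℂ) : F := (π : ℂ)⁻¹ • ∫ w, (z - w)⁻¹ • η w

/-- `η` is a density: measurable, bounded by `m`, zero off the measurable set `S` of finite area. -/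
structure Dens (η : ℂ → F) (m : ℝ) (S : Set ℂ) : Prop where
  meas : AEStronglyMeasurable η volume
  le : ∀ w, ‖η w‖ ≤ m
  off : ∀ w, w ∉ S → η w = 0
  mS : MeasurableSet S
  fin : volume S ≠ ∞

omit [NormedSpace ℂ F] in
theorem Dens.m_nonneg {η : ℂ → F} {m : ℝ} {S : Set ℂ} (h : Dens η m S) : 0 ≤ m :=
  (norm_nonneg _).trans (h.le 0)

theorem Dens.norm_le {η : ℂ → F} {m : ℝ} {S : Set ℂ} (h : Dens η m S) (z w : ℂ) :
    ‖(z - w)⁻¹ • η w‖ ≤ S.indicator (fun w : ℂ => ‖z - w‖⁻¹) w * m := by
  by_cases hw : w ∈ S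
  · rw [indicator_of_mem hw, norm_smul, norm_inv]
    exact mul_le_mul_of_nonneg_left (h.le w) (inv_nonneg.2 (norm_nonneg _))
  · rw [h.off w hw, smul_zero, norm_zero, indicator_of_notMem hw, zero_mul]

theorem Dens.aesm {η : ℂ → F} {m : ℝ} {S : Set ℂ} (h : Dens η m S) (z : ℂ) :
    AEStronglyMeasurable (fun w => (z - w)⁻¹ • η w) volume := by
  refine AEStronglyMeasurable.smul ?_ h.meas
  exact (measurable_const.sub measurable_id).inv.aestronglyMeasurable

/-- The integrand of `T η z` is integrable. -/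
theorem Dens.integrable {η : ℂ → F} {m : ℝ} {S : Set ℂ} (h : Dens η m S) (z : ℂ) :
    Integrable (fun w => (z - w)⁻¹ • η w) := by
  have h1 := integrableOn_inv z h.mS h.fin
  have h2 : Integrable (fun w => S.indicator (fun w : ℂ => ‖z - w‖⁻¹) w * m) :=
    (h1.integrable_indicator h.mS).mul_const m
  exact h2.mono' (h.aesm z) (Eventually.of_forall fun w => h.norm_le z w)

theorem T_add {η η' : ℂ → F} {m m' : ℝ} {S S' : Set ℂ} (h : Dens η m S) (h' : Dens η' m' S')
    (z : ℂ) : T (fun w => η w + η' w) z = T η z + T η' z := by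
  rw [T, T, T, ← smul_add, ← integral_add (h.integrable z) (h'.integrable z)]
  simp only [smul_add]

theorem T_sub {η η' : ℂ → F} {m m' : ℝ} {S S' : Set ℂ} (h : Dens η m S) (h' : Dens η' m' S')
    (z : ℂ) : T (fun w => η w - η' w) z = T η z - T η' z := by
  rw [T, T, T, ← smul_sub, ← integral_sub (h.integrable z) (h'.integrable z)]
  simp only [smul_sub]

theorem T_smul (c : ℂ) (η : ℂ → F) (z : ℂ) : T (fun w => c • η w) z = c • T η z := by
  have h1 : (∫ w, (z - w)⁻¹ • c • η w) = c • ∫ w, (z - w)⁻¹ • η w := by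
    rw [← integral_smul]
    refine integral_congr_ae (Eventually.of_forall fun w => ?_)
    exact smul_comm _ _ _
  rw [T, T, h1, smul_comm]

/-- (T1) -/
theorem T_le {η : ℂ → F} {m : ℝ} {S : Set ℂ} (h : Dens η m S) (z : ℂ) :
    ‖T η z‖ ≤ 2 * m * √(volume.real S) := by
  have hm := h.m_nonneg
  have h1 := integrableOn_inv z h.mS h.fin
  have h2 : ‖∫ w, (z - w)⁻¹ • η w‖ ≤ m * (3 * √(π * volume.real S)) := by
    calc ‖∫ w, (z - w)⁻¹ • η w‖ ≤ ∫ w, ‖(z - w)⁻¹ • η w‖ := norm_integral_le_integral_norm _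
      _ ≤ ∫ w, S.indicator (fun w : ℂ => ‖z - w‖⁻¹) w * m :=
          integral_mono (h.integrable z).norm ((h1.integrable_indicator h.mS).mul_const m)
            fun w => h.norm_le z w
      _ = (∫ w in S, ‖z - w‖⁻¹) * m := by
          rw [integral_mul_const, integral_indicator h.mS]
      _ ≤ (3 * √(π * volume.real S)) * m :=
          mul_le_mul_of_nonneg_right (integral_inv_le z h.mS h.fin) hm
      _ = m * (3 * √(π * volume.real S)) := by ring
  rw [T, norm_smul, norm_inv, Complex.norm_real, Real.norm_of_nonneg Real.pi_pos.le]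
  have hp := Real.pi_pos
  have hsp : 3 * √π ≤ 2 * π := by
    have h3 : (3 : ℝ) < π := Real.pi_gt_three
    have h4 : √π * √π = π := Real.mul_self_sqrt hp.le
    have h5 : (3 / 2 : ℝ) ≤ √π := by
      rw [show (3 / 2 : ℝ) = √((3 / 2) ^ 2) from (Real.sqrt_sq (by norm_num)).symm]
      exact Real.sqrt_le_sqrt (by nlinarith)
    nlinarith [Real.sqrt_nonneg π]
  have hs : 0 ≤ √(volume.real S) := Real.sqrt_nonneg _
  calc π⁻¹ * ‖∫ w, (z - w)⁻¹ • η w‖ ≤ π⁻¹ * (m * (3 * √(π * volume.real S))) :=
        mul_le_mul_of_nonneg_left h2 (inv_nonneg.2 hp.le)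
    _ = π⁻¹ * (m * (3 * √π) * √(volume.real S)) := by
        rw [Real.sqrt_mul hp.le]; ring
    _ ≤ π⁻¹ * (m * (2 * π) * √(volume.real S)) := by
        refine mul_le_mul_of_nonneg_left ?_ (inv_nonneg.2 hp.le)
        exact mul_le_mul_of_nonneg_right (mul_le_mul_of_nonneg_left hsp hm) hs
    _ = 2 * m * √(volume.real S) := by field_simp

/-- (T2) `T η` is holomorphic on every open set on which `η` vanishes.
Proof: `hasDerivAt_integral_of_dominated_loc_of_deriv_le` at `z0 ∈ U`: for `|z - z0| < δ/2`,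
`ball z0 δ ⊆ U`, the integrand is zero for `w ∈ ball z0 δ` and `|z-w| ≥ δ/2` otherwise. -/
theorem T_hol {η : ℂ → F} {m : ℝ} {S : Set ℂ} (h : Dens η m S) [CompleteSpace F] {U : Set ℂ}
    (hU : IsOpen U) (h0 : ∀ w ∈ U, η w = 0) : DifferentiableOn ℂ (T η) U := by
  intro z0 hz0
  obtain ⟨δ, hδ, hball⟩ := Metric.isOpen_iff.1 hU z0 hz0
  have hm := h.m_nonneg
  have key : HasDerivAt (fun z => ∫ w, (z - w)⁻¹ • η w)
      (∫ w, (-((z0 - w) ^ 2)⁻¹) • η w) z0 := by
    refine (hasDerivAt_integral_of_dominated_loc_of_deriv_le (μ := volume)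
      (F := fun z w => (z - w)⁻¹ • η w) (F' := fun z w => (-((z - w) ^ 2)⁻¹) • η w)
      (bound := fun w => S.indicator (fun _ : ℂ => (1 : ℝ)) w * (4 / δ ^ 2 * m))
      (s := ball z0 (δ / 2)) (Metric.ball_mem_nhds z0 (half_pos hδ))
      (Eventually.of_forall fun z => h.aesm z) (h.integrable z0) ?_ ?_ ?_ ?_).2
    · refine AEStronglyMeasurable.smul ?_ h.meas
      exact (((measurable_const.sub measurable_id).pow_const 2).inv.neg).aestronglyMeasurable
    · refine Eventually.of_forall fun w z hz => ?_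
      by_cases hw : w ∈ ball z0 δ
      · simp only [h0 w (hball hw), smul_zero, norm_zero]
        exact mul_nonneg (indicator_nonneg (fun _ _ => zero_le_one) _) (by positivity)
      · by_cases hwS : w ∈ S
        · rw [indicator_of_mem hwS, one_mul, norm_smul, norm_neg, norm_inv, norm_pow]
          have h1 : δ / 2 ≤ ‖z - w‖ := by
            rw [mem_ball, not_lt] at hw
            rw [mem_ball] at hz
            have h2 : dist w z0 ≤ dist w z + dist z z0 := dist_triangle _ _ _
            rw [← dist_eq_norm, dist_comm]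
            linarith
          have h1' : 0 < ‖z - w‖ := lt_of_lt_of_le (half_pos hδ) h1
          have h3 : (‖z - w‖ ^ 2)⁻¹ ≤ 4 / δ ^ 2 := by
            rw [inv_le_comm₀ (by positivity) (by positivity)]
            have : (4 / δ ^ 2)⁻¹ = (δ / 2) ^ 2 := by field_simp; ring
            rw [this]
            exact pow_le_pow_left₀ (by positivity) h1 2
          exact mul_le_mul h3 (h.le w) (norm_nonneg _) (by positivity)
        · simp only [h.off w hwS, smul_zero, norm_zero]
          exact mul_nonneg (indicator_nonneg (fun _ _ => zero_le_one) _) (by positivity)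
    · refine Integrable.mul_const ?_ _
      exact (integrable_indicator_iff h.mS).2
        (integrableOn_const h.fin)
    · refine Eventually.of_forall fun w z hz => ?_
      by_cases hw : w ∈ ball z0 δ
      · simp only [h0 w (hball hw), smul_zero]
        exact hasDerivAt_const _ _
      · have hne : z - w ≠ 0 := by
          intro h5
          rw [sub_eq_zero] at h5
          subst h5
          exact hw (ball_subset_ball (by linarith) hz)
        have h6 : HasDerivAt (fun z : ℂ => (z - w)⁻¹) (-((z - w) ^ 2)⁻¹) z := by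
          have h7 := ((hasDerivAt_id z).sub_const w).inv hne
          refine h7.congr_deriv ?_
          simp only [id]
          field_simp
        exact h6.smul_const (η w)
  have h8 : HasDerivAt (T η) ((π : ℂ)⁻¹ • ∫ w, (-((z0 - w) ^ 2)⁻¹) • η w) z0 :=
    key.const_smul ((π : ℂ)⁻¹)
  exact h8.differentiableAt.differentiableWithinAt

end Pool.Agent.W_4d259d_h46.Pl
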