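import Pool.Agent.W_4d259d_h46.PlLat
import Pool.Agent.W_4d259d_h46.PlT

/-!
# Lattice sums and the cell estimate (module PL)
-/

noncomputable section

namespace Pool.Agent.W_4d259d_h46.Pl

open MeasureTheory Set Filter Topology Metric
open scoped Real ENNReal

theorem cells_meas (h : ℝ) (J : Finset ℂ) : MeasurableSet (⋃ j ∈ J, cell h j) :=
  J.measurableSet_biUnion fun j _ => measurableSet_cell h j

theorem cells_pw {h : ℝ} (hh : 0 < h) {J : Finset ℂ} (hJ : IsLat h J) :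
    Set.Pairwise (↑J) (Function.onFun Disjoint (cell h)) := by
  intro a ha b hb hab
  exact cell_disjoint hh hJ (Finset.mem_coe.1 ha) (Finset.mem_coe.1 hb) hab

theorem ae_ne (z : ℂ) : ∀ᵐ w : ℂ, w ≠ z := by
  rw [ae_iff]
  simp

/-- `Σ h² / |z - j| ≤ 240`: `h²/|z-j| ≤ 4 ∫_{cell} 1/|z-w|` by `cell_compare`, the cells are
disjoint, `integral_inv_le`. -/
theorem lat_sum {h : ℝ} (hh : 0 < h) (h1 : h ≤ 1) {J : Finset ℂ} (hJ : IsLat h J)
    (hb : ∀ j ∈ J, ‖j‖ ≤ 3) {z : ℂ} (hz : ∀ j ∈ J, h / 4 ≤ ‖z - j‖) :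
    ∑ j ∈ J, h ^ 2 / ‖z - j‖ ≤ 240 := by
  obtain ⟨hv1, hv2⟩ := volume_cells_le hh h1 hb
  have hI : ∀ j ∈ J, IntegrableOn (fun w : ℂ => ‖z - w‖⁻¹) (cell h j) := fun j _ =>
    integrableOn_inv z (measurableSet_cell h j) (volume_cell_ne j)
  have hterm : ∀ j ∈ J, h ^ 2 / ‖z - j‖ ≤ 4 * ∫ w in cell h j, ‖z - w‖⁻¹ := by
    intro j hj
    have hpos : 0 < ‖z - j‖ := lt_of_lt_of_le (by positivity) (hz j hj)
    have hc : h ^ 2 / ‖z - j‖ = ∫ w in cell h j, ‖z - j‖⁻¹ := by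
      rw [setIntegral_const, volume_cell hh, smul_eq_mul, div_eq_mul_inv]
    rw [hc, ← integral_const_mul]
    refine setIntegral_mono_on_ae (integrableOn_const (volume_cell_ne j)) ((hI j hj).const_mul 4)
      (measurableSet_cell h j) ?_
    filter_upwards [ae_ne z] with w hw hwc
    have hzw : 0 < ‖z - w‖ := norm_pos_iff.2 (sub_ne_zero.2 (Ne.symm hw))
    have h5 := cell_compare hh hwc (hz j hj)
    rw [← div_eq_mul_inv, le_div_iff₀ hzw, inv_mul_le_iff₀ hpos]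
    linarith
  calc ∑ j ∈ J, h ^ 2 / ‖z - j‖ ≤ ∑ j ∈ J, 4 * ∫ w in cell h j, ‖z - w‖⁻¹ :=
        Finset.sum_le_sum hterm
    _ = 4 * ∫ w in ⋃ j ∈ J, cell h j, ‖z - w‖⁻¹ := by
        rw [← Finset.mul_sum, integral_biUnion_finset J (fun j _ => measurableSet_cell h j)
          (cells_pw hh hJ) hI]
    _ ≤ 4 * (3 * √(π * volume.real (⋃ j ∈ J, cell h j))) := by
        have := integral_inv_le z (cells_meas h J) hv1
        linarith
    _ ≤ 4 * (3 * √(π * (25 * π))) := by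
        have := Real.sqrt_le_sqrt (mul_le_mul_of_nonneg_left hv2 Real.pi_pos.le)
        linarith
    _ = 60 * π := by
        rw [show π * (25 * π) = (5 * π) ^ 2 by ring, Real.sqrt_sq (by positivity)]
        ring
    _ ≤ 240 := by
        have := Real.pi_le_four
        linarith

theorem kernel_diff {h : ℝ} (hh : 0 < h) {j w z : ℂ} (hw : w ∈ cell h j)
    (hz : h / 4 ≤ ‖z - j‖) (hne : w ≠ z) :
    ‖(z - w)⁻¹ - (z - j)⁻¹‖ ≤ 3 * √h * ‖z - w‖ ^ (-(3 / 2) : ℝ) := by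
  have hzj : 0 < ‖z - j‖ := lt_of_lt_of_le (by positivity) hz
  have hzw : 0 < ‖z - w‖ := norm_pos_iff.2 (sub_ne_zero.2 (Ne.symm hne))
  have h5 := cell_compare hh hw hz
  have h6 := norm_sub_of_cell hw
  set a := ‖z - w‖ with ha
  set b := ‖z - j‖ with hbd
  have e1 : (z - w)⁻¹ - (z - j)⁻¹ = (w - j) * ((z - w)⁻¹ * (z - j)⁻¹) := by
    have h7 : z - w ≠ 0 := norm_pos_iff.1 hzw
    have h8 : z - j ≠ 0 := norm_pos_iff.1 hzj
    field_simp
    ring
  rw [e1, norm_mul, norm_mul, norm_inv, norm_inv, ← ha, ← hbd]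
  have e2 : a ^ (-(3 / 2) : ℝ) = (a * √a)⁻¹ := by
    rw [Real.rpow_neg hzw.le]
    congr 1
    rw [show (3 / 2 : ℝ) = 1 + 1 / 2 by norm_num, Real.rpow_add hzw, Real.rpow_one,
      ← Real.sqrt_eq_rpow]
  have e3 : √a * √h ≤ 4 * b := by
    rw [← Real.sqrt_mul hzw.le]
    refine Real.sqrt_le_iff.2 ⟨by positivity, ?_⟩
    have : a * h ≤ (4 * b) * (4 * b) := mul_le_mul h5 (by linarith) hh.le (by positivity)
    nlinarith
  have hsa : 0 < √a := Real.sqrt_pos.2 hzw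
  have hsh : 0 < √h := Real.sqrt_pos.2 hh
  have e4 : h = √h * √h := (Real.mul_self_sqrt hh.le).symm
  rw [e2]
  calc ‖w - j‖ * (a⁻¹ * b⁻¹) ≤ (3 / 4 * h) * (a⁻¹ * b⁻¹) :=
        mul_le_mul_of_nonneg_right h6 (by positivity)
    _ ≤ (3 / 4 * h) * (a⁻¹ * (4 / (√a * √h))) := by
        refine mul_le_mul_of_nonneg_left (mul_le_mul_of_nonneg_left ?_ (by positivity))
          (by positivity)
        rw [inv_le_comm₀ hzj (by positivity), inv_div]
        rw [div_le_iff₀ (by norm_num)]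
        linarith
    _ = 3 * √h * (a * √a)⁻¹ := by
        have : (3 / 4 * h) * (a⁻¹ * (4 / (√a * √h))) = 3 * (h / √h) * (a * √a)⁻¹ := by
          field_simp
        rw [this, Real.div_sqrt]

/-- The cell estimate: for a density `η` bounded by `m` and `c j = (1/π) ∫_{cell j} η`,
`|T (η 1_{∪ cells})(z) - Σ c j/(z-j)| ≤ 200 m √h` if `|z-j| ≥ h/4` for all `j`.
Proof: for `w ∈ cell j`, `|1/(z-w) - 1/(z-j)| ≤ h/(|z-w||z-j|) ≤ √(20 h) |z-w|^(-3/2)`, since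
`|z-j| ≥ |z-w|/4` and `|z-j| ≥ h/4`; integrate with `integral_inv32_le`. -/
theorem cell_estimate {F : Type*} [NormedAddCommGroup F] [NormedSpace ℂ F] [CompleteSpace F]
    {h : ℝ} (hh : 0 < h) (h1 : h ≤ 1) {J : Finset ℂ} (hJ : IsLat h J) (hb : ∀ j ∈ J, ‖j‖ ≤ 3)
    {η : ℂ → F} {m : ℝ} {S : Set ℂ} (hη : Dens η m S) {z : ℂ} (hz : ∀ j ∈ J, h / 4 ≤ ‖z - j‖) :
    ‖T ((⋃ j ∈ J, cell h j).indicator η) z
      - ∑ j ∈ J, (z - j)⁻¹ • ((π : ℂ)⁻¹ • ∫ w in cell h j, η w)‖ ≤ 200 * m * √h := by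
  obtain ⟨hv1, hv2⟩ := volume_cells_le hh h1 hb
  have hm := hη.m_nonneg
  have hcm : ∀ j ∈ J, MeasurableSet (cell h j) := fun j _ => measurableSet_cell h j
  have hI1 : ∀ j ∈ J, IntegrableOn (fun w : ℂ => (z - w)⁻¹ • η w) (cell h j) := fun j _ =>
    (hη.integrable z).integrableOn
  have hI2 : ∀ j : ℂ, IntegrableOn η (cell h j) := fun j =>
    Measure.integrableOn_of_bounded (M := m) (volume_cell_ne j) hη.meas
      (Eventually.of_forall fun w => hη.le w)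
  have hI3 : ∀ j : ℂ, IntegrableOn (fun w : ℂ => (z - j)⁻¹ • η w) (cell h j) := fun j =>
    (hI2 j).smul _
  have e1 : T ((⋃ j ∈ J, cell h j).indicator η) z
      = (π : ℂ)⁻¹ • ∑ j ∈ J, ∫ w in cell h j, (z - w)⁻¹ • η w := by
    rw [T, ← integral_biUnion_finset J hcm (cells_pw hh hJ) hI1,
      ← integral_indicator (cells_meas h J)]
    congr 1
    refine integral_congr_ae (Eventually.of_forall fun w => ?_)
    by_cases hw : w ∈ ⋃ j ∈ J, cell h j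
    · simp only [indicator_of_mem hw]
    · simp only [indicator_of_notMem hw, smul_zero]
  have e2 : ∑ j ∈ J, (z - j)⁻¹ • ((π : ℂ)⁻¹ • ∫ w in cell h j, η w)
      = (π : ℂ)⁻¹ • ∑ j ∈ J, ∫ w in cell h j, (z - j)⁻¹ • η w := by
    rw [Finset.smul_sum]
    refine Finset.sum_congr rfl fun j _ => ?_
    rw [integral_smul, smul_comm]
  have e3 : (∑ j ∈ J, ∫ w in cell h j, (z - w)⁻¹ • η w)
      - ∑ j ∈ J, ∫ w in cell h j, (z - j)⁻¹ • η w
      = ∑ j ∈ J, ∫ w in cell h j, ((z - w)⁻¹ - (z - j)⁻¹) • η w := by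
    rw [← Finset.sum_sub_distrib]
    refine Finset.sum_congr rfl fun j hj => ?_
    rw [← integral_sub (hI1 j hj) (hI3 j)]
    simp only [sub_smul]
  have hI4 : ∀ j ∈ J, IntegrableOn (fun w : ℂ => ‖z - w‖ ^ (-(3 / 2) : ℝ)) (cell h j) :=
    fun j _ => integrableOn_inv32 z (measurableSet_cell h j) (volume_cell_ne j)
  have hterm : ∀ j ∈ J, ‖∫ w in cell h j, ((z - w)⁻¹ - (z - j)⁻¹) • η w‖
      ≤ (3 * √h * m) * ∫ w in cell h j, ‖z - w‖ ^ (-(3 / 2) : ℝ) := by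
    intro j hj
    rw [← integral_const_mul]
    refine norm_integral_le_of_norm_le ((hI4 j hj).const_mul _) ?_
    rw [ae_restrict_iff' (measurableSet_cell h j)]
    filter_upwards [ae_ne z] with w hw hwc
    rw [norm_smul]
    calc ‖(z - w)⁻¹ - (z - j)⁻¹‖ * ‖η w‖
        ≤ (3 * √h * ‖z - w‖ ^ (-(3 / 2) : ℝ)) * m :=
          mul_le_mul (kernel_diff hh hwc (hz j hj) hw) (hη.le w) (norm_nonneg _)
            (by positivity)
      _ = (3 * √h * m) * ‖z - w‖ ^ (-(3 / 2) : ℝ) := by ring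
  have hp := Real.pi_pos
  have hsum : ‖∑ j ∈ J, ∫ w in cell h j, ((z - w)⁻¹ - (z - j)⁻¹) • η w‖
      ≤ (3 * √h * m) * (29 * π) := by
    calc ‖∑ j ∈ J, ∫ w in cell h j, ((z - w)⁻¹ - (z - j)⁻¹) • η w‖
        ≤ ∑ j ∈ J, ‖∫ w in cell h j, ((z - w)⁻¹ - (z - j)⁻¹) • η w‖ := norm_sum_le _ _
      _ ≤ ∑ j ∈ J, (3 * √h * m) * ∫ w in cell h j, ‖z - w‖ ^ (-(3 / 2) : ℝ) :=
          Finset.sum_le_sum hterm
      _ = (3 * √h * m) * ∫ w in ⋃ j ∈ J, cell h j, ‖z - w‖ ^ (-(3 / 2) : ℝ) := by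
          rw [← Finset.mul_sum, integral_biUnion_finset J hcm (cells_pw hh hJ) hI4]
      _ ≤ (3 * √h * m) * (4 * π + volume.real (⋃ j ∈ J, cell h j)) :=
          mul_le_mul_of_nonneg_left (integral_inv32_le z (cells_meas h J) hv1) (by positivity)
      _ ≤ (3 * √h * m) * (29 * π) :=
          mul_le_mul_of_nonneg_left (by linarith) (by positivity)
  rw [e1, e2, ← smul_sub, e3, norm_smul, norm_inv, Complex.norm_real,
    Real.norm_of_nonneg hp.le]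
  calc π⁻¹ * ‖∑ j ∈ J, ∫ w in cell h j, ((z - w)⁻¹ - (z - j)⁻¹) • η w‖
      ≤ π⁻¹ * ((3 * √h * m) * (29 * π)) :=
        mul_le_mul_of_nonneg_left hsum (inv_nonneg.2 hp.le)
    _ = 87 * (m * √h) := by field_simp; ring
    _ ≤ 200 * (m * √h) := mul_le_mul_of_nonneg_right (by norm_num) (by positivity)
    _ = 200 * m * √h := by ring

end Pool.Agent.W_4d259d_h46.Pl
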