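import Pool.Agent.W_4d259d_h46.HB
import Pool.Agent.W_4d259d_h46.PlHole
import Pool.Agent.W_4d259d_h46.PlAnnB
import Pool.Agent.W_4d259d_h46.PlLatB

/-!
# The holes lemma (module PL)
-/

noncomputable section

namespace Pool.Agent.W_4d259d_h46.Pl

open MeasureTheory Set Filter Topology Metric TopologicalSpace
open scoped Real ENNReal

variable {E : Type*} [NormedAddCommGroup E] [NormedSpace ℂ E]

namespace HoleB

variable {h m δ ρ M : ℝ}

/-- Admissible families of functions. -/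
structure Ok (D : HoleData E h m δ ρ M) (p : ℂ → ℂ → E) : Prop where
  hol : ∀ j ∈ D.J, DifferentiableOn ℂ (p j) (ball j (h / 2))
  le : ∀ j ∈ D.J, ∀ z ∈ ball j (h / 2), ‖p j z - D.x j‖ ≤ δ / 2

/-- The estimates of `hole_yy`. -/
structure YH (D : HoleData E h m δ ρ M) (C1 : ℝ) : Prop where
  hpos : 0 < h
  hle : h ≤ 1
  cpos : 0 ≤ C1
  hann : ∀ p : ℂ → ℂ → E, ∀ j ∈ D.J, DifferentiableOn ℂ (p j) (ball j (h / 2)) →
        (∀ z ∈ ball j (h / 2), ‖p j z - D.x j‖ ≤ δ / 2) →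
        AnnHyp j (h / 2) (C1 * h ^ 2) (D.yy p j)
  hlip : ∀ p p' : ℂ → ℂ → E, ∀ j ∈ D.J, ∀ z ∈ ann j (h / 2),
        ‖p j z - D.x j‖ ≤ δ / 2 → ‖p' j z - D.x j‖ ≤ δ / 2 →
        ‖D.yy p j z - D.yy p' j z‖ ≤ C1 * h ^ 2 * ‖p j z - p' j z‖

variable {D : HoleData E h m δ ρ M} {C1 : ℝ} {p p' : ℂ → ℂ → E} {G G' : ℂ → E}

theorem ann_sub_ball {j : ℂ} {z : ℂ} (hz : z ∈ ann j (h / 2)) : z ∈ ball j (h / 2) := by
  rw [mem_ball_iff_norm]
  exact hz.2

theorem yann (Y : YH D C1) (o : Ok D p) {j : ℂ} (hj : j ∈ D.J) :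
    AnnHyp j (h / 2) (C1 * h ^ 2) (D.yy p j) := Y.hann p j hj (o.hol j hj) (o.le j hj)

theorem dann (Y : YH D C1) (o : Ok D p) (o' : Ok D p') {j : ℂ} (hj : j ∈ D.J) {t : ℝ}
    (ht : ∀ z ∈ ball j (h / 2), ‖p j z - p' j z‖ ≤ t) :
    AnnHyp j (h / 2) (C1 * h ^ 2 * t) (fun w => D.yy p j w - D.yy p' j w) := by
  refine ⟨(yann Y o hj).pos, (yann Y o hj).hol.sub (yann Y o' hj).hol, fun z hz => ?_⟩
  have hz' := ann_sub_ball hz
  have h1 := Y.hlip p p' j hj z hz (o.le j hj z hz') (o'.le j hj z hz')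
  have h2 : 0 ≤ C1 * h ^ 2 := mul_nonneg Y.cpos (sq_nonneg h)
  exact h1.trans (mul_le_mul_of_nonneg_left (ht z hz') h2)

theorem am_one (Y : YH D C1) (o : Ok D p) {j : ℂ} (hj : j ∈ D.J) {z : ℂ}
    (hz : h / 4 ≤ ‖z - j‖) :
    ‖am j (h / 2) (D.yy p j) z‖ ≤ C1 * h * (h ^ 2 / ‖z - j‖) := by
  have h1 := ann_am_le (yann Y o hj) (z := z) (by linarith)
  refine h1.trans (le_of_eq ?_)
  ring

theorem am_diff (Y : YH D C1) (o : Ok D p) (o' : Ok D p') {j : ℂ} (hj : j ∈ D.J) {t : ℝ}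
    (ht : ∀ z ∈ ball j (h / 2), ‖p j z - p' j z‖ ≤ t) {z : ℂ} (hz : h / 4 ≤ ‖z - j‖) :
    ‖am j (h / 2) (D.yy p j) z - am j (h / 2) (D.yy p' j) z‖
      ≤ C1 * h * t * (h ^ 2 / ‖z - j‖) := by
  have hh := Y.hpos
  rw [← ann_am_sub (yann Y o hj) (yann Y o' hj) (by linarith)]
  have h1 := ann_am_le (dann Y o o' hj ht) (z := z) (by linarith)
  refine h1.trans (le_of_eq ?_)
  ring

theorem lat_sum' (Y : YH D C1) {S : Finset ℂ} (hS : S ⊆ D.J) {z : ℂ}
    (hz : ∀ j ∈ S, h / 4 ≤ ‖z - j‖) : ∑ j ∈ S, h ^ 2 / ‖z - j‖ ≤ 240 :=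
  lat_sum Y.hpos Y.hle (fun j hj => D.lat j (hS hj)) (fun j hj => D.bd j (hS hj)) hz

theorem am_sum (Y : YH D C1) (o : Ok D p) {S : Finset ℂ} (hS : S ⊆ D.J) {z : ℂ}
    (hz : ∀ j ∈ S, h / 4 ≤ ‖z - j‖) :
    ‖∑ j ∈ S, am j (h / 2) (D.yy p j) z‖ ≤ 240 * C1 * h := by
  calc ‖∑ j ∈ S, am j (h / 2) (D.yy p j) z‖
      ≤ ∑ j ∈ S, C1 * h * (h ^ 2 / ‖z - j‖) :=
        norm_sum_le_of_le _ fun j hj => am_one Y o (hS hj) (hz j hj)
    _ = C1 * h * ∑ j ∈ S, h ^ 2 / ‖z - j‖ := by rw [Finset.mul_sum]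
    _ ≤ C1 * h * 240 :=
        mul_le_mul_of_nonneg_left (lat_sum' Y hS hz) (mul_nonneg Y.cpos Y.hpos.le)
    _ = 240 * C1 * h := by ring

theorem am_sum_diff (Y : YH D C1) (o : Ok D p) (o' : Ok D p') {t : ℝ} (ht0 : 0 ≤ t)
    (ht : ∀ j ∈ D.J, ∀ z ∈ ball j (h / 2), ‖p j z - p' j z‖ ≤ t) {S : Finset ℂ}
    (hS : S ⊆ D.J) {z : ℂ} (hz : ∀ j ∈ S, h / 4 ≤ ‖z - j‖) :
    ‖∑ j ∈ S, (am j (h / 2) (D.yy p j) z - am j (h / 2) (D.yy p' j) z)‖
      ≤ 240 * C1 * h * t := by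
  calc ‖∑ j ∈ S, (am j (h / 2) (D.yy p j) z - am j (h / 2) (D.yy p' j) z)‖
      ≤ ∑ j ∈ S, C1 * h * t * (h ^ 2 / ‖z - j‖) :=
        norm_sum_le_of_le _ fun j hj => am_diff Y o o' (hS hj) (ht j (hS hj)) (hz j hj)
    _ = C1 * h * t * ∑ j ∈ S, h ^ 2 / ‖z - j‖ := by rw [Finset.mul_sum]
    _ ≤ C1 * h * t * 240 :=
        mul_le_mul_of_nonneg_left (lat_sum' Y hS hz)
          (mul_nonneg (mul_nonneg Y.cpos Y.hpos.le) ht0)
    _ = 240 * C1 * h * t := by ring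

theorem far (Y : YH D C1) {j : ℂ} (hj : j ∈ D.J) {z : ℂ} (hz : z ∈ ball j (h / 2)) :
    ∀ i ∈ D.J.erase j, h / 2 ≤ ‖z - i‖ := fun _i hi =>
  lat_dist Y.hpos D.lat (Finset.mem_of_mem_erase hi) hj (Finset.ne_of_mem_erase hi) hz

variable (D) in
/-- The map whose fixed point is the solution. -/
def step (G : ℂ → E) (p : ℂ → ℂ → E) (j z : ℂ) : E :=
  G z + ∑ i ∈ D.J.erase j, ((z - i)⁻¹ • D.c i + am i (h / 2) (D.yy p i) z)
    - ap j (h / 2) (D.yy p j) z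

theorem step_hol [CompleteSpace E] (Y : YH D C1) (hG : D.Adm G) (o : Ok D p) {j : ℂ}
    (hj : j ∈ D.J) : DifferentiableOn ℂ (step D G p j) (ball j (h / 2)) := by
  have hh := Y.hpos
  refine (DifferentiableOn.add (hG j hj).1 ?_).sub (ann_ap_hol (yann Y o hj))
  refine DifferentiableOn.fun_sum fun i hi => ?_
  have hij : ∀ z ∈ ball j (h / 2), ∀ i ∈ D.J.erase j, h / 2 ≤ ‖z - i‖ := fun z hz => far Y hj hz
  refine DifferentiableOn.add ?_ ?_
  · refine DifferentiableOn.smul_const ?_ _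
    refine DifferentiableOn.inv (by fun_prop) fun z hz h0 => ?_
    have := hij z hz i hi
    rw [h0, norm_zero] at this
    linarith
  · refine (ann_am_hol (yann Y o (Finset.mem_of_mem_erase hi))).mono fun z hz => ?_
    have := hij z hz i hi
    change 3 * (h / 2) / 8 < ‖z - i‖
    linarith

theorem step_le [CompleteSpace E] (Y : YH D C1) (hG : D.Adm G) (o : Ok D p) {j : ℂ}
    (hj : j ∈ D.J) {z : ℂ} (hz : z ∈ ball j (h / 2)) :
    ‖step D G p j z - D.x j‖ ≤ δ / 4 + 245 * C1 * h := by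
  have hh := Y.hpos
  have hh1 := Y.hle
  have e : step D G p j z - D.x j
      = (G z + ∑ i ∈ D.J.erase j, (z - i)⁻¹ • D.c i - D.x j)
        + ∑ i ∈ D.J.erase j, am i (h / 2) (D.yy p i) z - ap j (h / 2) (D.yy p j) z := by
    rw [step, Finset.sum_add_distrib]
    abel
  have h1 := (hG j hj).2 z hz
  have h2 := am_sum Y o (Finset.erase_subset j D.J) (z := z)
    (fun i hi => by have := far Y hj hz i hi; linarith)
  have h3 := ann_ap_le (yann Y o hj) hz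
  have h4 : C1 * h ^ 2 ≤ C1 * h := by
    have : h ^ 2 ≤ h := by nlinarith
    exact mul_le_mul_of_nonneg_left this Y.cpos
  rw [e]
  refine (norm_sub_le _ _).trans ?_
  refine (add_le_add (norm_add_le _ _) le_rfl).trans ?_
  linarith

theorem step_diff [CompleteSpace E] (Y : YH D C1) (o : Ok D p) (o' : Ok D p') {s t : ℝ}
    (ht0 : 0 ≤ t) (ht : ∀ j ∈ D.J, ∀ z ∈ ball j (h / 2), ‖p j z - p' j z‖ ≤ t)
    (hs : ∀ j ∈ D.J, ∀ z ∈ ball j (h / 2), ‖G z - G' z‖ ≤ s) {j : ℂ}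
    (hj : j ∈ D.J) {z : ℂ} (hz : z ∈ ball j (h / 2)) :
    ‖step D G p j z - step D G' p' j z‖ ≤ s + 245 * C1 * h * t := by
  have hh := Y.hpos
  have hh1 := Y.hle
  have e : step D G p j z - step D G' p' j z = (G z - G' z)
        + ∑ i ∈ D.J.erase j, (am i (h / 2) (D.yy p i) z - am i (h / 2) (D.yy p' i) z)
        - (ap j (h / 2) (D.yy p j) z - ap j (h / 2) (D.yy p' j) z) := by
    simp only [step, Finset.sum_add_distrib, Finset.sum_sub_distrib]
    abel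
  have h1 := hs j hj z hz
  have h2 := am_sum_diff Y o o' ht0 ht (Finset.erase_subset j D.J) (z := z)
    (fun i hi => by have := far Y hj hz i hi; linarith)
  have h3 := ann_ap_le (dann Y o o' hj (ht j hj)) hz
  rw [ann_ap_sub (yann Y o hj) (yann Y o' hj) hz] at h3
  have h4 : C1 * h ^ 2 * t ≤ C1 * h * t := by
    have : h ^ 2 ≤ h := by nlinarith
    exact mul_le_mul_of_nonneg_right (mul_le_mul_of_nonneg_left this Y.cpos) ht0
  rw [e]
  refine (norm_sub_le _ _).trans ?_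
  refine (add_le_add (norm_add_le _ _) le_rfl).trans ?_
  linarith

/-- Two solutions are close if the right hand sides are close. -/
theorem sol_close [CompleteSpace E] (Y : YH D C1) (hC : 245 * C1 * h ≤ 1 / 2) (o : Ok D p)
    (o' : Ok D p') (hp : ∀ j ∈ D.J, ∀ z ∈ ball j (h / 2), p j z = step D G p j z)
    (hp' : ∀ j ∈ D.J, ∀ z ∈ ball j (h / 2), p' j z = step D G' p' j z) {t : ℝ} (ht0 : 0 ≤ t)
    (hs : ∀ j ∈ D.J, ∀ z ∈ ball j (h / 2), ‖G z - G' z‖ ≤ t) :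
    ∀ j ∈ D.J, ∀ z ∈ ball j (h / 2), ‖p j z - p' j z‖ ≤ 2 * t := by
  have key : ∀ n : ℕ, ∀ j ∈ D.J, ∀ z ∈ ball j (h / 2),
      ‖p j z - p' j z‖ ≤ 2 * t + |δ| * (1 / 2) ^ n := by
    intro n
    induction n with
    | zero =>
      intro j hj z hz
      have h1 := o.le j hj z hz
      have h2 := o'.le j hj z hz
      have h3 : ‖p j z - p' j z‖ ≤ ‖p j z - D.x j‖ + ‖p' j z - D.x j‖ := by
        rw [show p j z - p' j z = (p j z - D.x j) - (p' j z - D.x j) by abel]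
        exact norm_sub_le _ _
      have h4 := le_abs_self δ
      simp only [pow_zero, mul_one]
      linarith
    | succ n ih =>
      intro j hj z hz
      have hb : (0 : ℝ) ≤ 2 * t + |δ| * (1 / 2) ^ n := by positivity
      have h1 := step_diff Y o o' hb ih hs hj hz
      rw [← hp j hj z hz, ← hp' j hj z hz] at h1
      have h2 : 245 * C1 * h * (2 * t + |δ| * (1 / 2) ^ n)
          ≤ 1 / 2 * (2 * t + |δ| * (1 / 2) ^ n) := mul_le_mul_of_nonneg_right hC hb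
      rw [pow_succ]
      linarith
  intro j hj z hz
  have hlim : Tendsto (fun n : ℕ => 2 * t + |δ| * (1 / 2 : ℝ) ^ n) atTop (𝓝 (2 * t + |δ| * 0)) :=
    tendsto_const_nhds.add (tendsto_const_nhds.mul
      (tendsto_pow_atTop_nhds_zero_of_lt_one (by norm_num) (by norm_num)))
  have := ge_of_tendsto' hlim fun n => key n j hj z hz
  simpa using this

/-- The open disc. -/
def U (h : ℝ) (j : ℂ) : Opens ℂ := ⟨ball j (h / 2), isOpen_ball⟩

theorem fn_cont {V : Opens ℂ} (z : ℂ) : Continuous fun y : HB V E => y.fn z := by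
  have : LipschitzWith 1 fun y : HB V E => y.fn z := by
    refine LipschitzWith.of_dist_le_mul fun y y' => ?_
    rw [dist_eq_norm, dist_eq_norm, ← HB.fn_sub, NNReal.coe_one, one_mul]
    exact HB.fn_le _ _
  exact this.continuous

/-- The space of families. -/
abbrev Vv (D : HoleData E h m δ ρ M) : Type _ := ∀ j : D.J, HB (U h (j : ℂ)) E

/-- The closed subset of the families close to `x`. -/
def Kk (D : HoleData E h m δ ρ M) : Set (Vv D) :=
  {P | ∀ j : D.J, ∀ z ∈ ball (j : ℂ) (h / 2), ‖(P j).fn z - D.x j‖ ≤ δ / 2}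

theorem Kk_closed (D : HoleData E h m δ ρ M) : IsClosed (Kk D) := by
  have : Kk D = ⋂ j : D.J, ⋂ z ∈ ball (j : ℂ) (h / 2),
      {P : Vv D | ‖(P j).fn z - D.x j‖ ≤ δ / 2} := by
    ext P
    simp [Kk]
  rw [this]
  refine isClosed_iInter fun j => isClosed_biInter fun z _ => ?_
  exact isClosed_le (((fn_cont z).comp (continuous_apply j)).sub continuous_const).norm
    continuous_const

/-- The family of functions. -/
def toF (P : Vv D) (j z : ℂ) : E := open Classical in if hj : j ∈ D.J then (P ⟨j, hj⟩).fn z else 0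

theorem toF_mem (P : Vv D) {j : ℂ} (hj : j ∈ D.J) (z : ℂ) : toF P j z = (P ⟨j, hj⟩).fn z := by
  simp [toF, hj]

theorem toF_ok {P : Vv D} (hP : P ∈ Kk D) : Ok D (toF P) := by
  refine ⟨fun j hj => ?_, fun j hj z hz => ?_⟩
  · have h1 := holOn_iff.1 (P ⟨j, hj⟩).fn_hol
    refine h1.congr fun z hz => ?_
    exact toF_mem P hj z
  · rw [toF_mem P hj]
    exact hP ⟨j, hj⟩ z hz

theorem exists_sol [CompleteSpace E] (Y : YH D C1) (hδ : 0 < δ) (hC : 245 * C1 * h ≤ 1 / 2)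
    (hC' : 245 * C1 * h ≤ δ / 4) (hG : D.Adm G) :
    ∃ p, Ok D p ∧ ∀ j ∈ D.J, ∀ z ∈ ball j (h / 2), p j z = step D G p j z := by
  have : CompleteSpace (Kk D) := (Kk_closed D).completeSpace_coe
  have hb : ∀ P : Kk D, ∀ j : D.J, ∀ z ∈ U h (j : ℂ),
      ‖step D G (toF P.1) j z‖ ≤ δ / 2 + ‖D.x j‖ := by
    intro P j z hz
    have h1 := step_le Y hG (toF_ok P.2) j.2 hz
    have h2 : ‖step D G (toF P.1) j z‖ ≤ ‖step D G (toF P.1) j z - D.x j‖ + ‖D.x j‖ := by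
      have := norm_add_le (step D G (toF P.1) j z - D.x j) (D.x j)
      simpa using this
    linarith
  let F0 : Kk D → Vv D := fun P j =>
    HB.mk (step D G (toF P.1) j) (holOn_iff.2 (step_hol Y hG (toF_ok P.2) j.2))
      (δ / 2 + ‖D.x j‖) (hb P j)
  have hF0 : ∀ P : Kk D, ∀ j : D.J, ∀ z ∈ ball (j : ℂ) (h / 2),
      (F0 P j).fn z = step D G (toF P.1) j z := fun P j z hz => HB.mk_fn _ _ _ _ hz
  have hF0K : ∀ P : Kk D, F0 P ∈ Kk D := by
    intro P j z hz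
    rw [hF0 P j z hz]
    have h1 := step_le Y hG (toF_ok P.2) j.2 hz
    linarith
  let F : Kk D → Kk D := fun P => ⟨F0 P, hF0K P⟩
  have hcontr : ContractingWith (1 / 2) F := by
    refine ⟨by norm_num, LipschitzWith.of_dist_le_mul fun P P' => ?_⟩
    have ht : ∀ j ∈ D.J, ∀ z ∈ ball j (h / 2), ‖toF P.1 j z - toF P'.1 j z‖ ≤ dist P P' := by
      intro j hj z hz
      rw [toF_mem _ hj, toF_mem _ hj, ← HB.fn_sub]
      refine (HB.fn_le _ _).trans ?_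
      rw [← dist_eq_norm]
      exact dist_le_pi_dist P.1 P'.1 ⟨j, hj⟩
    have hd : dist (F P) (F P') = dist (F0 P) (F0 P') := rfl
    rw [hd, dist_pi_le_iff (by positivity)]
    intro j
    rw [dist_eq_norm]
    refine HB.norm_le_of (by positivity) fun z hz => ?_
    rw [HB.fn_sub, hF0 P j z hz, hF0 P' j z hz]
    have h1 := step_diff (G := G) (G' := G) (s := 0) Y (toF_ok P.2) (toF_ok P'.2) dist_nonneg ht
      (fun j _ z _ => by simp) j.2 hz
    have h2 : 245 * C1 * h * dist P P' ≤ 1 / 2 * dist P P' :=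
      mul_le_mul_of_nonneg_right hC dist_nonneg
    have h3 : (((1 / 2 : NNReal) : ℝ)) = 1 / 2 := by norm_num
    rw [h3]
    linarith
  have : Nonempty (Kk D) := by
    refine ⟨⟨fun j => HB.mk (fun _ => D.x j) (holOn_const _ _) ‖D.x j‖ fun z _ => le_rfl, ?_⟩⟩
    intro j z hz
    rw [HB.mk_fn _ _ _ _ hz, sub_self, norm_zero]
    positivity
  set P := ContractingWith.fixedPoint F hcontr with hPdef
  have hP : F P = P := hcontr.fixedPoint_isFixedPt
  refine ⟨toF P.1, toF_ok P.2, fun j hj z hz => ?_⟩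
  have h1 : (P.1 ⟨j, hj⟩).fn z = step D G (toF P.1) j z := by
    have h2 := hF0 P ⟨j, hj⟩ z hz
    have h3 : F0 P = P.1 := congrArg Subtype.val hP
    rw [h3] at h2
    exact h2
  rw [toF_mem _ hj, h1]

end HoleB

open HoleB in
/-- HOLES LEMMA. -/
theorem holes [CompleteSpace E] {m δ ρ M : ℝ} (hm : 0 ≤ m) (hδ : 0 < δ) (hρ : 0 < ρ)
    (hM : 0 ≤ M) :
    ∃ h0 > 0, ∃ C > 0, h0 ≤ 1 ∧ ∀ h, 0 < h → h ≤ h0 → ∀ D : HoleData E h m δ ρ M,
      ∃ sol : (ℂ → E) → ℂ → ℂ → E,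
        (∀ G, D.Adm G → D.Sol G (sol G)) ∧
        (∀ G, D.Adm G → ∀ z, (∀ j ∈ D.J, h / 4 ≤ ‖z - j‖) →
          ‖D.SS (sol G) z - ∑ j ∈ D.J, (z - j)⁻¹ • D.c j‖ ≤ C * h) ∧
        (∀ G G', D.Adm G → D.Adm G' → ∀ t : ℝ, 0 ≤ t →
          (∀ j ∈ D.J, ∀ z ∈ ball j (h / 2), ‖G z - G' z‖ ≤ t) →
          ∀ z, (∀ j ∈ D.J, h / 4 ≤ ‖z - j‖) →
          ‖D.SS (sol G) z - D.SS (sol G') z‖ ≤ C * h * t) ∧
        (∀ G, D.Adm G → ∀ j ∈ D.J, AnnHyp j (h / 2) (C * h ^ 2) (D.yy (sol G) j)) := by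
  classical
  obtain ⟨h1, hh1, C1, hC1, hle1, H⟩ := hole_yy (E := E) (m := m) (δ := δ) (ρ := ρ) (M := M)
    hm hδ hρ hM
  refine ⟨min h1 (min (δ / (980 * C1)) (1 / (490 * C1))), by positivity, 480 * C1,
    by positivity, (min_le_left _ _).trans hle1, ?_⟩
  intro h hh hhle D
  have ha : h ≤ h1 := hhle.trans (min_le_left _ _)
  have hb : h ≤ δ / (980 * C1) := hhle.trans ((min_le_right _ _).trans (min_le_left _ _))
  have hc : h ≤ 1 / (490 * C1) := hhle.trans ((min_le_right _ _).trans (min_le_right _ _))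
  have hb' : 245 * C1 * h ≤ δ / 4 := by
    rw [le_div_iff₀ (by positivity)] at hb
    linarith
  have hc' : 245 * C1 * h ≤ 1 / 2 := by
    rw [le_div_iff₀ (by positivity)] at hc
    linarith
  obtain ⟨-, H2, H3⟩ := H h hh ha D
  have Y : YH D C1 := ⟨hh, ha.trans hle1, hC1.le, H2, H3⟩
  have hex : ∀ G, D.Adm G →
      ∃ p, Ok D p ∧ ∀ j ∈ D.J, ∀ z ∈ ball j (h / 2), p j z = step D G p j z :=
    fun G hG => exists_sol Y hδ hc' hb' hG
  let sol : (ℂ → E) → ℂ → ℂ → E := fun G => if hG : D.Adm G then (hex G hG).choose else 0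
  have hsol : ∀ G, D.Adm G → Ok D (sol G) ∧
      ∀ j ∈ D.J, ∀ z ∈ ball j (h / 2), sol G j z = step D G (sol G) j z := by
    intro G hG
    have e : sol G = (hex G hG).choose := dif_pos hG
    rw [e]
    exact (hex G hG).choose_spec
  refine ⟨sol, ?_, ?_, ?_, ?_⟩
  · intro G hG j hj
    obtain ⟨o, hs⟩ := hsol G hG
    refine ⟨o.hol j hj, fun z hz => ⟨o.le j hj z hz, ?_⟩⟩
    have := hs j hj z hz
    rw [step] at this
    rw [eq_sub_iff_add_eq] at this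
    exact this
  · intro G hG z hz
    obtain ⟨o, -⟩ := hsol G hG
    have e : D.SS (sol G) z - ∑ j ∈ D.J, (z - j)⁻¹ • D.c j
        = ∑ j ∈ D.J, am j (h / 2) (D.yy (sol G) j) z := by
      rw [HoleData.SS, Finset.sum_add_distrib]
      abel
    rw [e]
    have := am_sum Y o (Finset.Subset.refl D.J) hz
    nlinarith [mul_nonneg hC1.le hh.le]
  · intro G G' hG hG' t ht hGG z hz
    obtain ⟨o, hs⟩ := hsol G hG
    obtain ⟨o', hs'⟩ := hsol G' hG'
    have hcl := sol_close Y hc' o o' hs hs' ht hGG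
    have e : D.SS (sol G) z - D.SS (sol G') z
        = ∑ j ∈ D.J, (am j (h / 2) (D.yy (sol G) j) z - am j (h / 2) (D.yy (sol G') j) z) := by
      simp only [HoleData.SS, Finset.sum_add_distrib, Finset.sum_sub_distrib]
      abel
    rw [e]
    have := am_sum_diff Y o o' (by positivity) hcl (Finset.Subset.refl D.J) hz
    linarith
  · intro G hG j hj
    obtain ⟨o, -⟩ := hsol G hG
    have h5 := yann Y o hj
    refine ⟨h5.pos, h5.hol, fun z hz => (h5.le z hz).trans ?_⟩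
    have : 0 ≤ C1 * h ^ 2 := by positivity
    linarith

end Pool.Agent.W_4d259d_h46.Pl
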