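import Pool.Agent.W_4d259d_h46.PlB3
import Pool.Agent.W_4d259d_h46.PlHoleB
import Pool.Agent.W_4d259d_h46.PlHoleC

/-!
# Planar bump, part 4: the operator `Sop` (module PL)
-/

noncomputable section

namespace Pool.Agent.W_4d259d_h46.Pl

open MeasureTheory Set Filter Topology Metric
open scoped Real ENNReal

variable {E : Type*} [NormedAddCommGroup E] [NormedSpace ℂ E]

/-- `z` is off the holes. -/
def Off (h : ℝ) (J : Finset ℂ) (z : ℂ) : Prop := ∀ j ∈ J, h / 4 ≤ ‖z - j‖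

/-- `b` is holomorphic and small on the discs. -/
def SmallOn (h δ : ℝ) (J : Finset ℂ) (b : ℂ → E) : Prop :=
  ∀ j ∈ J, DifferentiableOn ℂ b (ball j (h / 2)) ∧ ∀ z ∈ ball j (h / 2), ‖b z‖ ≤ δ / 8

/-- What is known about the choice of `W`, `h`, `J`. -/
structure CoreHyp {h m δ ρ M : ℝ} (D : HoleData E h m δ ρ M) (g0 : ℂ → E) (W : Set ℂ)
    (κ : ℝ) : Prop where
  hh : 0 < h
  hbW : ∀ j ∈ D.J, ball j (h / 2) ⊆ W
  hE : DifferentiableOn ℂ (E0 g0 W) W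
  hTW : ∀ U : Set ℂ, IsOpen U → (∀ z ∈ U ∩ W, dbar g0 z = 0) →
    DifferentiableOn ℂ (T (W.indicator (dbar g0))) U
  hest : ∀ z, Off h D.J z →
    ‖T (W.indicator (dbar g0)) z - ∑ j ∈ D.J, (z - j)⁻¹ • D.c j‖ ≤ κ
  hadm : ∀ j ∈ D.J, ∀ z ∈ ball j (h / 2),
    ‖E0 g0 W z + ∑ i ∈ D.J.erase j, (z - i)⁻¹ • D.c i - D.x j‖ ≤ δ / 8

theorem CoreHyp.adm {h m δ ρ M : ℝ} {D : HoleData E h m δ ρ M} {g0 : ℂ → E} {W : Set ℂ}
    {κ : ℝ} (H : CoreHyp D g0 W κ) {b : ℂ → E} (hb : SmallOn h δ D.J b) :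
    D.Adm (fun z => E0 g0 W z + b z) := by
  intro j hj
  refine ⟨(H.hE.mono (H.hbW j hj)).add (hb j hj).1, fun z hz => ?_⟩
  have h1 := H.hadm j hj z hz
  have h2 := (hb j hj).2 z hz
  have e : E0 g0 W z + b z + ∑ i ∈ D.J.erase j, (z - i)⁻¹ • D.c i - D.x j
      = (E0 g0 W z + ∑ i ∈ D.J.erase j, (z - i)⁻¹ • D.c i - D.x j) + b z := by abel
  rw [e]
  refine (norm_add_le _ _).trans ?_
  linarith

/-- THE OPERATOR `Sop b = S[E0 + b] - T (∂̄ g0 1_W)`, for small `h` (depending on `m δ ρ M` only).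
Proof: `holes` with `G = E0 + b` (`Adm` by `hadm`, `hE`); estimates: `holes` and `hest`;
holomorphy: `SS_hol`, `hTW`; the formula on the annuli: `Sol.annulus`;
`ε/(z-j) ∈ ball 0 ρ`: `hole_yy`. -/
theorem exists_Sop [CompleteSpace E] {m δ ρ M : ℝ} (hm : 0 ≤ m) (hδ : 0 < δ) (hρ : 0 < ρ)
    (hM : 0 ≤ M) :
    ∃ h0 > 0, ∃ C > 0, h0 ≤ 1 ∧ ∀ h, 0 < h → h ≤ h0 → ∀ (D : HoleData E h m δ ρ M)
      (g0 : ℂ → E) (W : Set ℂ) (κ : ℝ), CoreHyp D g0 W κ →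
      ∃ (Sop : (ℂ → E) → ℂ → E) (p : (ℂ → E) → ℂ → ℂ → E),
        (∀ b, SmallOn h δ D.J b → ∀ z, Off h D.J z → ‖Sop b z‖ ≤ κ + C * h) ∧
        (∀ b b', SmallOn h δ D.J b → SmallOn h δ D.J b' → ∀ t : ℝ, 0 ≤ t →
          (∀ j ∈ D.J, ∀ z ∈ ball j (h / 2), ‖b z - b' z‖ ≤ t) →
          ∀ z, Off h D.J z → ‖Sop b z - Sop b' z‖ ≤ C * h * t) ∧
        (∀ b, SmallOn h δ D.J b → ∀ U, IsOpen U → (∀ z ∈ U, ∀ j ∈ D.J, 3 * h / 16 < ‖z - j‖) →
          (∀ z ∈ U ∩ W, dbar g0 z = 0) → DifferentiableOn ℂ (Sop b) U) ∧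
        (∀ b, SmallOn h δ D.J b → DifferentiableOn ℂ b W →
          DifferentiableOn ℂ (fun z => g0 z + b z + Sop b z)
            {z | z ∈ W ∧ ∀ j ∈ D.J, 3 * h / 16 < ‖z - j‖}) ∧
        (∀ b, SmallOn h δ D.J b → ∀ j ∈ D.J,
          DifferentiableOn ℂ (p b j) (ball j (h / 2)) ∧
          (∀ z ∈ ball j (h / 2), ‖p b j z - D.x j‖ ≤ δ / 2) ∧
          ∀ z ∈ ball j (h / 2), 3 * h / 16 < ‖z - j‖ →
            ((D.eps : ℂ) / (z - j)) ∈ ball (0 : ℂ) ρ ∧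
            g0 z + b z + Sop b z = p b j z + (z - j)⁻¹ • D.c j +
              ((D.eps : ℂ) / (z - j)) ^ 2 • D.Ψ j ((D.eps : ℂ) / (z - j)) (p b j z)) := by
  obtain ⟨ha, ha0, C, hC, ha1, HH⟩ := holes (E := E) (m := m) (δ := δ) (ρ := ρ) (M := M)
    hm hδ hρ hM
  obtain ⟨hb, hb0, Cy, hCy, hb1, HY⟩ := hole_yy (E := E) (m := m) (δ := δ) (ρ := ρ) (M := M)
    hm hδ hρ hM
  refine ⟨min ha hb, lt_min ha0 hb0, C, hC, (min_le_left _ _).trans ha1, ?_⟩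
  intro h hh hle D g0 W κ H
  obtain ⟨sol, hs1, hs2, hs3, hs4⟩ := HH h hh (hle.trans (min_le_left _ _)) D
  obtain ⟨hy1, -, -⟩ := HY h hh (hle.trans (min_le_right _ _)) D
  set Gb : (ℂ → E) → ℂ → E := fun b z => E0 g0 W z + b z with hGb
  have hkey : ∀ (b : ℂ → E) (z : ℂ), g0 z + b z +
      (D.SS (sol (Gb b)) z - T (W.indicator (dbar g0)) z) = Gb b z + D.SS (sol (Gb b)) z := by
    intro b z
    rw [hGb]
    simp only [E0]
    abel
  refine ⟨fun b z => D.SS (sol (Gb b)) z - T (W.indicator (dbar g0)) z, fun b => sol (Gb b),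
    ?_, ?_, ?_, ?_, ?_⟩
  · intro b hb z hz
    have h1 := hs2 (Gb b) (H.adm hb) z hz
    have h2 := H.hest z hz
    have e : D.SS (sol (Gb b)) z - T (W.indicator (dbar g0)) z
        = (D.SS (sol (Gb b)) z - ∑ j ∈ D.J, (z - j)⁻¹ • D.c j)
          - (T (W.indicator (dbar g0)) z - ∑ j ∈ D.J, (z - j)⁻¹ • D.c j) := by abel
    simp only
    rw [e]
    refine (norm_sub_le _ _).trans ?_
    linarith
  · intro b b' hb hb' t ht hbb z hz
    have h1 := hs3 (Gb b) (Gb b') (H.adm hb) (H.adm hb') t ht (fun j hj z hz => by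
      have := hbb j hj z hz
      have e : Gb b z - Gb b' z = b z - b' z := by rw [hGb]; simp
      rw [e]
      exact this) z hz
    have e : D.SS (sol (Gb b)) z - T (W.indicator (dbar g0)) z
        - (D.SS (sol (Gb b')) z - T (W.indicator (dbar g0)) z)
        = D.SS (sol (Gb b)) z - D.SS (sol (Gb b')) z := by abel
    simp only
    rw [e]
    exact h1
  · intro b hb U hU hUJ hUW
    have h1 := SS_hol D (sol (Gb b)) (hs4 (Gb b) (H.adm hb))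
    exact (h1.mono fun z hz => hUJ z hz).sub (H.hTW U hU hUW)
  · intro b hb hbW
    have h1 := SS_hol D (sol (Gb b)) (hs4 (Gb b) (H.adm hb))
    have h2 : DifferentiableOn ℂ (fun z => Gb b z + D.SS (sol (Gb b)) z)
        {z | z ∈ W ∧ ∀ j ∈ D.J, 3 * h / 16 < ‖z - j‖} := by
      refine DifferentiableOn.add ?_ (h1.mono fun z hz => hz.2)
      exact (H.hE.add hbW).mono fun z hz => hz.1
    refine h2.congr fun z _ => ?_
    exact hkey b z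
  · intro b hb j hj
    have h1 := hs1 (Gb b) (H.adm hb)
    have h2 := hs4 (Gb b) (H.adm hb)
    refine ⟨(h1 j hj).1, fun z hz => ((h1 j hj).2 z hz).1, fun z hz hz' => ⟨?_, ?_⟩⟩
    · refine hy1 j hj z ⟨by linarith, ?_⟩
      exact mem_ball_iff_norm.1 hz
    · have h3 := Sol.annulus D h1 h2 hj hz' (mem_ball_iff_norm.1 hz)
      rw [hkey b z, h3]
      rfl

end Pool.Agent.W_4d259d_h46.Pl
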