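import Pool.Agent.W_4d259d_h46.PlB1
import Pool.Agent.W_4d259d_h46.PlB4
import Pool.Agent.W_4d259d_h46.PlLatC
import Pool.Agent.W_4d259d_h44.Base

/-!
# PLANAR BUMP THEOREM (module PL): all of section 4 which happens in the plane
-/

noncomputable section

namespace Pool.Agent.W_4d259d_h46.Pl

open MeasureTheory Set Filter Topology Metric Manifold
open scoped Real ENNReal ContDiff
open Pool.Agent.W_4d259d_h44 Pool.Agent.W_4d259d_h46.Defs

variable {E : Type*} [NormedAddCommGroup E] [NormedSpace ℂ E]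
variable {X : Type*} [TopologicalSpace X] [ChartedSpace E X]

/-- The choice of `W`, `h`, `J` and of the hole data, everything small.  Proof: `m`, `L` = bounds
of `dbar g0` and of `fderiv ℝ g0` on a compact neighbourhood of `D` in `N1 ∩ N'`; `area_choice`
with `P = {dbar g0 ≠ 0}`, `τ` small; `exists_cells` for `G ⊆ V`; `h` small; the hole data:
`c j = (1/π) ∫_{cell j} dbar g0`, `x j = g0 j`, `Ψ j ζ p = Psi_j ζ p (a j)`, `a j = c j / ε`,
`|a j| < δ`.  `CoreHyp` by `core_est`, `core_adm`, `E0_hol`, `TW_hol`. -/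
theorem exists_core [CompleteSpace E] [Nonempty X] {φ : OpenPartialHomeomorph X E}
    {Cx : Set E} {δ ρ M : ℝ} (hδ : 0 < δ) (_hρ : 0 < ρ) (_hM : 0 ≤ M)
    (hflex : ∀ c ∈ Cx, ∃ (Lam : ℂ → E → E → X) (Psi : ℂ → E → E → E),
      FlexData φ c δ ρ M Lam Psi)
    {g0 : ℂ → E} {N' D V : Set ℂ} (hN' : IsOpen N') (hg0 : ContDiffOn ℝ 1 g0 N')
    (hD : IsCompact D) (hDN : D ⊆ N') (hDb : D ⊆ closedBall 0 1) (hV : IsOpen V) (hVD : V ⊆ D)
    (hnull : volume ((D \ V) ∩ {z | dbar g0 z ≠ 0}) = 0) (hgC : ∀ z ∈ V, g0 z ∈ Cx) :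
    ∃ m : ℝ, 0 ≤ m ∧ ∀ κ h1 : ℝ, 0 < κ → 0 < h1 → ∀ N1 : Set ℂ, IsOpen N1 → D ⊆ N1 →
      ∃ (W : Set ℂ) (h : ℝ) (H : HoleData E h m δ ρ M) (Lam : ℂ → ℂ → E → E → X),
        IsOpen W ∧ D ⊆ W ∧ W ⊆ N1 ∧ W ⊆ N' ∧ 0 < h ∧ h ≤ h1 ∧
        (∀ j ∈ H.J, closedBall j (h / 2) ⊆ V) ∧ CoreHyp H g0 W κ ∧
        ∀ j ∈ H.J, H.x j = g0 j ∧ (H.eps : ℂ)⁻¹ • H.c j ∈ ball (0 : E) δ ∧
          MDifferentiableOn (modelWithCornersSelf ℂ (ℂ × E × E)) (modelWithCornersSelf ℂ E)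
            (fun q : ℂ × E × E => Lam j q.1 q.2.1 q.2.2) (univ ×ˢ (ball (g0 j) δ ×ˢ ball 0 δ)) ∧
          ∀ ζ ∈ ball (0 : ℂ) ρ, ζ ≠ 0 → ∀ p ∈ ball (g0 j) δ,
            Lam j ζ⁻¹ p ((H.eps : ℂ)⁻¹ • H.c j) ∈ φ.source ∧
            φ (Lam j ζ⁻¹ p ((H.eps : ℂ)⁻¹ • H.c j)) =
              p + ζ • ((H.eps : ℂ)⁻¹ • H.c j) + ζ ^ 2 • H.Ψ j ζ p := by
  classical
  -- a compact neighbourhood of `D`
  obtain ⟨r0, hr0, hr0N⟩ := hD.exists_cthickening_subset_open hN' hDN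
  have hK0 : IsCompact (cthickening r0 D) := hD.cthickening
  obtain ⟨m0, hm0⟩ := hK0.exists_bound_of_continuousOn
    ((continuousOn_dbar hN' hg0).mono hr0N)
  obtain ⟨L0, hL0⟩ := hK0.exists_bound_of_continuousOn
    ((hg0.continuousOn_fderiv_of_isOpen hN' le_rfl).mono hr0N)
  set m := max m0 0 with hm
  set L := max L0 0 with hL
  have hm00 : 0 ≤ m := le_max_right _ _
  have hL00 : 0 ≤ L := le_max_right _ _
  have hmK : ∀ z ∈ cthickening r0 D, ‖dbar g0 z‖ ≤ m := fun z hz =>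
    (hm0 z hz).trans (le_max_left _ _)
  have hLK : ∀ z ∈ cthickening r0 D, ‖fderiv ℝ g0 z‖ ≤ L := fun z hz =>
    (hL0 z hz).trans (le_max_left _ _)
  have hDK : D ⊆ cthickening r0 D := self_subset_cthickening D
  refine ⟨m, hm00, ?_⟩
  intro κ h1 hκ hh1 N1 hN1 hDN1
  -- constants
  set κ' := min κ (δ / 16) with hκ'
  have hκ'0 : 0 < κ' := lt_min hκ (by positivity)
  obtain ⟨τ, hτ, hτm⟩ : ∃ τ : ℝ, 0 < τ ∧ 2 * m * √τ ≤ κ' / 2 := by
    refine ⟨(κ' / (4 * (m + 1))) ^ 2, by positivity, ?_⟩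
    rw [Real.sqrt_sq (by positivity)]
    have h2 : 2 * m * (κ' / (4 * (m + 1))) = κ' / 2 * (m / (m + 1)) := by
      field_simp
      ring
    rw [h2]
    exact mul_le_of_le_one_right (by positivity) ((div_le_one (by positivity)).2 (by linarith))
  obtain ⟨W, G, hWo, hDW, hWc, hWN1, hG, hGV, hWG⟩ := area_choice (D := D) (V := V)
    (P := {z | dbar g0 z ≠ 0}) (N1 := N1 ∩ thickening r0 D) hD hV hVD hnull
    (hN1.inter isOpen_thickening) (fun z hz => ⟨hDN1 hz, self_subset_thickening hr0 D hz⟩) hτ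
  have hWN1' : W ⊆ N1 := fun z hz => (hWN1 (subset_closure hz)).1
  have hWK : W ⊆ cthickening r0 D := fun z hz =>
    thickening_subset_cthickening _ _ (hWN1 (subset_closure hz)).2
  have hWN' : W ⊆ N' := hWK.trans hr0N
  have hWf : volume W ≠ (⊤ : ENNReal) := by
    exact ((measure_mono subset_closure).trans_lt hWc.measure_lt_top).ne
  have hmW : ∀ z ∈ W, ‖dbar g0 z‖ ≤ m := fun z hz => hmK z (hWK hz)
  obtain ⟨ha, ha0, hcells⟩ := exists_cells hG hV hGV
  -- the step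
  obtain ⟨h, hh, hhh1, hh1', hha, hhs, hhL⟩ : ∃ h : ℝ, 0 < h ∧ h ≤ h1 ∧ h ≤ 1 ∧ h ≤ ha ∧
      200 * m * √h ≤ κ' / 2 ∧ (4 * m + L) * h ≤ δ / 16 := by
    set s := min (min h1 1) (min ha (min ((κ' / (400 * (m + 1))) ^ 2)
      (δ / (16 * (4 * m + L + 1))))) with hs
    have hs0 : 0 < s := by positivity
    have e1 : s ≤ h1 := (min_le_left _ _).trans (min_le_left _ _)
    have e2 : s ≤ 1 := (min_le_left _ _).trans (min_le_right _ _)
    have e3 : s ≤ ha := (min_le_right _ _).trans (min_le_left _ _)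
    have e4 : s ≤ (κ' / (400 * (m + 1))) ^ 2 :=
      (min_le_right _ _).trans ((min_le_right _ _).trans (min_le_left _ _))
    have e5 : s ≤ δ / (16 * (4 * m + L + 1)) :=
      (min_le_right _ _).trans ((min_le_right _ _).trans (min_le_right _ _))
    refine ⟨s, hs0, e1, e2, e3, ?_, ?_⟩
    · have h2 : √s ≤ κ' / (400 * (m + 1)) := by
        rw [← Real.sqrt_sq (show 0 ≤ κ' / (400 * (m + 1)) by positivity)]
        exact Real.sqrt_le_sqrt e4
      calc 200 * m * √s ≤ 200 * m * (κ' / (400 * (m + 1))) := by gcongr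
        _ = κ' / 2 * (m / (m + 1)) := by field_simp; ring
        _ ≤ κ' / 2 := mul_le_of_le_one_right (by positivity)
            ((div_le_one (by positivity)).2 (by linarith))
    · calc (4 * m + L) * s ≤ (4 * m + L + 1) * (δ / (16 * (4 * m + L + 1))) :=
            mul_le_mul (by linarith) e5 hs0.le (by positivity)
        _ = δ / 16 := by field_simp
  obtain ⟨J, hJlat, hGJ, hJV⟩ := hcells h hh hha
  have hcellV : ∀ j ∈ J, cell h j ⊆ V := fun j hj => subset_closure.trans (hJV j hj)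
  have hcbV : ∀ j ∈ J, closedBall j (h / 2) ⊆ V := fun j hj => by
    rw [← closure_ball j (show h / 2 ≠ 0 by positivity)]
    exact (closure_mono (ball_subset_cell h j)).trans (hJV j hj)
  have hjV : ∀ j ∈ J, j ∈ V := fun j hj => hcbV j hj (mem_closedBall_self (by positivity))
  have hbV : ∀ j ∈ J, ball j (h / 2) ⊆ V := fun j hj => ball_subset_closedBall.trans (hcbV j hj)
  have hbd : ∀ j ∈ J, ‖j‖ ≤ 3 := fun j hj => by
    have := hDb (hVD (hjV j hj))
    rw [mem_closedBall_zero_iff] at this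
    linarith
  -- the data
  set c : ℂ → E := fun j => (π : ℂ)⁻¹ • ∫ w in cell h j, dbar g0 w with hc
  have hcle : ∀ j ∈ J, ‖c j‖ ≤ m * h ^ 2 := fun j hj =>
    res_le hh hm00 fun z hz => hmK z (hDK (hVD (hcellV j hj hz)))
  have hfl : ∀ j ∈ V, ∃ (Lam : ℂ → E → E → X) (Psi : ℂ → E → E → E),
      FlexData φ (g0 j) δ ρ M Lam Psi := fun j hj => hflex _ (hgC j hj)
  choose! Lam Psi hF using hfl
  set ε : ℝ := (2 * m / δ + 1) * h ^ 2 with hε
  have hε0 : 0 < ε := by positivity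
  set a : ℂ → E := fun j => (ε : ℂ)⁻¹ • c j with ha
  have haδ : ∀ j ∈ J, a j ∈ ball (0 : E) δ := fun j hj => by
    rw [mem_ball_zero_iff, ha]
    simp only
    rw [norm_smul, norm_inv, Complex.norm_real, Real.norm_eq_abs, abs_of_pos hε0,
      inv_mul_lt_iff₀ hε0]
    calc ‖c j‖ ≤ m * h ^ 2 := hcle j hj
      _ < (2 * m + δ) * h ^ 2 := by
          apply mul_lt_mul_of_pos_right _ (by positivity)
          linarith
      _ = ε * δ := by rw [hε]; field_simp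
  let H : HoleData E h m δ ρ M :=
    { J := J
      lat := hJlat
      bd := hbd
      c := c
      c_le := hcle
      x := g0
      Ψ := fun j ζ p => Psi j ζ p (a j)
      hol := fun j hj => by
        have h2 := (hF j (hjV j hj)).holPsi
        have h3 : DifferentiableOn ℂ (fun q : ℂ × E => ((q.1, q.2, a j) : ℂ × E × E))
            (ball (0 : ℂ) ρ ×ˢ ball (g0 j) δ) := by fun_prop
        exact h2.comp h3 fun q hq => ⟨hq.1, hq.2, haδ j hj⟩
      le := fun j hj ζ hζ p hp => (hF j (hjV j hj)).bound ζ hζ p hp (a j) (haδ j hj) }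
  have hest : ∀ z, Off h J z →
      ‖T (W.indicator (dbar g0)) z - ∑ j ∈ J, (z - j)⁻¹ • c j‖ ≤ κ' := by
    intro z hz
    have h2 := core_est hN' hg0 hWo hWN' hWf hm00 hmW hh hh1' hJlat hbd hGJ
      (fun j hj => (hcellV j hj).trans (hVD.trans hDW)) hWG hz
    refine h2.trans ?_
    linarith
  have hE := E0_hol hN' hg0 hWo hWN' hWf hm00 hmW
  have hbW : ∀ j ∈ J, ball j (h / 2) ⊆ W := fun j hj => (hbV j hj).trans (hVD.trans hDW)
  have hLip : ∀ j ∈ J, ∀ z ∈ ball j (h / 2), ‖g0 z - g0 j‖ ≤ L * h := by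
    intro j hj z hz
    have hsub : ball j (h / 2) ⊆ N' := (hbW j hj).trans hWN'
    have h2 := (convex_ball j (h / 2)).norm_image_sub_le_of_norm_fderiv_le (𝕜 := ℝ) (f := g0)
      (C := L) (fun w hw => (hg0.contDiffAt (hN'.mem_nhds (hsub hw))).differentiableAt one_ne_zero)
      (fun w hw => hLK w (hWK (hbW j hj hw))) (mem_ball_self (by positivity)) hz
    have h3 : ‖z - j‖ ≤ h := by
      have := mem_ball_iff_norm.1 hz
      linarith
    exact h2.trans (mul_le_mul_of_nonneg_left h3 hL00)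
  have hadm := core_adm hE hh hJlat hcle hbW hLip hest
  refine ⟨W, h, H, Lam, hWo, hDW, hWN1', hWN', hh, hhh1, hcbV, ?_, ?_⟩
  · refine ⟨hh, hbW, hE, ?_, ?_, ?_⟩
    · intro U hU h0
      exact TW_hol hN' hg0 hWo hWN' hWf hm00 hmW hU h0
    · intro z hz
      exact (hest z hz).trans (min_le_left _ _)
    · intro j hj z hz
      refine (hadm j hj z hz).trans ?_
      have h2 : κ' ≤ δ / 16 := min_le_right _ _
      linarith
  · intro j hj
    have hFj := hF j (hjV j hj)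
    refine ⟨rfl, haδ j hj, hFj.hol, ?_⟩
    intro ζ hζ hζ0 p hp
    exact hFj.eq ζ hζ hζ0 p hp (a j) (haδ j hj)

end Pool.Agent.W_4d259d_h46.Pl
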