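import Mathlib

/-!
# Lattice cells (module PL): sums over the lattice `h ℤ²` and the cell estimate
-/

noncomputable section

namespace Pool.Agent.W_4d259d_h46.Pl

open MeasureTheory Set Filter Topology Metric
open scoped Real ENNReal

/-- Half open square of side `h` and centre `z`. -/
def cell (h : ℝ) (z : ℂ) : Set ℂ :=
  {w | (z.re - h / 2 ≤ w.re ∧ w.re < z.re + h / 2) ∧ z.im - h / 2 ≤ w.im ∧ w.im < z.im + h / 2}

/-- The centres lie in the lattice `h ℤ²`. -/
def IsLat (h : ℝ) (J : Finset ℂ) : Prop := ∀ z ∈ J, ∃ k l : ℤ, z = ⟨h * k, h * l⟩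

theorem measurableSet_cell (h : ℝ) (z : ℂ) : MeasurableSet (cell h z) :=
  ((measurableSet_le measurable_const Complex.measurable_re).inter
    (measurableSet_lt Complex.measurable_re measurable_const)).inter
  ((measurableSet_le measurable_const Complex.measurable_im).inter
    (measurableSet_lt Complex.measurable_im measurable_const))

/-- two lattice coordinates at distance less than `h` are equal -/
theorem lat_coord {h : ℝ} (hh : 0 < h) {k l : ℤ} (h1 : |h * k - h * l| < h) : k = l := by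
  have h2 : |((k - l : ℤ) : ℝ)| < 1 := by
    have h3 : h * |((k - l : ℤ) : ℝ)| < h * 1 := by
      rw [← abs_of_pos hh, ← abs_mul, abs_of_pos hh, mul_one]
      push_cast
      rw [mul_sub]
      exact h1
    exact lt_of_mul_lt_mul_left h3 hh.le
  have h3 : |k - l| < 1 := by exact_mod_cast h2
  have h4 := Int.abs_lt_one_iff.1 h3
  omega

theorem cell_disjoint {h : ℝ} (hh : 0 < h) {J : Finset ℂ} (hJ : IsLat h J) {z z' : ℂ}
    (hz : z ∈ J) (hz' : z' ∈ J) (hne : z ≠ z') : Disjoint (cell h z) (cell h z') := by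
  rw [Set.disjoint_left]
  rintro w ⟨⟨h1, h2⟩, h3, h4⟩ ⟨⟨h5, h6⟩, h7, h8⟩
  obtain ⟨k, l, rfl⟩ := hJ z hz
  obtain ⟨k', l', rfl⟩ := hJ z' hz'
  apply hne
  simp only at h1 h2 h3 h4 h5 h6 h7 h8
  have e1 : k = k' := lat_coord hh (by rw [abs_lt]; constructor <;> linarith)
  have e2 : l = l' := lat_coord hh (by rw [abs_lt]; constructor <;> linarith)
  rw [e1, e2]

theorem volume_cell' (h : ℝ) (z : ℂ) :
    volume (cell h z) = ENNReal.ofReal h * ENNReal.ofReal h := by
  have h1 : cell h z = Complex.measurableEquivRealProd ⁻¹'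
      (Ico (z.re - h / 2) (z.re + h / 2) ×ˢ Ico (z.im - h / 2) (z.im + h / 2)) := by
    ext w
    rfl
  rw [h1, Complex.volume_preserving_equiv_real_prod.measure_preimage
    ((measurableSet_Ico.prod measurableSet_Ico).nullMeasurableSet), Measure.volume_eq_prod,
    Measure.prod_prod, Real.volume_Ico, Real.volume_Ico]
  congr 2 <;> ring

theorem volume_cell {h : ℝ} (hh : 0 < h) (z : ℂ) : volume.real (cell h z) = h ^ 2 := by
  rw [Measure.real, volume_cell', ENNReal.toReal_mul, ENNReal.toReal_ofReal hh.le, sq]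

theorem volume_cell_ne {h : ℝ} (z : ℂ) : volume (cell h z) ≠ ∞ := by
  rw [volume_cell']
  exact ENNReal.mul_ne_top ENNReal.ofReal_ne_top ENNReal.ofReal_ne_top

theorem ball_subset_cell (h : ℝ) (z : ℂ) : ball z (h / 2) ⊆ cell h z := by
  intro w hw
  rw [mem_ball, dist_eq_norm] at hw
  have h1 := (Complex.abs_re_le_norm (w - z)).trans_lt hw
  have h2 := (Complex.abs_im_le_norm (w - z)).trans_lt hw
  rw [abs_lt, Complex.sub_re] at h1
  rw [abs_lt, Complex.sub_im] at h2
  exact ⟨⟨by linarith, by linarith⟩, by linarith, by linarith⟩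

theorem norm_sub_of_cell {h : ℝ} {z w : ℂ} (hw : w ∈ cell h z) : ‖w - z‖ ≤ 3 / 4 * h := by
  obtain ⟨⟨h1, h2⟩, h3, h4⟩ := hw
  have hh : 0 < h := by linarith
  apply le_of_sq_le_sq _ (by positivity)
  rw [← Complex.normSq_eq_norm_sq, Complex.normSq_apply, Complex.sub_re, Complex.sub_im]
  have h5 : (w.re - z.re) * (w.re - z.re) ≤ (h / 2) * (h / 2) := by
    have := mul_nonneg (show 0 ≤ h / 2 - (w.re - z.re) by linarith)
      (show 0 ≤ h / 2 + (w.re - z.re) by linarith)
    nlinarith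
  have h6 : (w.im - z.im) * (w.im - z.im) ≤ (h / 2) * (h / 2) := by
    have := mul_nonneg (show 0 ≤ h / 2 - (w.im - z.im) by linarith)
      (show 0 ≤ h / 2 + (w.im - z.im) by linarith)
    nlinarith
  nlinarith

theorem lat_norm {h : ℝ} (hh : 0 < h) {J : Finset ℂ} (hJ : IsLat h J) {z z' : ℂ}
    (hz : z ∈ J) (hz' : z' ∈ J) (hne : z ≠ z') : h ≤ ‖z' - z‖ := by
  obtain ⟨k, l, rfl⟩ := hJ z hz
  obtain ⟨k', l', rfl⟩ := hJ z' hz'
  by_contra hcon
  push Not at hcon
  apply hne
  have h1 := (Complex.abs_re_le_norm _).trans_lt hcon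
  have h2 := (Complex.abs_im_le_norm _).trans_lt hcon
  rw [Complex.sub_re] at h1
  rw [Complex.sub_im] at h2
  have e1 : k' = k := lat_coord hh h1
  have e2 : l' = l := lat_coord hh h2
  rw [e1, e2]

/-- Points of a half disc around one centre are far from the other centres. -/
theorem lat_dist {h : ℝ} (hh : 0 < h) {J : Finset ℂ} (hJ : IsLat h J) {z z' w : ℂ}
    (hz : z ∈ J) (hz' : z' ∈ J) (hne : z ≠ z') (hw : w ∈ ball z' (h / 2)) : h / 2 ≤ ‖w - z‖ := by
  have h1 := lat_norm hh hJ hz hz' hne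
  rw [mem_ball, dist_eq_norm] at hw
  have h2 : ‖z' - z‖ ≤ ‖w - z‖ + ‖w - z'‖ := by
    have e : z' - z = (w - z) - (w - z') := by ring
    rw [e]
    exact norm_sub_le _ _
  linarith

/-- `|z - w| ≤ 4 |z - j|` for `w` in the cell of `j` and `|z - j| ≥ h/4`. -/
theorem cell_compare {h : ℝ} (hh : 0 < h) {j w z : ℂ} (hw : w ∈ cell h j)
    (hz : h / 4 ≤ ‖z - j‖) : ‖z - w‖ ≤ 4 * ‖z - j‖ := by
  have h1 := norm_sub_of_cell hw
  have h2 : ‖z - w‖ ≤ ‖z - j‖ + ‖w - j‖ := by
    have e : z - w = (z - j) - (w - j) := by ring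
    rw [e]
    exact norm_sub_le _ _
  linarith

/-- The union of the cells has area at most `25 π` if the centres are in `closedBall 0 3` and
`h ≤ 1` (it lies in `ball 0 5`). -/
theorem volume_cells_le {h : ℝ} (hh : 0 < h) (h1 : h ≤ 1) {J : Finset ℂ}
    (hb : ∀ j ∈ J, ‖j‖ ≤ 3) :
    volume (⋃ j ∈ J, cell h j) ≠ ∞ ∧ volume.real (⋃ j ∈ J, cell h j) ≤ 25 * π := by
  have hsub : (⋃ j ∈ J, cell h j) ⊆ ball (0 : ℂ) 5 := by
    intro w hw
    simp only [mem_iUnion] at hw
    obtain ⟨j, hj, hw⟩ := hw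
    have h2 := norm_sub_of_cell hw
    have h3 := hb j hj
    have h4 : ‖w‖ ≤ ‖w - j‖ + ‖j‖ := by
      have e : w = (w - j) + j := by ring
      nth_rewrite 1 [e]
      exact norm_add_le _ _
    rw [mem_ball_zero_iff]
    linarith
  have hvol : volume (ball (0 : ℂ) 5) ≠ ∞ := measure_ball_lt_top.ne
  refine ⟨ne_top_of_le_ne_top hvol (measure_mono hsub), ?_⟩
  refine (measureReal_mono hsub hvol).trans ?_
  rw [Measure.real, Complex.volume_ball, ENNReal.toReal_mul, ENNReal.toReal_pow,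
    ENNReal.toReal_ofReal (by norm_num)]
  norm_num

end Pool.Agent.W_4d259d_h46.Pl
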