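import Pool.Agent.W_4d259d_h46.PlT
import Pool.Agent.W_4d259d_h46.PlD

/-!
# Cauchy-Pompeiu (module PL, file P)
-/

noncomputable section

namespace Pool.Agent.W_4d259d_h46.Pl

open MeasureTheory Set Filter Topology Metric
open scoped Real ENNReal ContDiff

variable {F : Type*} [NormedAddCommGroup F] [NormedSpace ℂ F]

/-- the point `r e^{iθ}` -/
def pc (r t : ℝ) : ℂ := (r : ℂ) * Complex.exp (t * Complex.I)

theorem continuous_pc : Continuous fun p : ℝ × ℝ => pc p.1 p.2 := by
  unfold pc
  fun_prop

theorem norm_pc (r t : ℝ) : ‖pc r t‖ = |r| := by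
  unfold pc
  rw [norm_mul, Complex.norm_exp_ofReal_mul_I, mul_one, Complex.norm_real, Real.norm_eq_abs]

theorem hasDerivAt_pc_r (r t : ℝ) :
    HasDerivAt (fun s : ℝ => pc s t) (Complex.exp (t * Complex.I)) r := by
  have := (Complex.ofRealCLM.hasDerivAt (x := r)).mul_const (Complex.exp (t * Complex.I))
  simpa [pc] using this

theorem hasDerivAt_pc_t (r t : ℝ) :
    HasDerivAt (fun s : ℝ => pc r s) ((r : ℂ) * (Complex.exp (t * Complex.I) * Complex.I)) t := by
  have h1 : HasDerivAt (fun s : ℝ => (s : ℂ) * Complex.I) Complex.I t := by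
    have := (Complex.ofRealCLM.hasDerivAt (x := t)).mul_const Complex.I
    simpa using this
  exact (h1.cexp).const_mul (r : ℂ)

/-- a function of `(r, θ)` which is continuous and vanishes for large `|r|` is integrable -/
theorem integrableOn_polar {g : ℝ × ℝ → F} (hg : Continuous g) {R : ℝ}
    (h0 : ∀ p : ℝ × ℝ, R < |p.1| → g p = 0) :
    IntegrableOn g (Ioi (0 : ℝ) ×ˢ Ioo (-π) π) (volume.prod volume) := by
  have h1 : IntegrableOn g (Icc (0 : ℝ) R ×ˢ Icc (-π) π) (volume.prod volume) :=
    hg.continuousOn.integrableOn_compact (isCompact_Icc.prod isCompact_Icc)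
  refine h1.of_forall_sdiff_eq_zero (measurableSet_Ioi.prod measurableSet_Ioo) ?_
  rintro ⟨r, t⟩ ⟨⟨hr, ht⟩, hn⟩
  refine h0 _ ?_
  simp only [mem_Ioi] at hr
  simp only [mem_prod, mem_Icc, not_and_or, not_le] at hn
  rcases hn with (h | h) | (h | h)
  · exact absurd hr (by linarith)
  · simpa [abs_of_pos hr] using h
  · exact absurd ht.1 (by linarith)
  · exact absurd ht.2 (by linarith)

/-- The case `z = 0`. -/
theorem pompeiu_zero [CompleteSpace F] {u : ℂ → F} (hu : ContDiff ℝ 1 u)
    (hc : HasCompactSupport u) : ∫ w, (-w)⁻¹ • dbar u w = (π : ℂ) • u 0 := by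
  have hd : Differentiable ℝ u := hu.differentiable one_ne_zero
  have hDc : Continuous (fderiv ℝ u) := hu.continuous_fderiv one_ne_zero
  obtain ⟨R, hR0, hR⟩ : ∃ R : ℝ, 0 < R ∧ ∀ w : ℂ, R < ‖w‖ → fderiv ℝ u w = 0 ∧ u w = 0 := by
    have hk : IsCompact (tsupport u) := hc
    obtain ⟨R, hR⟩ := hk.isBounded.subset_closedBall 0
    refine ⟨max R 1, by positivity, fun w hw => ?_⟩
    have hw' : w ∉ tsupport u := by
      intro h
      have := hR h
      rw [mem_closedBall_zero_iff] at this
      have h2 := le_max_left R 1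
      linarith
    refine ⟨?_, image_eq_zero_of_notMem_tsupport hw'⟩
    by_contra h
    exact hw' (support_fderiv_subset ℝ h)
  set g1 : ℝ × ℝ → F := fun p => fderiv ℝ u (pc p.1 p.2) (Complex.exp (p.2 * Complex.I)) with hg1
  set g2 : ℝ × ℝ → F := fun p => fderiv ℝ u (pc p.1 p.2)
    (Complex.exp (p.2 * Complex.I) * Complex.I) with hg2
  have c1 : Continuous g1 := (hDc.comp continuous_pc).clm_apply (by fun_prop)
  have c2 : Continuous g2 := (hDc.comp continuous_pc).clm_apply (by fun_prop)
  have z1 : ∀ p : ℝ × ℝ, R < |p.1| → g1 p = 0 := by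
    intro p hp
    rw [hg1]
    simp only
    rw [(hR (pc p.1 p.2) (by rw [norm_pc]; exact hp)).1]
    rfl
  have z2 : ∀ p : ℝ × ℝ, R < |p.1| → g2 p = 0 := by
    intro p hp
    rw [hg2]
    simp only
    rw [(hR (pc p.1 p.2) (by rw [norm_pc]; exact hp)).1]
    rfl
  have i1 := integrableOn_polar c1 z1
  have i2 := integrableOn_polar c2 z2
  -- polar coordinates
  rw [← Complex.integral_comp_polarCoord_symm, polarCoord_target]
  have e1 : ∀ p ∈ Ioi (0 : ℝ) ×ˢ Ioo (-π) π,
      p.1 • ((-(Complex.polarCoord.symm p))⁻¹ • dbar u (Complex.polarCoord.symm p)) =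
      (-(2 : ℂ)⁻¹) • (g1 p + Complex.I • g2 p) := by
    rintro ⟨r, t⟩ ⟨hr, -⟩
    simp only [mem_Ioi] at hr
    have hp : Complex.polarCoord.symm (r, t) = pc r t := by
      rw [Complex.polarCoord_symm_apply, pc, Complex.exp_mul_I]
      simp
    rw [hp, hg1, hg2]
    simp only
    have hr' : (r : ℂ) ≠ 0 := by exact_mod_cast hr.ne'
    have he : Complex.exp (t * Complex.I) ≠ 0 := Complex.exp_ne_zero _
    -- the derivative in terms of the real basis
    have hlin : ∀ w : ℂ, fderiv ℝ u (pc r t) w =
        w.re • fderiv ℝ u (pc r t) 1 + w.im • fderiv ℝ u (pc r t) Complex.I := by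
      intro w
      conv_lhs => rw [← Complex.re_add_im w]
      rw [map_add]
      congr 1
      · rw [← map_smul]
        congr 1
        simp
      · rw [← map_smul]
        congr 1
    set A := fderiv ℝ u (pc r t) 1 with hA
    set B := fderiv ℝ u (pc r t) Complex.I with hB
    have hexp : Complex.exp (t * Complex.I) = (Real.cos t : ℂ) + (Real.sin t : ℂ) * Complex.I := by
      rw [Complex.exp_mul_I, Complex.ofReal_cos, Complex.ofReal_sin]
    rw [hlin (Complex.exp (t * Complex.I)), hlin (Complex.exp (t * Complex.I) * Complex.I)]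
    have hre : (Complex.exp (t * Complex.I)).re = Real.cos t := Complex.exp_ofReal_mul_I_re t
    have him : (Complex.exp (t * Complex.I)).im = Real.sin t := Complex.exp_ofReal_mul_I_im t
    have hre2 : (Complex.exp (t * Complex.I) * Complex.I).re = - Real.sin t := by
      rw [Complex.mul_re, Complex.I_re, Complex.I_im, him]; ring
    have him2 : (Complex.exp (t * Complex.I) * Complex.I).im = Real.cos t := by
      rw [Complex.mul_im, Complex.I_re, Complex.I_im, hre]; ring
    rw [hre, him, hre2, him2, dbar, ← hA, ← hB, pc]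
    have hinv : (r : ℂ) * (-((r : ℂ) * Complex.exp (t * Complex.I)))⁻¹ =
        -((Real.cos t : ℂ) - (Real.sin t : ℂ) * Complex.I) := by
      have h1 : (Complex.exp (t * Complex.I))⁻¹ =
          (Real.cos t : ℂ) - (Real.sin t : ℂ) * Complex.I := by
        rw [← Complex.exp_neg, ← neg_mul, Complex.exp_mul_I, Complex.cos_neg, Complex.sin_neg,
          Complex.ofReal_cos, Complex.ofReal_sin]
        ring
      rw [← h1]
      field_simp
    have hrs : ∀ x : F, r • x = (r : ℂ) • x := fun x => (Complex.coe_smul r x).symm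
    rw [hrs, smul_smul, hinv]
    have hc1 : ∀ (s : ℝ) (x : F), s • x = (s : ℂ) • x := fun s x => (Complex.coe_smul s x).symm
    rw [hc1, hc1, hc1, hc1]
    simp only [smul_add, smul_smul]
    have hI : Complex.I * Complex.I = -1 := Complex.I_mul_I
    have : ∀ (a b c d e f : ℂ), a = c + e → b = d + f →
        a • A + b • B = c • A + d • B + (e • A + f • B) := by
      intro a b c d e f h1 h2
      rw [h1, h2, add_smul, add_smul]
      abel
    apply this
    · push_cast
      ring
    · push_cast
      linear_combination (2 : ℂ)⁻¹ * (Complex.sin t) * hI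
  rw [setIntegral_congr_fun (measurableSet_Ioi.prod measurableSet_Ioo) e1]
  have i2' : IntegrableOn (fun p => Complex.I • g2 p) (Ioi (0 : ℝ) ×ˢ Ioo (-π) π)
      (volume.prod volume) := i2.smul Complex.I
  rw [Measure.volume_eq_prod, integral_smul, integral_add i1 i2', integral_smul]
  -- the radial part
  have r1 : ∫ p in Ioi (0 : ℝ) ×ˢ Ioo (-π) π, g1 p ∂(volume.prod volume) =
      -((2 * π : ℝ) • u 0) := by
    rw [← setIntegral_prod_swap,
      setIntegral_prod (fun z : ℝ × ℝ => g1 z.swap) (i1.swap : IntegrableOn (g1 ∘ Prod.swap) _ _)]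
    have : ∀ t ∈ Ioo (-π) π, ∫ r in Ioi (0 : ℝ), g1 (Prod.swap (t, r)) = - u 0 := by
      intro t _
      have hder : ∀ r ∈ Ici (0 : ℝ), HasDerivAt (fun s : ℝ => u (pc s t)) (g1 (r, t)) r := by
        intro r _
        exact (hd (pc r t)).hasFDerivAt.comp_hasDerivAt r (hasDerivAt_pc_r r t)
      have hint : IntegrableOn (fun r : ℝ => g1 (r, t)) (Ioi 0) := by
        have h1 : IntegrableOn (fun r : ℝ => g1 (r, t)) (Icc 0 R) :=
          (c1.comp (by fun_prop)).continuousOn.integrableOn_compact isCompact_Icc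
        refine h1.of_forall_sdiff_eq_zero measurableSet_Ioi ?_
        rintro r ⟨hr, hn⟩
        refine z1 (r, t) ?_
        simp only [mem_Ioi] at hr
        simp only [mem_Icc, not_and_or, not_le] at hn
        rcases hn with h | h
        · exact absurd hr (by linarith)
        · simpa [abs_of_pos hr] using h
      have hlim : Tendsto (fun s : ℝ => u (pc s t)) atTop (𝓝 0) := by
        refine tendsto_const_nhds.congr' ?_
        filter_upwards [eventually_gt_atTop R] with s hs
        exact ((hR (pc s t) (by rw [norm_pc, abs_of_pos (hR0.trans hs)]; exact hs)).2).symm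
      have := integral_Ioi_of_hasDerivAt_of_tendsto' hder hint hlim
      simp only [Prod.swap_prod_mk]
      rw [this]
      simp [pc]
    rw [setIntegral_congr_fun measurableSet_Ioo this, setIntegral_const]
    rw [smul_neg]
    congr 2
    simp only [measureReal_def, Real.volume_Ioo]
    rw [ENNReal.toReal_ofReal (by linarith [Real.pi_pos])]
    ring
  -- the angular part
  have r2 : ∫ p in Ioi (0 : ℝ) ×ˢ Ioo (-π) π, g2 p ∂(volume.prod volume) = 0 := by
    rw [setIntegral_prod _ i2]
    have : ∀ r ∈ Ioi (0 : ℝ), ∫ t in Ioo (-π) π, g2 (r, t) = 0 := by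
      intro r hr
      simp only [mem_Ioi] at hr
      have hder : ∀ t ∈ uIcc (-π) π, HasDerivAt (fun s : ℝ => u (pc r s)) (r • g2 (r, t)) t := by
        intro t _
        have := (hd (pc r t)).hasFDerivAt.comp_hasDerivAt t (hasDerivAt_pc_t r t)
        have he : (r : ℂ) * (Complex.exp (t * Complex.I) * Complex.I) =
          r • (Complex.exp (t * Complex.I) * Complex.I) := by simp
        rw [he, map_smul] at this
        exact this
      have hcont : Continuous fun t : ℝ => r • g2 (r, t) :=
        (c2.comp (by fun_prop : Continuous fun t : ℝ => (r, t))).const_smul r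
      have h := intervalIntegral.integral_eq_sub_of_hasDerivAt hder
        (hcont.intervalIntegrable _ _)
      have hpp : pc r π = pc r (-π) := by
        unfold pc
        rw [Complex.exp_pi_mul_I]
        congr 1
        rw [Complex.ofReal_neg, neg_mul, Complex.exp_neg, Complex.exp_pi_mul_I]
        norm_num
      rw [hpp, sub_self, intervalIntegral.integral_smul,
        intervalIntegral.integral_of_le (by linarith [Real.pi_pos]),
        integral_Ioc_eq_integral_Ioo] at h
      exact (smul_eq_zero.mp h).resolve_left hr.ne'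
    rw [setIntegral_congr_fun measurableSet_Ioi this]
    simp
  rw [r1, r2, smul_zero, add_zero, smul_neg, neg_smul, neg_neg,
    ← Complex.coe_smul (2 * π) (u 0), smul_smul]
  congr 1
  push_cast
  ring

/-- (T3) Cauchy-Pompeiu for compactly supported `C¹` functions.
Proof: translate to `z = 0`, `T (dbar u) 0 = -(1/π) ∫ dbar u (w) / w`; polar coordinates
`w = r e^{iθ}`: `dbar u (w)/w · r = (1/2)(∂_r + (i/r)∂_θ) u(r e^{iθ})`; the `θ` integral of
`∂_θ u` is zero for every `r > 0`, the `r` integral of `∂_r u` is `-u 0` for every `θ`. -/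
theorem T_dbar [CompleteSpace F] {u : ℂ → F} (hu : ContDiff ℝ 1 u) (hc : HasCompactSupport u)
    (z : ℂ) : T (dbar u) z = u z := by
  have hv : ContDiff ℝ 1 fun w => u (z + w) := hu.comp (by fun_prop)
  have hvc : HasCompactSupport fun w => u (z + w) :=
    hc.comp_homeomorph (Homeomorph.addLeft z)
  have h := pompeiu_zero hv hvc
  have hdb : ∀ w, dbar (fun w => u (z + w)) w = dbar u (z + w) := by
    intro w
    have hf : fderiv ℝ (fun w => u (z + w)) w = fderiv ℝ u (z + w) := by
      exact fderiv_comp_add_left z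
    rw [dbar, dbar, hf]
  simp only [hdb] at h
  rw [T, ← integral_add_left_eq_self (fun w => (z - w)⁻¹ • dbar u w) z]
  have he : ∀ w : ℂ, z - (z + w) = -w := fun w => by ring
  simp only [he]
  rw [h, smul_smul]
  have hpi : (π : ℂ) ≠ 0 := by exact_mod_cast Real.pi_ne_zero
  rw [inv_mul_cancel₀ hpi, one_smul]
  simp

end Pool.Agent.W_4d259d_h46.Pl
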