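import Pool.Agent.W_4d259d_h46.Defs

/-!
# MP_4d259d_ag: projective manifolds
-/

noncomputable section

namespace Pool.Agent.W_4d259d_h46.Defs

open Set Filter Topology Manifold
open scoped ContDiff OnePoint LinearAlgebra.Projectivization

/-- The differential of `[g] : X → ℙ(F)` at `x` is injective: a tangent vector `v` of `X` at `x`
with `dg(v) ∈ ℂ · g(x)` is zero (`dg` is computed in the chart of `X` at `x`). -/
def ImmAt (E F : Type*) [NormedAddCommGroup E] [NormedSpace ℂ E] [NormedAddCommGroup F]
    [NormedSpace ℂ F] {X : Type*} [TopologicalSpace X] [ChartedSpace E X] (g : X → F) (x : X) :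
    Prop :=
  ∀ v : E, (∃ c : ℂ, fderiv ℂ (fun w => g ((chartAt E x).symm w)) (chartAt E x x) v = c • g x) →
    v = 0

/-- `j : X → ℙ(F)` is an injective holomorphic immersion: `j` is injective, and near every point
`x` of `X` it is `y ↦ [g(y)]` for a holomorphic map `g` with values in `F ∖ {0}`, the differential
of `j` at `x` being injective.  For compact `X` these are the holomorphic embeddings. -/
structure IsProjEmb (E F : Type*) [NormedAddCommGroup E] [NormedSpace ℂ E] [NormedAddCommGroup F]
    [NormedSpace ℂ F] {X : Type*} [TopologicalSpace X] [ChartedSpace E X] (j : X → ℙ ℂ F) :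
    Prop where
  injective : Function.Injective j
  immersion : ∀ x : X, ∃ U : Set X, IsOpen U ∧ x ∈ U ∧ ∃ g : X → F,
    MDifferentiableOn (modelWithCornersSelf ℂ E) (modelWithCornersSelf ℂ F) g U ∧
    (∀ y ∈ U, ∃ h : g y ≠ 0, j y = Projectivization.mk ℂ (g y) h) ∧ ImmAt E F g x

/-- The complex manifold `X` is a projective manifold: connected, compact, and it admits a
holomorphic embedding into some `ℙ^N = ℙ(ℂ^(N+1))`. -/
structure IsProjMan (E : Type*) [NormedAddCommGroup E] [NormedSpace ℂ E]
    (X : Type*) [TopologicalSpace X] [ChartedSpace E X] : Prop where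
  connected : ConnectedSpace X
  compact : CompactSpace X
  embedding : ∃ (N : ℕ) (j : X → ℙ ℂ (EuclideanSpace ℂ (Fin (N + 1)))),
    IsProjEmb E (EuclideanSpace ℂ (Fin (N + 1))) j

end Pool.Agent.W_4d259d_h46.Defs
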