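import Pool.Agent.W_4d259d_h44.FinG
import Pool.Agent.W_4d259d_h46.ProjMan

/-!
# MP_4d259d_ag: Q1 in the words of the problem file, and sanity lemmas for the definitions
-/

noncomputable section

namespace Pool.Agent.W_4d259d_h46.Q1

open Set Filter Topology Manifold
open scoped ContDiff
open Pool.Agent.W_4d259d_h46.Defs Pool.Agent.W_4d259d_h44

/-- Q1, word for word: every rationally connected projective manifold is Oka-1 (for every distance
inducing its topology). -/
theorem q1 (E : Type) [NormedAddCommGroup E] [NormedSpace ℂ E] [FiniteDimensional ℂ E]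
    (X : Type) [MetricSpace X] [ChartedSpace E X] [IsManifold (modelWithCornersSelf ℂ E) ω X]
    (hX : IsProjMan E X) (h : RatConn E X) : IsOkaOneMan E X := by
  have := hX.compact
  exact isOkaOneMan_of_ratConn E X h

/-- A nonempty manifold in which any two points lie on one rational curve is connected: the
connectedness required of complex manifolds in the problem file is automatic. -/
theorem connectedSpace_of_ratConn {E : Type*} [NormedAddCommGroup E] [NormedSpace ℂ E]
    {X : Type*} [TopologicalSpace X] [ChartedSpace E X] [Nonempty X] (h : RatConn E X) :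
    ConnectedSpace X := by
  have hpre : ∀ x y : X, ∃ s : Set X, IsPreconnected s ∧ x ∈ s ∧ y ∈ s := by
    intro x y
    obtain ⟨u0, u1, h0, h1, h01, hx, hy⟩ := ratConn_iff_pair.1 h x y
    have hc0 : Continuous u0 := continuousOn_univ.1 h0.continuousOn
    have hc1 : Continuous u1 := continuousOn_univ.1 h1.continuousOn
    have hp0 : IsPreconnected (range u0) := isPreconnected_range hc0
    have hp1 : IsPreconnected (range u1) := isPreconnected_range hc1
    have hne : (range u0 ∩ range u1).Nonempty := by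
      refine ⟨u0 1, ⟨1, rfl⟩, ⟨1, ?_⟩⟩
      simpa using h01 1 one_ne_zero
    refine ⟨range u0 ∪ range u1, hp0.union' hne hp1, ?_, ?_⟩
    · rcases hx with rfl | hx
      · exact Or.inr ⟨0, rfl⟩
      · exact Or.inl hx
    · rcases hy with rfl | hy
      · exact Or.inr ⟨0, rfl⟩
      · exact Or.inl hy
  obtain ⟨x⟩ := ‹Nonempty X›
  have : IsPreconnected (univ : Set X) := by
    refine isPreconnected_of_forall x fun y _ => ?_
    obtain ⟨s, hs, hxs, hys⟩ := hpre x y
    exact ⟨s, subset_univ _, hxs, hys, hs⟩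
  exact { toPreconnectedSpace := ⟨this⟩, toNonempty := ⟨x⟩ }

/-- For maps between open sets of normed spaces `HolOn` is complex differentiability. -/
theorem holOn_iff {E : Type*} [NormedAddCommGroup E] [NormedSpace ℂ E] (f : ℂ → E) (U : Set ℂ) :
    HolOn E f U ↔ DifferentiableOn ℂ f U := mdifferentiableOn_iff_differentiableOn

/-- `JetEq` for maps `ℂ → E`. -/
theorem jetEq_iff {E : Type*} [NormedAddCommGroup E] [NormedSpace ℂ E] (k : ℕ) (F f : ℂ → E)
    (a : ℂ) : JetEq E k F f a ↔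
      F a = f a ∧ (fun z => F z - f z) =O[𝓝 a] fun z => ‖z - a‖ ^ (k + 1) := by
  simp [JetEq, chartAt_self_eq]

/-- Vanishing to order `m` of an analytic map. -/
theorem isBigO_pow_iff {E : Type*} [NormedAddCommGroup E] [NormedSpace ℂ E] [CompleteSpace E]
    {h : ℂ → E} {a : ℂ} (hh : AnalyticAt ℂ h a) (m : ℕ) :
    (h =O[𝓝 a] fun z => ‖z - a‖ ^ m) ↔ ∀ i < m, iteratedDeriv i h a = 0 := by
  rw [← natCast_le_analyticOrderAt_iff_iteratedDeriv_eq_zero hh]
  constructor
  · intro hO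
    by_contra hlt
    rw [not_le] at hlt
    have hne : analyticOrderAt h a ≠ ⊤ := hlt.ne_top
    obtain ⟨n, hn⟩ := ENat.ne_top_iff_exists.1 hne
    rw [← hn, Nat.cast_lt] at hlt
    obtain ⟨g, hg, hg0, hgh⟩ := (hh.analyticOrderAt_eq_natCast).1 hn.symm
    have h1 : (fun z : ℂ => ‖z - a‖ ^ n * ‖g z‖) =O[𝓝 a] fun z => ‖z - a‖ ^ m := by
      refine (hO.norm_left).congr' ?_ EventuallyEq.rfl
      filter_upwards [hgh] with z hz
      rw [hz, norm_smul, norm_pow]
    obtain ⟨C, hC⟩ := h1.bound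
    have h2 : ∀ᶠ z in 𝓝[≠] a, ‖g z‖ ≤ C * ‖z - a‖ ^ (m - n) := by
      filter_upwards [nhdsWithin_le_nhds hC, self_mem_nhdsWithin] with z hz hza
      have h3 : 0 < ‖z - a‖ := norm_pos_iff.2 (sub_ne_zero.2 hza)
      rw [norm_mul, norm_pow, norm_pow, norm_norm, norm_norm] at hz
      have h4 : ‖z - a‖ ^ m = ‖z - a‖ ^ n * ‖z - a‖ ^ (m - n) := by
        rw [← pow_add]
        congr 1
        omega
      rw [h4] at hz
      have h5 : ‖z - a‖ ^ n * ‖g z‖ ≤ ‖z - a‖ ^ n * (C * ‖z - a‖ ^ (m - n)) := by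
        calc ‖z - a‖ ^ n * ‖g z‖ ≤ C * (‖z - a‖ ^ n * ‖z - a‖ ^ (m - n)) := hz
          _ = _ := by ring
      exact le_of_mul_le_mul_left h5 (pow_pos h3 n)
    have h6 : Tendsto (fun z : ℂ => ‖g z‖) (𝓝[≠] a) (𝓝 ‖g a‖) :=
      hg.continuousAt.norm.tendsto.mono_left nhdsWithin_le_nhds
    have h7 : Tendsto (fun z : ℂ => C * ‖z - a‖ ^ (m - n)) (𝓝[≠] a) (𝓝 0) := by
      have h8 : Continuous fun z : ℂ => C * ‖z - a‖ ^ (m - n) := by fun_prop
      have h9 := h8.tendsto a
      have h10 : m - n ≠ 0 := by omega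
      simp only [sub_self, norm_zero, zero_pow h10, mul_zero] at h9
      exact h9.mono_left nhdsWithin_le_nhds
    have h8 : ‖g a‖ ≤ 0 := le_of_tendsto_of_tendsto h6 h7 h2
    exact hg0 (norm_le_zero_iff.1 h8)
  · intro hle
    obtain ⟨g, hg, hgh⟩ := (natCast_le_analyticOrderAt hh).1 hle
    have h1 : (fun z : ℂ => (z - a) ^ m • g z) =O[𝓝 a] fun z : ℂ => ‖z - a‖ ^ m := by
      have h2 : (fun z : ℂ => (z - a) ^ m) =O[𝓝 a] fun z : ℂ => ‖z - a‖ ^ m :=
        Asymptotics.IsBigO.of_norm_le fun z => by rw [norm_pow]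
      have h3 : g =O[𝓝 a] fun _ => (1 : ℝ) := hg.continuousAt.tendsto.isBigO_one ℝ
      simpa using h2.smul h3
    exact h1.congr' (EventuallyEq.symm hgh) EventuallyEq.rfl

/-- `JetEq` for holomorphic maps into a normed space: equality of the derivatives of orders
`0, …, k`. -/
theorem jetEq_iff_iteratedDeriv {E : Type*} [NormedAddCommGroup E] [NormedSpace ℂ E]
    [CompleteSpace E] (k : ℕ) {F f : ℂ → E} {a : ℂ} (hF : AnalyticAt ℂ F a)
    (hf : AnalyticAt ℂ f a) :
    JetEq E k F f a ↔ ∀ i ≤ k, iteratedDeriv i F a = iteratedDeriv i f a := by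
  rw [jetEq_iff, isBigO_pow_iff (h := fun z => F z - f z) (hF.sub hf)]
  have h1 : ∀ i : ℕ, iteratedDeriv i (fun z => F z - f z) a =
      iteratedDeriv i F a - iteratedDeriv i f a := fun i =>
    iteratedDeriv_fun_sub hF.contDiffAt hf.contDiffAt
  simp only [h1, sub_eq_zero, Nat.lt_succ_iff]
  constructor
  · rintro ⟨-, h⟩
    exact h
  · intro h
    exact ⟨by simpa using h 0 (Nat.zero_le _), h⟩

/-- Differences in two charts are comparable. -/
theorem isBigO_chart {E : Type*} [NormedAddCommGroup E] [NormedSpace ℂ E] [CompleteSpace E]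
    {X : Type*} [TopologicalSpace X] [ChartedSpace E X]
    [IsManifold (modelWithCornersSelf ℂ E) ω X] {φ ψ : OpenPartialHomeomorph X E}
    (hφ : φ ∈ XChart E X) (hψ : ψ ∈ XChart E X) {x : X} (hxφ : x ∈ φ.source)
    (hxψ : x ∈ ψ.source) {S : Type*} {l : Filter S} {u v : S → X} (hu : Tendsto u l (𝓝 x))
    (hv : Tendsto v l (𝓝 x)) :
    (fun s => φ (u s) - φ (v s)) =O[l] fun s => ψ (u s) - ψ (v s) := by
  have hd := transition_diff hψ hφ
  have hopen : IsOpen (ψ.symm ≫ₕ φ).source := (ψ.symm ≫ₕ φ).open_source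
  have hmem : ψ x ∈ (ψ.symm ≫ₕ φ).source := by
    rw [OpenPartialHomeomorph.trans_source]
    exact ⟨ψ.map_source hxψ, by
      show ψ.symm (ψ x) ∈ φ.source
      rwa [ψ.left_inv hxψ]⟩
  have hs := ApiC.hasStrictFDerivAt hopen (f := fun w => φ (ψ.symm w)) hd hmem
  have hlim : Tendsto (fun s => (ψ (u s), ψ (v s))) l (𝓝 (ψ x, ψ x)) :=
    Tendsto.prodMk_nhds ((ψ.continuousAt hxψ).tendsto.comp hu)
      ((ψ.continuousAt hxψ).tendsto.comp hv)
  have h1 := hs.isBigO_sub.comp_tendsto hlim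
  refine h1.congr' ?_ EventuallyEq.rfl
  filter_upwards [hu (ψ.open_source.mem_nhds hxψ), hv (ψ.open_source.mem_nhds hxψ)] with s hs1 hs2
  show φ (ψ.symm (ψ (u s))) - φ (ψ.symm (ψ (v s))) = _
  rw [ψ.left_inv hs1, ψ.left_inv hs2]

/-- `JetEq` does not depend on the charts. -/
theorem jetEq_iff_charts {R : Type*} [TopologicalSpace R] [ChartedSpace ℂ R]
    [IsManifold (modelWithCornersSelf ℂ ℂ) ω R]
    {E : Type*} [NormedAddCommGroup E] [NormedSpace ℂ E] [CompleteSpace E]
    {X : Type*} [TopologicalSpace X] [ChartedSpace E X]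
    [IsManifold (modelWithCornersSelf ℂ E) ω X] (k : ℕ) {F f : R → X} {a : R}
    (hF : ContinuousAt F a) (hf : ContinuousAt f a) {e : OpenPartialHomeomorph R ℂ}
    (he : e ∈ RChart R) (hae : a ∈ e.source) {φ : OpenPartialHomeomorph X E}
    (hφ : φ ∈ XChart E X) (haφ : f a ∈ φ.source) :
    JetEq E k F f a ↔ F a = f a ∧
      (fun z => φ (F z) - φ (f z)) =O[𝓝 a] fun z => ‖e z - e a‖ ^ (k + 1) := by
  have hφ' : chartAt E (f a) ∈ XChart E X := IsManifold.chart_mem_maximalAtlas (f a)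
  have he' : chartAt ℂ a ∈ RChart R := IsManifold.chart_mem_maximalAtlas a
  have hxφ' : f a ∈ (chartAt E (f a)).source := mem_chart_source E (f a)
  have hae' : a ∈ (chartAt ℂ a).source := mem_chart_source ℂ a
  have hid : Tendsto (fun z : R => z) (𝓝 a) (𝓝 a) := tendsto_id
  have hca : Tendsto (fun _ : R => a) (𝓝 a) (𝓝 a) := tendsto_const_nhds
  have h1 := (isBigO_chart (E := ℂ) he he' hae hae' hid hca).norm_left.norm_right.pow (k + 1)
  have h2 := (isBigO_chart (E := ℂ) he' he hae' hae hid hca).norm_left.norm_right.pow (k + 1)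
  unfold JetEq
  constructor
  · rintro ⟨h0, h3⟩
    refine ⟨h0, ?_⟩
    have hF' : Tendsto F (𝓝 a) (𝓝 (f a)) := by
      rw [← h0]
      exact hF
    exact ((isBigO_chart hφ hφ' haφ hxφ' hF' hf).trans h3).trans h2
  · rintro ⟨h0, h3⟩
    refine ⟨h0, ?_⟩
    have hF' : Tendsto F (𝓝 a) (𝓝 (f a)) := by
      rw [← h0]
      exact hF
    exact ((isBigO_chart hφ' hφ hxφ' haφ hF' hf).trans h3).trans h1

end Pool.Agent.W_4d259d_h46.Q1
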